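import Mathlib

/-!
# ACIP: existence of an absolutely continuous invariant probability measure

Proof.  Let `U` be an ultrafilter on `ℕ` refining `atTop` (`Filter.hyperfilter ℕ`).  For measurable
`E` put `m E = lim_U (1/(N+1)) Σ_{i ≤ N} lam (f^[i] ⁻¹' E)` (in `ℝ` with `lam.real`, values in
`[0, C lam univ]`, or in `ℝ≥0∞`, which is compact).  `m` is finitely additive, `m E ≤ C * lam E`,
hence countably additive (for disjoint `E_i`: `m (⋃_{i ≥ k} E_i) ≤ C lam (⋃_{i ≥ k} E_i) → 0`), so
it is a measure (`Measure.ofMeasurable`); `m (f⁻¹ E) = m E` since the two averages differ by at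
most `2 C lam univ/(N+1)`; `m univ = lam univ ∈ (0, ∞)`, so normalise.
-/

open MeasureTheory
open scoped ENNReal NNReal

namespace Pool.H71.BS

open Filter Topology

/-- the averages -/
noncomputable def acipA {X : Type*} [MeasurableSpace X] (lam : Measure X) (f : X → X)
    (E : Set X) (N : ℕ) : ℝ≥0∞ :=
  (∑ i ∈ Finset.range (N + 1), lam (f^[i] ⁻¹' E)) / ((N : ℝ≥0∞) + 1)

/-- their limit along an ultrafilter -/
noncomputable def acipM {X : Type*} [MeasurableSpace X] (lam : Measure X) (f : X → X)
    (E : Set X) : ℝ≥0∞ :=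
  (Ultrafilter.map (acipA lam f E) (Filter.hyperfilter ℕ)).lim

theorem acip_tendsto {X : Type*} [MeasurableSpace X] (lam : Measure X) (f : X → X) (E : Set X) :
    Tendsto (acipA lam f E) (Filter.hyperfilter ℕ) (𝓝 (acipM lam f E)) :=
  (Ultrafilter.map (acipA lam f E) (Filter.hyperfilter ℕ)).le_nhds_lim

theorem exists_acip {X : Type*} [MeasurableSpace X] (lam : Measure X) [IsFiniteMeasure lam]
    (h0 : lam ≠ 0) (f : X → X) (hf : Measurable f) (C : ℝ≥0∞) (hC : C ≠ ∞)
    (hb : ∀ (N : ℕ) (E : Set X), MeasurableSet E → lam (f^[N] ⁻¹' E) ≤ C * lam E) :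
    ∃ μ : Measure X, IsProbabilityMeasure μ ∧ μ ≪ lam ∧ MeasurePreserving f μ μ := by
  have hN0 : ∀ N : ℕ, (N : ℝ≥0∞) + 1 ≠ 0 := fun N => by simp
  have hN1 : ∀ N : ℕ, (N : ℝ≥0∞) + 1 ≠ ∞ := fun N => by finiteness
  have hfi : ∀ i : ℕ, Measurable (f^[i]) := fun i => hf.iterate i
  have hUle : ((Filter.hyperfilter ℕ : Ultrafilter ℕ) : Filter ℕ) ≤ atTop := Nat.hyperfilter_le_atTop
  -- bound
  have hAle : ∀ E : Set X, MeasurableSet E → ∀ N, acipA lam f E N ≤ C * lam E := by
    intro E hE N
    unfold acipA
    apply ENNReal.div_le_of_le_mul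
    calc ∑ i ∈ Finset.range (N + 1), lam (f^[i] ⁻¹' E)
        ≤ ∑ _i ∈ Finset.range (N + 1), C * lam E := Finset.sum_le_sum fun i _ => hb i E hE
      _ = C * lam E * ((N : ℝ≥0∞) + 1) := by
          rw [Finset.sum_const, Finset.card_range, nsmul_eq_mul, mul_comm]
          push_cast
          rfl
  have hMle : ∀ E : Set X, MeasurableSet E → acipM lam f E ≤ C * lam E := fun E hE =>
    le_of_tendsto' (acip_tendsto lam f E) (hAle E hE)
  -- additivity
  have hMadd : ∀ E F : Set X, MeasurableSet E → MeasurableSet F → Disjoint E F →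
      acipM lam f (E ∪ F) = acipM lam f E + acipM lam f F := by
    intro E F hE hF hd
    have h1 : ∀ N, acipA lam f (E ∪ F) N = acipA lam f E N + acipA lam f F N := by
      intro N
      unfold acipA
      rw [← ENNReal.add_div, ← Finset.sum_add_distrib]
      congr 1
      apply Finset.sum_congr rfl
      intro i _
      rw [Set.preimage_union, measure_union (hd.preimage _) (hfi i hF)]
    have h2 := (acip_tendsto lam f E).add (acip_tendsto lam f F)
    have h3 := acip_tendsto lam f (E ∪ F)
    refine tendsto_nhds_unique h3 (h2.congr fun N => (h1 N).symm)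
  have hM0 : acipM lam f ∅ = 0 := by
    have := hMle ∅ MeasurableSet.empty
    simpa using this
  -- total mass
  have hMuniv : acipM lam f Set.univ = lam Set.univ := by
    have h1 : ∀ N, acipA lam f Set.univ N = lam Set.univ := by
      intro N
      unfold acipA
      simp only [Set.preimage_univ]
      rw [Finset.sum_const, Finset.card_range, nsmul_eq_mul]
      push_cast
      rw [mul_comm, mul_div_assoc, ENNReal.div_self (hN0 N) (hN1 N), mul_one]
    refine tendsto_nhds_unique (acip_tendsto lam f Set.univ) ?_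
    exact tendsto_const_nhds.congr fun N => (h1 N).symm
  -- invariance
  have hMinv : ∀ E : Set X, MeasurableSet E → acipM lam f (f ⁻¹' E) = acipM lam f E := by
    intro E hE
    have h1 : ∀ N, acipA lam f (f ⁻¹' E) N + lam E / ((N : ℝ≥0∞) + 1) =
        acipA lam f E N + lam (f^[N + 1] ⁻¹' E) / ((N : ℝ≥0∞) + 1) := by
      intro N
      unfold acipA
      rw [← ENNReal.add_div, ← ENNReal.add_div]
      congr 1
      have e1 : ∀ i, f^[i] ⁻¹' (f ⁻¹' E) = f^[i + 1] ⁻¹' E := by
        intro i
        rw [← Set.preimage_comp, Function.iterate_succ']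
      simp only [e1]
      have e2 := Finset.sum_range_succ (fun i => lam (f^[i] ⁻¹' E)) (N + 1)
      have e3 := Finset.sum_range_succ' (fun i => lam (f^[i] ⁻¹' E)) (N + 1)
      rw [← e2, e3]
      simp
    have hz : ∀ K : ℝ≥0∞, K ≠ ∞ → Tendsto (fun N : ℕ => K / ((N : ℝ≥0∞) + 1))
        (Filter.hyperfilter ℕ) (𝓝 0) := by
      intro K hK
      refine Tendsto.mono_left ?_ hUle
      have h2 := (ENNReal.Tendsto.const_div ENNReal.tendsto_nat_nhds_top (Or.inr hK)).comp
          (tendsto_add_atTop_nat 1)
      rw [ENNReal.div_top] at h2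
      refine h2.congr fun N => ?_
      rw [Function.comp_apply]
      push_cast
      rfl
    have h2 : Tendsto (fun N : ℕ => lam (f^[N + 1] ⁻¹' E) / ((N : ℝ≥0∞) + 1))
        (Filter.hyperfilter ℕ) (𝓝 0) := by
      refine tendsto_of_tendsto_of_tendsto_of_le_of_le tendsto_const_nhds
        (hz (lam Set.univ) (measure_ne_top _ _)) (fun N => bot_le) fun N => ?_
      exact ENNReal.div_le_div_right (measure_mono (Set.subset_univ _)) _
    have h3 := (acip_tendsto lam f (f ⁻¹' E)).add (hz (lam E) (measure_ne_top _ _))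
    have h4 := (acip_tendsto lam f E).add h2
    rw [add_zero] at h3 h4
    exact tendsto_nhds_unique h3 (h4.congr fun N => (h1 N).symm)
  -- countable additivity
  have hMsum : ∀ E : ℕ → Set X, (∀ i, MeasurableSet (E i)) → Pairwise (Function.onFun Disjoint E) →
      acipM lam f (⋃ i, E i) = ∑' i, acipM lam f (E i) := by
    intro E hE hd
    let T : ℕ → Set X := fun k => ⋃ i, E (i + k)
    have hT : ∀ k, MeasurableSet (T k) := fun k => MeasurableSet.iUnion fun i => hE _
    have hTs : ∀ k, T k = E k ∪ T (k + 1) := by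
      intro k
      ext x
      simp only [T, Set.mem_iUnion, Set.mem_union]
      constructor
      · rintro ⟨i, hi⟩
        cases i with
        | zero => left; simpa using hi
        | succ i => right; exact ⟨i, by rwa [show i + (k + 1) = i + 1 + k by ring]⟩
      · rintro (h | ⟨i, hi⟩)
        · exact ⟨0, by simpa using h⟩
        · exact ⟨i + 1, by rwa [show i + 1 + k = i + (k + 1) by ring]⟩
    have hTd : ∀ k, Disjoint (E k) (T (k + 1)) := by
      intro k
      rw [Set.disjoint_iUnion_right]
      intro i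
      exact hd (by omega)
    have hsum : ∀ k, acipM lam f (T 0) = ∑ i ∈ Finset.range k, acipM lam f (E i) +
        acipM lam f (T k) := by
      intro k
      induction k with
      | zero => simp
      | succ k ih =>
        rw [ih, Finset.sum_range_succ, hTs k, hMadd _ _ (hE k) (hT (k + 1)) (hTd k), add_assoc]
    have hlamT : Tendsto (fun k => lam (T k)) atTop (𝓝 0) := by
      have h1 : ∀ k, lam (T k) = ∑' i, lam (E (i + k)) := by
        intro k
        exact measure_iUnion (fun i j hij => hd (by omega)) fun i => hE _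
      simp only [h1]
      apply ENNReal.tendsto_sum_nat_add (fun i => lam (E i))
      rw [← measure_iUnion hd hE]
      exact measure_ne_top _ _
    have hMT : Tendsto (fun k => acipM lam f (T k)) atTop (𝓝 0) := by
      have h1 : Tendsto (fun k => C * lam (T k)) atTop (𝓝 0) := by
        have := ENNReal.Tendsto.const_mul hlamT (Or.inr hC)
        rwa [mul_zero] at this
      exact tendsto_of_tendsto_of_tendsto_of_le_of_le tendsto_const_nhds h1
        (fun k => bot_le) fun k => hMle _ (hT k)
    have h2 : Tendsto (fun k => ∑ i ∈ Finset.range k, acipM lam f (E i) + acipM lam f (T k)) atTop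
        (𝓝 (∑' i, acipM lam f (E i) + 0)) :=
      (ENNReal.tendsto_nat_tsum _).add hMT
    rw [add_zero] at h2
    have h3 : T 0 = ⋃ i, E i := by simp [T]
    rw [← h3]
    exact tendsto_nhds_unique (tendsto_const_nhds.congr fun k => hsum k) h2
  let ν : Measure X := Measure.ofMeasurable (fun E _ => acipM lam f E) hM0
    (fun E hE hd => hMsum E hE hd)
  have hν : ∀ E, MeasurableSet E → ν E = acipM lam f E := fun E hE =>
    Measure.ofMeasurable_apply E hE
  have hl0 : lam Set.univ ≠ 0 := by
    rwa [Ne, Measure.measure_univ_eq_zero]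
  have hl1 : lam Set.univ ≠ ∞ := measure_ne_top _ _
  refine ⟨(lam Set.univ)⁻¹ • ν, ⟨?_⟩, ?_, ⟨hf, ?_⟩⟩
  · rw [Measure.smul_apply, hν _ MeasurableSet.univ, hMuniv, smul_eq_mul]
    exact ENNReal.inv_mul_cancel hl0 hl1
  · refine Measure.AbsolutelyContinuous.mk fun E hE hE0 => ?_
    rw [Measure.smul_apply, hν _ hE]
    have := hMle E hE
    rw [hE0, mul_zero] at this
    rw [le_zero_iff.1 this, smul_zero]
  · ext E hE
    rw [Measure.map_apply hf hE, Measure.smul_apply, Measure.smul_apply, hν _ hE,
      hν _ (hf hE), hMinv E hE]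

end Pool.H71.BS
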