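import Pool.Agent.H71.BS.MCore

/-!
# BOUND: `lam (f^{-N} E) ≤ C lam E`

Proof.  For `l : ZMod n` and a word `w` of length `N` let `A = G l`,
`X_{w,l} = {x | itin κ N x = w, Far l x, f^N x ∈ E}` (measurable).  For `a ∈ G l`, `x ∈ X_{w,l}`:
`Perp x a` (`perp_of_far`), `w` is valid for `x`, hence `Perp (run w x) (run w a)` (`perp_run`) and
`inv w` is valid for `run w a` (`valid_inv`), `run (inv w) (run w a) = a ∈ G l`,
`run (inv w) (run w x) = x`, `Far l x`.  So `confluence` (applied to the word `inv w`, the point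
`run w a`, the auxiliary point `u = run w x`) shows that `run (inv w)`, as a map, is determined by
the point `run w a` alone.  Consequently, for fixed `l`, the product sets
`run w '' G l ×ˢ run w '' X_{w,l} ⊆ univ ×ˢ E` are pairwise disjoint for different `w` (if
`(run w a, run w x) = (run w' a', run w' x')` then `run (inv w) = run (inv w')`, so `x = x'` and
`w = itin κ N x = w'`).  By `distort_lower`, `rhoW w a * rhoW w x ≥ c0²/D0² =: c1` for all
`a ∈ G l`, `x ∈ X_{w,l}`, so (with `m = inf over X_{w,l} of rhoW w`, `rhoW w ≥ c1/m'`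
for all `m' > m`... or simply: put `α = inf_{G l} rhoW w`, `β = inf_{X} rhoW w`, `α β ≥ c1`) and
`le_lam_image`: `c1 * lam (G l) * lam X_{w,l} ≤ lam (run w '' G l) * lam (run w '' X_{w,l})`.
Summing over `w` (finitely many words of length `N`):
`c1 * lam (G l) * Σ_w lam X_{w,l} ≤ lam univ * lam E`.  Every point `x` has some `l` with
`Far l x` (`exists_far`), so `lam (f^{-N} E) ≤ Σ_l Σ_w lam X_{w,l} ≤ C * lam E` with
`C = Σ_l lam univ / (c1 * lam (G l))`, independent of `N` and `κ`.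
-/

open MeasureTheory
open scoped ENNReal NNReal

namespace Pool.H71.BS
namespace MCore

variable {n : ℕ} {X : Type*} [MetricSpace X] [MeasurableSpace X] [BorelSpace X]
  {lam : Measure X} (M : MCore n X lam)

theorem bound_c1_pos : 0 < M.c0 ^ 2 / M.D0 ^ 2 :=
  div_pos (pow_pos M.c0_pos 2) (pow_pos M.D0_pos 2)

/-- points with itinerary `w`, far from `l`, mapped to `E` by `f^N` -/
def boundX (κ : X → ZMod n) (N : ℕ) (E : Set X) (l : ZMod n) (w : List (ZMod n)) : Set X :=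
  {x | M.itin κ N x = w ∧ M.Far l x ∧ (M.fmap κ)^[N] x ∈ E}

theorem boundX_meas {κ : X → ZMod n} (hm : ∀ j, MeasurableSet {x | κ x = j}) (N : ℕ)
    {E : Set X} (hE : MeasurableSet E) (l : ZMod n) (w : List (ZMod n)) :
    MeasurableSet (M.boundX κ N E l w) := by
  by_cases hN : w.length = N
  · subst hN
    exact (M.measurableSet_cyl hm w).inter
      ((M.measurableSet_far l).inter ((M.measurable_fmap hm).iterate _ hE))
  · have : M.boundX κ N E l w = ∅ := by
      rw [Set.eq_empty_iff_forall_notMem]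
      rintro x ⟨h, -⟩
      exact hN (by rw [← h]; simp)
    rw [this]
    exact MeasurableSet.empty

theorem bound_valid {κ : X → ZMod n} (hκ : ∀ x, x ∈ M.arc (κ x)) {N : ℕ} {E : Set X}
    {l : ZMod n} {w : List (ZMod n)} {x : X} (hx : x ∈ M.boundX κ N E l w) :
    M.Valid w x := by
  have := M.valid_itin hκ N x
  rwa [hx.1] at this

theorem bound_prod {κ : X → ZMod n} (hκ : ∀ x, x ∈ M.arc (κ x)) (N : ℕ) (E : Set X)
    (l : ZMod n) (w : List (ZMod n)) :
    ENNReal.ofReal (M.c0 ^ 2 / M.D0 ^ 2) * lam (M.G l) * lam (M.boundX κ N E l w) ≤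
      lam (M.run w '' M.G l) * lam (M.run w '' M.boundX κ N E l w) := by
  rcases Set.eq_empty_or_nonempty (M.boundX κ N E l w) with h0 | ⟨x0, hx0⟩
  · rw [h0]; simp
  have hc1 := M.bound_c1_pos
  have key : ∀ a ∈ M.G l, ∀ x ∈ M.boundX κ N E l w,
      M.c0 ^ 2 / M.D0 ^ 2 ≤ M.rhoW w a * M.rhoW w x := by
    intro a ha x hx
    exact M.distort_lower (M.perp_run (M.perp_of_far ha hx.2.1).symm (M.bound_valid hκ hx))
  set α : ℝ := sInf ((fun a => M.rhoW w a) '' M.G l) with hα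
  have hne : ((fun a => M.rhoW w a) '' M.G l).Nonempty := (M.G_nonempty l).image _
  have hbdd : BddBelow ((fun a => M.rhoW w a) '' M.G l) :=
    ⟨0, by rintro _ ⟨a, _, rfl⟩; exact (M.rhoW_pos w a).le⟩
  have h1 : ∀ x ∈ M.boundX κ N E l w, M.c0 ^ 2 / M.D0 ^ 2 / M.rhoW w x ≤ α := by
    intro x hx
    refine le_csInf hne ?_
    rintro _ ⟨a, ha, rfl⟩
    rw [div_le_iff₀ (M.rhoW_pos w x)]
    exact key a ha x hx
  have hα0 : 0 < α := lt_of_lt_of_le (div_pos hc1 (M.rhoW_pos w x0)) (h1 x0 hx0)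
  have h2 : ∀ a ∈ M.G l, α ≤ M.rhoW w a := fun a ha => csInf_le hbdd ⟨a, ha, rfl⟩
  have h3 : ∀ x ∈ M.boundX κ N E l w, M.c0 ^ 2 / M.D0 ^ 2 / α ≤ M.rhoW w x := by
    intro x hx
    have := h1 x hx
    rw [div_le_iff₀ (M.rhoW_pos w x)] at this
    rw [div_le_iff₀ hα0, mul_comm]
    exact this
  have h4 := M.le_lam_image w (M.G l) hα0 h2
  have h5 := M.le_lam_image w (M.boundX κ N E l w) (div_pos hc1 hα0) h3
  calc ENNReal.ofReal (M.c0 ^ 2 / M.D0 ^ 2) * lam (M.G l) * lam (M.boundX κ N E l w)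
      = (ENNReal.ofReal α * lam (M.G l)) *
        (ENNReal.ofReal (M.c0 ^ 2 / M.D0 ^ 2 / α) * lam (M.boundX κ N E l w)) := by
        have : M.c0 ^ 2 / M.D0 ^ 2 = α * (M.c0 ^ 2 / M.D0 ^ 2 / α) := by
          field_simp
        conv_lhs => rw [this, ENNReal.ofReal_mul hα0.le]
        ring
    _ ≤ _ := mul_le_mul' h4 h5

theorem bound_disj {κ : X → ZMod n} (hκ : ∀ x, x ∈ M.arc (κ x)) (N : ℕ) (E : Set X)
    (l : ZMod n) :
    Pairwise (Function.onFun Disjoint fun w : List (ZMod n) =>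
      (M.run w '' M.G l) ×ˢ (M.run w '' M.boundX κ N E l w)) := by
  have key : ∀ (w : List (ZMod n)) (p q a x : X), a ∈ M.G l → M.run w a = p →
      x ∈ M.boundX κ N E l w → M.run w x = q →
      ∀ z, M.run (M.itin κ N p) z = M.run (M.inv w) z := by
    rintro w _ _ a x ha rfl hx rfl z
    have hp : M.Perp a x := (M.perp_of_far ha hx.2.1).symm
    have hv := M.bound_valid hκ hx
    have hN : (M.inv w).length = N := by
      rw [Core.inv_length, ← hx.1, Core.itin_length]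
    have := M.confluence (j := l) hκ (M.valid_inv hv hp) (u := M.run w x)
      (M.perp_run hp hv).symm (by rw [M.run_inv]; exact ha) (by rw [M.run_inv]; exact hx.2.1) z
    rwa [hN] at this
  intro w w' hne
  rw [Function.onFun, Set.disjoint_left]
  rintro ⟨p, q⟩ ⟨⟨a, ha, hpa⟩, ⟨x, hx, hqx⟩⟩ ⟨⟨a', ha', hpa'⟩, ⟨x', hx', hqx'⟩⟩
  simp only at hpa hqx hpa' hqx'
  have h1 := key w p q a x ha hpa hx hqx q
  have h2 := key w' p q a' x' ha' hpa' hx' hqx' q
  rw [h1] at h2
  rw [← hqx, M.run_inv] at h2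
  rw [hqx, ← hqx', M.run_inv] at h2
  apply hne
  rw [← hx.1, h2, hx'.1]

theorem bound : ∃ C : ℝ≥0∞, C ≠ ∞ ∧ ∀ κ : X → ZMod n, (∀ j, MeasurableSet {x | κ x = j}) →
    (∀ x, x ∈ M.arc (κ x)) → ∀ (N : ℕ) (E : Set X), MeasurableSet E →
      lam ((M.fmap κ)^[N] ⁻¹' E) ≤ C * lam E := by
  haveI : NeZero n := ⟨by have := M.hn; omega⟩
  haveI : IsFiniteMeasure lam := ⟨lt_of_le_of_ne le_top M.fin⟩
  have hc1 : ENNReal.ofReal (M.c0 ^ 2 / M.D0 ^ 2) ≠ 0 := by
    rw [Ne, ENNReal.ofReal_eq_zero, not_le]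
    exact M.bound_c1_pos
  refine ⟨∑ l : ZMod n, lam Set.univ / (ENNReal.ofReal (M.c0 ^ 2 / M.D0 ^ 2) * lam (M.G l)),
    ?_, ?_⟩
  · refine ENNReal.sum_ne_top.2 fun l _ => ?_
    exact ENNReal.div_ne_top M.fin (mul_ne_zero hc1 (M.G_pos l))
  intro κ hm hκ N E hE
  have hcov : (M.fmap κ)^[N] ⁻¹' E ⊆ ⋃ l : ZMod n, ⋃ w : List (ZMod n),
      M.boundX κ N E l w := by
    intro x hx
    obtain ⟨l, hl, -⟩ := M.exists_far x x
    exact Set.mem_iUnion.2 ⟨l, Set.mem_iUnion.2 ⟨M.itin κ N x, rfl, hl, hx⟩⟩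
  have hl : ∀ l : ZMod n, lam (⋃ w : List (ZMod n), M.boundX κ N E l w) ≤
      lam Set.univ / (ENNReal.ofReal (M.c0 ^ 2 / M.D0 ^ 2) * lam (M.G l)) * lam E := by
    intro l
    refine (measure_iUnion_le _).trans ?_
    rw [mul_comm, ← mul_div_assoc, ENNReal.le_div_iff_mul_le (Or.inl (mul_ne_zero hc1 (M.G_pos l)))
      (Or.inl (ENNReal.mul_ne_top ENNReal.ofReal_ne_top (measure_ne_top _ _))), mul_comm,
      ← ENNReal.tsum_mul_left]
    calc ∑' w : List (ZMod n), ENNReal.ofReal (M.c0 ^ 2 / M.D0 ^ 2) * lam (M.G l) *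
          lam (M.boundX κ N E l w)
        ≤ ∑' w : List (ZMod n), (lam.prod lam)
          ((M.run w '' M.G l) ×ˢ (M.run w '' M.boundX κ N E l w)) := by
          refine ENNReal.tsum_le_tsum fun w => ?_
          rw [Measure.prod_prod]
          exact M.bound_prod hκ N E l w
      _ = (lam.prod lam) (⋃ w : List (ZMod n),
          (M.run w '' M.G l) ×ˢ (M.run w '' M.boundX κ N E l w)) := by
          rw [measure_iUnion (M.bound_disj hκ N E l)]
          intro w
          exact (M.measurableSet_image_run w (M.measurableSet_G l)).prod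
            (M.measurableSet_image_run w (M.boundX_meas hm N hE l w))
      _ ≤ (lam.prod lam) (Set.univ ×ˢ E) := by
          refine measure_mono (Set.iUnion_subset fun w => Set.prod_mono (Set.subset_univ _) ?_)
          rintro _ ⟨x, hx, rfl⟩
          rw [← hx.1, M.run_itin]
          exact hx.2.2
      _ = lam E * lam Set.univ := by
          rw [Measure.prod_prod, mul_comm]
  calc lam ((M.fmap κ)^[N] ⁻¹' E)
      ≤ lam (⋃ l : ZMod n, ⋃ w : List (ZMod n), M.boundX κ N E l w) := measure_mono hcov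
    _ ≤ ∑ l : ZMod n, lam (⋃ w : List (ZMod n), M.boundX κ N E l w) :=
        measure_iUnion_fintype_le _ _
    _ ≤ ∑ l : ZMod n,
        lam Set.univ / (ENNReal.ofReal (M.c0 ^ 2 / M.D0 ^ 2) * lam (M.G l)) * lam E :=
        Finset.sum_le_sum fun l _ => hl l
    _ = _ := by rw [Finset.sum_mul]

end MCore
end Pool.H71.BS
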