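import Pool.Agent.H71.BS.Defs

/-!
# COMB: arithmetic of the side pairing
-/

namespace Pool.H71.BS

theorem two_dvd_sides (g : ℕ) : 2 ∣ sides g := by unfold sides; omega

/-- parity of a residue -/
noncomputable def par (g : ℕ) : ZMod (sides g) →+* ZMod 2 := ZMod.castHom (two_dvd_sides g) (ZMod 2)

theorem odd_iff_par {g : ℕ} (hg : 2 ≤ g) (k : ZMod (sides g)) : Odd k.val ↔ par g k = 1 := by
  have : NeZero (sides g) := ⟨by unfold sides; omega⟩
  rw [← ZMod.natCast_eq_one_iff_odd]
  unfold par
  rw [ZMod.castHom_apply, ZMod.cast_eq_val]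

theorem par_cases (x : ZMod 2) : x = 0 ∨ x = 1 := by revert x; decide

theorem sig_odd {g : ℕ} (hg : 2 ≤ g) {k : ZMod (sides g)} (h : par g k = 1) :
    sig g k = ((4 * g : ℕ) : ZMod (sides g)) - k := by
  unfold sig; rw [if_pos ((odd_iff_par hg k).2 h)]

theorem sig_even {g : ℕ} (hg : 2 ≤ g) {k : ZMod (sides g)} (h : par g k = 0) :
    sig g k = 2 - k := by
  unfold sig; rw [if_neg]
  rw [odd_iff_par hg k, h]; decide

theorem par_four (g : ℕ) : par g ((4 * g : ℕ) : ZMod (sides g)) = 0 := by
  rw [map_natCast]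
  rw [ZMod.natCast_eq_zero_iff]; omega

theorem par_two (g : ℕ) : par g 2 = 0 := by
  rw [map_ofNat]; decide

theorem four_eq {g : ℕ} (hg : 2 ≤ g) : ((4 * g : ℕ) : ZMod (sides g)) = 2 - ((4 * g : ℕ) : ZMod (sides g)) + 2 := by
  have h : ((8 * g - 4 + 4 : ℕ) : ZMod (sides g)) = 4 := by
    rw [Nat.cast_add, ZMod.natCast_self]; norm_num
  have h2 : ((8 * g - 4 + 4 : ℕ) : ZMod (sides g)) =
      ((4 * g : ℕ) : ZMod (sides g)) + ((4 * g : ℕ) : ZMod (sides g)) := by
    rw [← Nat.cast_add]; congr 1; omega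
  rw [h2] at h
  linear_combination h

theorem sig_sig {g : ℕ} (hg : 2 ≤ g) (k : ZMod (sides g)) : sig g (sig g k) = k := by
  rcases par_cases (par g k) with h | h
  · rw [sig_even hg h, sig_even hg (by rw [map_sub, h, par_two]; decide)]; ring
  · rw [sig_odd hg h, sig_odd hg (by rw [map_sub, h, par_four]; decide)]; ring

/-- the vertex relation -/
theorem sig_vert {g : ℕ} (hg : 2 ≤ g) (k : ZMod (sides g)) :
    sig g (sig g (k - 1) - 1) = sig g (sig g k + 1) + 1 := by
  rcases par_cases (par g k) with h | h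
  · rw [sig_even hg h, sig_odd hg (by rw [map_sub, h, map_one]; decide : par g (k - 1) = 1),
      sig_even hg (by simp only [map_sub, h, map_one, par_four]; decide),
      sig_odd hg (by simp only [map_sub, map_add, h, map_one, par_two]; decide)]
    linear_combination -(four_eq hg)
  · rw [sig_odd hg h, sig_even hg (by rw [map_sub, h, map_one]; decide : par g (k - 1) = 0),
      sig_odd hg (by simp only [map_sub, h, map_one, par_two]; decide),
      sig_even hg (by simp only [map_sub, map_add, h, map_one, par_four]; decide)]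
    linear_combination (four_eq hg)

end Pool.H71.BS
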