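import Mathlib

/-!
# Generalized Bowen–Series maps: the combinatorial core

`X` is the circle, `arc k` is the half open arc `[P_k, Q_{k+1})`, `T k` are the side pairings.
-/

namespace Pool.H71.BS

structure Core (n : ℕ) (X : Type*) where
  hn : 12 ≤ n
  σ : ZMod n → ZMod n
  arc : ZMod n → Set X
  T : ZMod n → X ≃ X
  σσ : ∀ k, σ (σ k) = k
  T_symm : ∀ k, T (σ k) = (T k).symm
  r0 : ∀ k x, T k x ∈ arc (σ k) ↔ x ∉ arc k
  rp : ∀ k x, T k x ∈ arc (σ k + 1) ↔ x ∈ arc (k - 1)
  rm : ∀ k x, T k x ∈ arc (σ k - 1) ↔ x ∈ arc (k + 1)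
  vert : ∀ k x, T (σ k + 1) (T k x) = T (σ (k - 1) - 1) (T (k - 1) x)
  cov : ∀ x, ∃ k, x ∈ arc k
  adj : ∀ x j k, x ∈ arc j → x ∈ arc k → j = k ∨ j = k + 1 ∨ j = k - 1
  two : ∀ x k, ¬ (x ∈ arc (k - 1) ∧ x ∈ arc (k + 1))

namespace Core

variable {n : ℕ} {X : Type*} (C : Core n X)

/-- apply the letters of the word from left to right -/
def run : List (ZMod n) → X → X
  | [], x => x
  | k :: w, x => run w (C.T k x)

@[simp] theorem run_nil (x : X) : C.run [] x = x := rfl
@[simp] theorem run_cons (k : ZMod n) (w : List (ZMod n)) (x : X) :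
    C.run (k :: w) x = C.run w (C.T k x) := rfl

theorem run_append (w v : List (ZMod n)) (x : X) : C.run (w ++ v) x = C.run v (C.run w x) := by
  induction w generalizing x with
  | nil => rfl
  | cons k w ih => simp [ih]

/-- the word is a legal path for `x` -/
def Valid : List (ZMod n) → X → Prop
  | [], _ => True
  | k :: w, x => x ∈ C.arc k ∧ Valid w (C.T k x)

@[simp] theorem valid_nil (x : X) : C.Valid [] x := trivial
@[simp] theorem valid_cons (k : ZMod n) (w : List (ZMod n)) (x : X) :
    C.Valid (k :: w) x ↔ x ∈ C.arc k ∧ C.Valid w (C.T k x) := Iff.rfl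

theorem valid_append (w v : List (ZMod n)) (x : X) :
    C.Valid (w ++ v) x ↔ C.Valid w x ∧ C.Valid v (C.run w x) := by
  induction w generalizing x with
  | nil => simp
  | cons k w ih => simp [ih, and_assoc]

/-- no arc contains both points -/
def Perp (u x : X) : Prop := ∀ k, ¬ (u ∈ C.arc k ∧ x ∈ C.arc k)

theorem Perp.symm {C : Core n X} {u x : X} (h : C.Perp u x) : C.Perp x u :=
  fun k hk => h k ⟨hk.2, hk.1⟩

/-- `j` is at distance at least two from all arcs containing `u` -/
def Far (j : ZMod n) (u : X) : Prop := ∀ b, u ∈ C.arc b → j ≠ b ∧ j ≠ b + 1 ∧ j ≠ b - 1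

/-- the points which lie in `arc j` only -/
def G (j : ZMod n) : Set X := {x | x ∈ C.arc j ∧ ∀ k, x ∈ C.arc k → k = j}

theorem perp_step {u x : X} {k : ZMod n} (h : C.Perp u x) (hx : x ∈ C.arc k) :
    C.Perp (C.T k u) (C.T k x) := by
  intro j ⟨h1, h2⟩
  have hu : u ∉ C.arc k := fun hu => h k ⟨hu, hx⟩
  have h3 : C.T k u ∈ C.arc (C.σ k) := (C.r0 k u).2 hu
  have h4 : C.T k x ∉ C.arc (C.σ k) := fun h' => (C.r0 k x).1 h' hx
  rcases C.adj _ _ _ h1 h3 with rfl | rfl | rfl
  · exact h4 h2
  · exact h (k - 1) ⟨(C.rp k u).1 h1, (C.rp k x).1 h2⟩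
  · exact h (k + 1) ⟨(C.rm k u).1 h1, (C.rm k x).1 h2⟩

theorem perp_run {u x : X} {w : List (ZMod n)} (h : C.Perp u x) (hw : C.Valid w x) :
    C.Perp (C.run w u) (C.run w x) := by
  induction w generalizing u x with
  | nil => exact h
  | cons k w ih => exact ih (C.perp_step h hw.1) hw.2

theorem eq_add_one_of {k j : ZMod n} (h : j = k - 1) : k = j + 1 := by rw [h]; ring

/-- one step of the exchange -/
theorem exchange {w : List (ZMod n)} {y u : X} {j k : ZMod n} (hw : w ≠ []) (hv : C.Valid w y)
    (hp : C.Perp u y) (hj : C.run w y ∈ C.G j) (hf : C.Far j (C.run w u)) (hk : y ∈ C.arc k) :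
    ∃ w', (k :: w').length = w.length ∧ C.Valid (k :: w') y ∧
      ∀ x, C.run (k :: w') x = C.run w x := by
  induction w generalizing y u k with
  | nil => exact absurd rfl hw
  | cons a w ih =>
    obtain ⟨ha, hv'⟩ := hv
    have hua : u ∉ C.arc a := fun h => hp a ⟨h, ha⟩
    have hσ : C.T a u ∈ C.arc (C.σ a) := (C.r0 a u).2 hua
    have hp' := C.perp_step hp ha
    rcases C.adj _ _ _ hk ha with rfl | hka | hka
    · exact ⟨w, rfl, ⟨ha, hv'⟩, fun _ => rfl⟩
    · -- k = a + 1
      have h1 : C.T a y ∈ C.arc (C.σ a - 1) := (C.rm a y).2 (by rw [← hka]; exact hk)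
      cases w with
      | nil =>
        exfalso
        have := hj.2 _ h1
        exact (hf _ hσ).2.2 this.symm
      | cons b v =>
        obtain ⟨w', hl, hw', hr⟩ := ih (by simp) hv' hp' hj hf h1
        have hvx : ∀ x, C.T (C.σ k + 1) (C.T k x) = C.T (C.σ a - 1) (C.T a x) := by
          intro x
          have := C.vert k x
          rw [hka, add_sub_cancel_right] at this
          rw [hka]; exact this
        refine ⟨(C.σ k + 1) :: w', ?_, ?_, ?_⟩
        · simp only [List.length_cons] at hl ⊢; omega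
        · refine ⟨hk, ?_, ?_⟩
          · rw [C.rp k y, hka, add_sub_cancel_right]; exact ha
          · rw [hvx]; exact hw'.2
        · intro x
          have := hr (C.T a x)
          simp only [run_cons] at this ⊢
          rw [hvx]; exact this
    · -- k = a - 1
      have h1 : C.T a y ∈ C.arc (C.σ a + 1) := (C.rp a y).2 (by rw [← hka]; exact hk)
      cases w with
      | nil =>
        exfalso
        have := hj.2 _ h1
        exact (hf _ hσ).2.1 this.symm
      | cons b v =>
        obtain ⟨w', hl, hw', hr⟩ := ih (by simp) hv' hp' hj hf h1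
        have hvx : ∀ x, C.T (C.σ k - 1) (C.T k x) = C.T (C.σ a + 1) (C.T a x) := by
          intro x
          have := C.vert a x
          rw [← hka] at this
          exact this.symm
        refine ⟨(C.σ k - 1) :: w', ?_, ?_, ?_⟩
        · simp only [List.length_cons] at hl ⊢; omega
        · refine ⟨hk, ?_, ?_⟩
          · rw [C.rm k y, hka, sub_add_cancel]; exact ha
          · rw [hvx]; exact hw'.2
        · intro x
          have := hr (C.T a x)
          simp only [run_cons] at this ⊢
          rw [hvx]; exact this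

/-- the itinerary of `x` under the selection rule `κ` -/
def itin (κ : X → ZMod n) : ℕ → X → List (ZMod n)
  | 0, _ => []
  | N + 1, x => κ x :: itin κ N (C.T (κ x) x)

/-- the map given by the selection rule -/
def fmap (κ : X → ZMod n) (x : X) : X := C.T (κ x) x

@[simp] theorem itin_length (κ : X → ZMod n) (N : ℕ) (x : X) : (C.itin κ N x).length = N := by
  induction N generalizing x with
  | zero => rfl
  | succ N ih => simp [itin, ih]

theorem valid_itin {κ : X → ZMod n} (hκ : ∀ x, x ∈ C.arc (κ x)) (N : ℕ) (x : X) :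
    C.Valid (C.itin κ N x) x := by
  induction N generalizing x with
  | zero => trivial
  | succ N ih => exact ⟨hκ x, ih _⟩

theorem run_itin (κ : X → ZMod n) (N : ℕ) (x : X) :
    C.run (C.itin κ N x) x = (C.fmap κ)^[N] x := by
  induction N generalizing x with
  | zero => rfl
  | succ N ih => simp [itin, ih, fmap]

/-- confluence -/
theorem confluence {κ : X → ZMod n} (hκ : ∀ x, x ∈ C.arc (κ x)) {w : List (ZMod n)} {y u : X}
    {j : ZMod n} (hv : C.Valid w y) (hp : C.Perp u y) (hj : C.run w y ∈ C.G j)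
    (hf : C.Far j (C.run w u)) (x : X) : C.run (C.itin κ w.length y) x = C.run w x := by
  induction hN : w.length generalizing w y u x with
  | zero =>
    have : w = [] := List.length_eq_zero_iff.1 hN
    subst this; rfl
  | succ N ih =>
    have hne : w ≠ [] := by rintro rfl; simp at hN
    obtain ⟨w', hl, hw', hr⟩ := C.exchange hne hv hp hj hf (hκ y)
    have hl' : w'.length = N := by simp only [List.length_cons] at hl; omega
    have h1 : C.run w' (C.T (κ y) y) ∈ C.G j := by
      have := hr y; rw [run_cons] at this; rw [this]; exact hj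
    have h2 : C.Far j (C.run w' (C.T (κ y) u)) := by
      have := hr u; rw [run_cons] at this; rw [this]; exact hf
    have := ih hw'.2 (C.perp_step hp (hκ y)) h1 h2 (C.T (κ y) x) hl'
    simp only [itin, run_cons]
    rw [this, ← hr x, run_cons]

theorem confluence' {κ : X → ZMod n} (hκ : ∀ x, x ∈ C.arc (κ x)) {w : List (ZMod n)} {y u : X}
    {j : ZMod n} (hv : C.Valid w y) (hp : C.Perp u y) (hj : C.run w y ∈ C.G j)
    (hf : C.Far j (C.run w u)) : (C.fmap κ)^[w.length] y = C.run w y := by
  rw [← C.run_itin, C.confluence hκ hv hp hj hf]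

/-- backward validity -/
theorem backward {w : List (ZMod n)} {x u y : X} (hv : C.Valid w x) (hp : C.Perp u x)
    (hy : C.Perp (C.run w u) (C.run w y)) : C.Valid w y ∧ C.Perp u y := by
  induction w generalizing x u y with
  | nil => exact ⟨trivial, hy⟩
  | cons k w ih =>
    obtain ⟨h1, h2⟩ := ih hv.2 (C.perp_step hp hv.1) hy
    have hu : u ∉ C.arc k := fun h => hp k ⟨h, hv.1⟩
    have h3 : C.T k u ∈ C.arc (C.σ k) := (C.r0 k u).2 hu
    have h4 : C.T k y ∉ C.arc (C.σ k) := fun h => h2 _ ⟨h3, h⟩
    have h5 : y ∈ C.arc k := by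
      by_contra h; exact h4 ((C.r0 k y).2 h)
    refine ⟨⟨h5, h1⟩, ?_⟩
    intro b ⟨hb1, hb2⟩
    rcases C.adj _ _ _ hb2 h5 with rfl | rfl | rfl
    · exact hu hb1
    · exact h2 _ ⟨(C.rm k u).2 hb1, (C.rm k y).2 hb2⟩
    · exact h2 _ ⟨(C.rp k u).2 hb1, (C.rp k y).2 hb2⟩

/-- the inverse word -/
def inv (w : List (ZMod n)) : List (ZMod n) := (w.map C.σ).reverse

@[simp] theorem inv_length (w : List (ZMod n)) : (C.inv w).length = w.length := by simp [inv]

theorem inv_cons (k : ZMod n) (w : List (ZMod n)) : C.inv (k :: w) = C.inv w ++ [C.σ k] := by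
  simp [inv]

theorem run_inv (w : List (ZMod n)) (x : X) : C.run (C.inv w) (C.run w x) = x := by
  induction w generalizing x with
  | nil => rfl
  | cons k w ih =>
    have h1 : C.run (k :: w) x = C.run w (C.T k x) := rfl
    rw [inv_cons, run_append, h1, ih]
    show C.T (C.σ k) (C.T k x) = x
    rw [C.T_symm]; simp

theorem run_inv' (w : List (ZMod n)) (x : X) : C.run w (C.run (C.inv w) x) = x := by
  induction w generalizing x with
  | nil => rfl
  | cons k w ih =>
    rw [inv_cons, run_append, run_cons, run_cons, run_nil, C.T_symm, Equiv.apply_symm_apply, ih]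

theorem run_bijective (w : List (ZMod n)) : Function.Bijective (C.run w) :=
  ⟨Function.LeftInverse.injective (C.run_inv w), Function.RightInverse.surjective (C.run_inv' w)⟩

/-- the inverse word is legal for every point which is perpendicular to the moving point -/
theorem valid_inv {w : List (ZMod n)} {x a : X} (hv : C.Valid w x) (hp : C.Perp a x) :
    C.Valid (C.inv w) (C.run w a) := by
  induction w generalizing x a with
  | nil => trivial
  | cons k w ih =>
    rw [inv_cons, valid_append]
    refine ⟨ih hv.2 (C.perp_step hp hv.1), ?_, trivial⟩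
    rw [run_cons, C.run_inv]
    exact (C.r0 k a).2 (fun h => hp k ⟨h, hv.1⟩)

theorem arcs_subset (u : X) : ∃ b, ∀ k, u ∈ C.arc k → k = b ∨ k = b + 1 := by
  obtain ⟨b, hb⟩ := C.cov u
  by_cases h : u ∈ C.arc (b - 1)
  · refine ⟨b - 1, fun k hk => ?_⟩
    rcases C.adj _ _ _ hk hb with rfl | rfl | rfl
    · right; ring
    · exact absurd ⟨h, hk⟩ (C.two u b)
    · left; rfl
  · refine ⟨b, fun k hk => ?_⟩
    rcases C.adj _ _ _ hk hb with rfl | rfl | rfl
    · left; rfl
    · right; rfl
    · exact absurd hk h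

theorem far_of {u : X} {b : ZMod n} (hb : ∀ k, u ∈ C.arc k → k = b ∨ k = b + 1) {j : ZMod n}
    (h1 : j ≠ b - 1) (h2 : j ≠ b) (h3 : j ≠ b + 1) (h4 : j ≠ b + 2) : C.Far j u := by
  intro k hk
  rcases hb k hk with rfl | rfl
  · exact ⟨h2, h3, h1⟩
  · refine ⟨h3, ?_, ?_⟩
    · intro h; exact h4 (by rw [h]; ring)
    · intro h; exact h2 (by rw [h]; ring)

include C in
/-- there is an index avoiding any eleven given ones -/
theorem exists_avoid (s : Finset (ZMod n)) (hs : s.card ≤ 11) : ∃ j, j ∉ s := by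
  have hn := C.hn
  haveI : NeZero n := ⟨by omega⟩
  by_contra h
  push Not at h
  have : s = Finset.univ := by
    ext j; simp [h j]
  rw [this, Finset.card_univ, ZMod.card] at hs
  omega

/-- an index far from `u` and outside the arcs of `x` -/
theorem exists_far (u x : X) : ∃ j, C.Far j u ∧ x ∉ C.arc j := by
  obtain ⟨b, hb⟩ := C.arcs_subset u
  obtain ⟨c, hc⟩ := C.arcs_subset x
  obtain ⟨j, hj⟩ := C.exists_avoid {b - 1, b, b + 1, b + 2, c, c + 1}
    ((Finset.card_le_six).trans (by norm_num))
  simp only [Finset.mem_insert, Finset.mem_singleton, not_or] at hj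
  refine ⟨j, C.far_of hb hj.1 hj.2.1 hj.2.2.1 hj.2.2.2.1, fun h => ?_⟩
  rcases hc j h with h | h
  · exact hj.2.2.2.2.1 h
  · exact hj.2.2.2.2.2 h

theorem perp_of_far {u z : X} {j : ZMod n} (hz : z ∈ C.G j) (hf : C.Far j u) : C.Perp u z := by
  intro k ⟨h1, h2⟩
  exact (hf k h1).1 (hz.2 k h2).symm

/-- if `i` is far from the arcs of `z` (shifted), then `z` is the image of a point of `G i` -/
theorem G_image {z : X} {i : ZMod n} (hf : C.Far (C.σ i) z) :
    (C.T i).symm z ∈ C.G i := by
  set y := (C.T i).symm z with hy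
  have hz : C.T i y = z := by rw [hy]; simp
  have h0 : z ∉ C.arc (C.σ i) := fun h => (hf _ h).1 rfl
  have h1 : y ∈ C.arc i := by
    by_contra h
    exact h0 (by rw [← hz]; exact (C.r0 i y).2 h)
  refine ⟨h1, fun k hk => ?_⟩
  rcases C.adj _ _ _ hk h1 with rfl | rfl | rfl
  · rfl
  · exfalso
    have : z ∈ C.arc (C.σ i - 1) := by rw [← hz]; exact (C.rm i y).2 hk
    exact (hf _ this).2.1 (by ring)
  · exfalso
    have : z ∈ C.arc (C.σ i + 1) := by rw [← hz]; exact (C.rp i y).2 hk
    exact (hf _ this).2.2 (by ring)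

end Core
end Pool.H71.BS
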