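import Pool.Agent.H71.BS.Dir

/-!
# COVER: the arcs `[P_k, Q_{k+1})` and their combinatorics
-/

open scoped ComplexConjugate
open MeasureTheory

namespace Pool.H71.BS

noncomputable section

namespace CanonicalPolygon

variable {g : ℕ} (F : CanonicalPolygon g)

/-- the half open arc `[P_k, Q_{k+1})` -/
def arc (k : ZMod (sides g)) : Set Circle :=
  {x | ∃ j : ℤ, (j : ZMod (sides g)) = k ∧ x ∈ arcIco (F.p j) (F.q (j + 1))}

theorem p_add_mul (k m : ℤ) : F.p (k + m * sides g) = F.p k + m * (2 * Real.pi) := by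
  induction m using Int.induction_on with
  | zero => simp
  | succ i ih =>
    have h1 := F.p_add (k + i * sides g)
    have h2 : k + ((i : ℤ) + 1) * sides g = k + i * sides g + sides g := by ring
    rw [h2, h1, ih]
    push_cast
    ring
  | pred i ih =>
    have h1 := F.p_add (k + (-(i : ℤ) - 1) * sides g)
    have h2 : k + (-(i : ℤ) - 1) * sides g + sides g = k + -(i : ℤ) * sides g := by ring
    rw [h2, ih] at h1
    push_cast at h1 ⊢
    linarith

theorem q_add_mul (k m : ℤ) : F.q (k + m * sides g) = F.q k + m * (2 * Real.pi) := by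
  induction m using Int.induction_on with
  | zero => simp
  | succ i ih =>
    have h1 := F.q_add (k + i * sides g)
    have h2 : k + ((i : ℤ) + 1) * sides g = k + i * sides g + sides g := by ring
    rw [h2, h1, ih]
    push_cast
    ring
  | pred i ih =>
    have h1 := F.q_add (k + (-(i : ℤ) - 1) * sides g)
    have h2 : k + (-(i : ℤ) - 1) * sides g + sides g = k + -(i : ℤ) * sides g := by ring
    rw [h2, ih] at h1
    push_cast at h1 ⊢
    linarith

theorem cov_exists_lift {k j : ℤ} (h : (k : ZMod (sides g)) = j) : ∃ m : ℤ, j = k + m * sides g := by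
  have h1 : ((sides g : ℕ) : ℤ) ∣ j - k := (ZMod.intCast_eq_intCast_iff_dvd_sub k j (sides g)).1 h
  obtain ⟨m, hm⟩ := h1
  exact ⟨m, by linarith [mul_comm m (sides g : ℤ)]⟩

theorem cov_exp_add_int (t : ℝ) (m : ℤ) : Circle.exp (t + m * (2 * Real.pi)) = Circle.exp t :=
  Circle.periodic_exp.int_mul m t

theorem P_congr {k j : ℤ} (h : (k : ZMod (sides g)) = j) : F.P k = F.P j := by
  obtain ⟨m, rfl⟩ := cov_exists_lift h
  rw [P, P, p_add_mul, cov_exp_add_int]

theorem Q_congr {k j : ℤ} (h : (k : ZMod (sides g)) = j) : F.Q k = F.Q j := by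
  obtain ⟨m, rfl⟩ := cov_exists_lift h
  rw [Q, Q, q_add_mul, cov_exp_add_int]

theorem p_mono : StrictMono F.p :=
  strictMono_int_of_lt_succ (fun k => (F.p_lt_q k).trans (F.q_lt_p k))

theorem q_mono : StrictMono F.q :=
  strictMono_int_of_lt_succ (fun k => (F.q_lt_p k).trans (F.p_lt_q (k + 1)))

theorem q_lt_p' {k j : ℤ} (h : k < j) : F.q k < F.p j :=
  (F.q_lt_p k).trans_le (F.p_mono.monotone (by omega))

/-- e.g. `q (k+2) < p (k-1) + 2π` (needs `n ≥ 12`) -/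
theorem q_lt_p_add (hg : 2 ≤ g) {k j : ℤ} (h : k < j + sides g) :
    F.q k < F.p j + 2 * Real.pi := by
  rw [← F.p_add]
  exact F.q_lt_p' h

theorem arc_eq (hg : 2 ≤ g) (j : ℤ) : F.arc j = arcIco (F.p j) (F.q (j + 1)) := by
  ext x
  constructor
  · rintro ⟨i, hi, hx⟩
    obtain ⟨m, rfl⟩ := cov_exists_lift hi.symm
    have e : j + m * sides g + 1 = (j + 1) + m * sides g := by ring
    rw [e, p_add_mul, q_add_mul, arcIco_shift] at hx
    exact hx
  · intro hx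
    exact ⟨j, rfl, hx⟩

theorem exists_p_le (θ : ℝ) : ∃ k : ℤ, F.p k ≤ θ ∧ θ < F.p (k + 1) := by
  have hpi : 0 < 2 * Real.pi := Real.two_pi_pos
  have hbd : ∃ b : ℤ, ∀ z : ℤ, F.p z ≤ θ → z ≤ b := by
    obtain ⟨m, hm⟩ := exists_int_gt ((θ - F.p 0) / (2 * Real.pi))
    refine ⟨0 + m * sides g, fun z hz => ?_⟩
    have h1 : θ < F.p (0 + m * sides g) := by
      rw [F.p_add_mul]
      rw [div_lt_iff₀ hpi] at hm
      linarith
    exact (F.p_mono.lt_iff_lt.1 (hz.trans_lt h1)).le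
  have hne : ∃ z : ℤ, F.p z ≤ θ := by
    obtain ⟨m, hm⟩ := exists_int_lt ((θ - F.p 0) / (2 * Real.pi))
    refine ⟨0 + m * sides g, ?_⟩
    rw [F.p_add_mul]
    rw [lt_div_iff₀ hpi] at hm
    linarith
  obtain ⟨k, hk, hk'⟩ := Int.exists_greatest_of_bdd hbd hne
  refine ⟨k, hk, ?_⟩
  by_contra h
  have := hk' (k + 1) (not_lt.1 h)
  omega

theorem cov_exists_exp (x : Circle) : ∃ θ : ℝ, x = Circle.exp θ :=
  ⟨Complex.arg x, (Circle.exp_arg x).symm⟩

theorem mem_arc_of {j : ℤ} {θ : ℝ} (h1 : F.p j ≤ θ) (h2 : θ < F.q (j + 1)) :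
    Circle.exp θ ∈ F.arc j :=
  ⟨j, rfl, θ, ⟨h1, h2⟩, rfl⟩

theorem exists_of_mem_arc {k : ZMod (sides g)} {θ : ℝ} (h : Circle.exp θ ∈ F.arc k) :
    ∃ j : ℤ, (j : ZMod (sides g)) = k ∧ F.p j ≤ θ ∧ θ < F.q (j + 1) := by
  obtain ⟨j, hj, t, ⟨ht1, ht2⟩, ht⟩ := h
  obtain ⟨m, hm⟩ := Circle.exp_eq_exp.1 ht
  refine ⟨j + (-m) * sides g, ?_, ?_, ?_⟩
  · push_cast
    rw [hj]
    simp
  · rw [p_add_mul]
    push_cast
    linarith
  · have e : j + (-m) * sides g + 1 = (j + 1) + (-m) * sides g := by ring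
    rw [e, q_add_mul]
    push_cast
    linarith

theorem cov (hg : 2 ≤ g) (x : Circle) : ∃ k, x ∈ F.arc k := by
  obtain ⟨θ, rfl⟩ := cov_exists_exp x
  obtain ⟨k, h1, h2⟩ := F.exists_p_le θ
  exact ⟨k, F.mem_arc_of h1 (h2.trans (F.p_lt_q _))⟩

/-- two arcs through a common point have lifts at distance at most one -/
theorem adj_int {x : Circle} {j k : ZMod (sides g)} (hj : x ∈ F.arc j) (hk : x ∈ F.arc k) :
    ∃ a b : ℤ, (a : ZMod (sides g)) = j ∧ (b : ZMod (sides g)) = k ∧ a ≤ b + 1 ∧ b ≤ a + 1 := by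
  obtain ⟨θ, rfl⟩ := cov_exists_exp x
  obtain ⟨a, ha, ha1, ha2⟩ := F.exists_of_mem_arc hj
  obtain ⟨b, hb, hb1, hb2⟩ := F.exists_of_mem_arc hk
  refine ⟨a, b, ha, hb, ?_, ?_⟩
  · by_contra h
    have := F.q_lt_p' (show b + 1 < a by omega)
    linarith
  · by_contra h
    have := F.q_lt_p' (show a + 1 < b by omega)
    linarith

theorem adj (hg : 2 ≤ g) (x : Circle) (j k : ZMod (sides g)) (hj : x ∈ F.arc j)
    (hk : x ∈ F.arc k) : j = k ∨ j = k + 1 ∨ j = k - 1 := by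
  obtain ⟨a, b, rfl, rfl, h1, h2⟩ := F.adj_int hj hk
  have h3 : a = b ∨ a = b + 1 ∨ a = b - 1 := by omega
  rcases h3 with rfl | rfl | rfl
  · exact Or.inl rfl
  · right; left; push_cast; ring
  · right; right; push_cast; ring

theorem two (hg : 2 ≤ g) (x : Circle) (k : ZMod (sides g)) :
    ¬ (x ∈ F.arc (k - 1) ∧ x ∈ F.arc (k + 1)) := by
  rintro ⟨h1, h2⟩
  obtain ⟨a, b, ha, hb, h3, h4⟩ := F.adj_int h1 h2
  have h5 : ((a : ℤ) : ZMod (sides g)) = ((b - 2 : ℤ) : ZMod (sides g)) := by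
    push_cast
    rw [ha, hb]
    ring
  have h6 : ((sides g : ℕ) : ℤ) ∣ (b - 2) - a :=
    (ZMod.intCast_eq_intCast_iff_dvd_sub a (b - 2) (sides g)).1 h5
  have h7 : (12 : ℤ) ≤ ((sides g : ℕ) : ℤ) := by
    have : 12 ≤ sides g := by simp only [sides]; omega
    exact_mod_cast this
  obtain ⟨c, hc⟩ := h6
  have h8 : c < 0 := by
    by_contra h
    have : 0 ≤ ((sides g : ℕ) : ℤ) * c := mul_nonneg (by omega) (by omega)
    omega
  nlinarith

theorem cov_exists_int_eq (k : ZMod (sides g)) : ∃ j : ℤ, (j : ZMod (sides g)) = k :=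
  ZMod.intCast_surjective k

theorem measurableSet_arc (hg : 2 ≤ g) (k : ZMod (sides g)) : MeasurableSet (F.arc k) := by
  obtain ⟨j, rfl⟩ := cov_exists_int_eq k
  have : 12 ≤ sides g := by simp only [sides]; omega
  rw [F.arc_eq hg]
  exact measurableSet_arcIco (F.q_lt_p_add hg (by omega))

/-- Lebesgue number of the open cover by the open arcs `(P_k, Q_{k+1})`
(`lebesgue_number_lemma_of_metric`) -/
theorem lebesgue (hg : 2 ≤ g) : ∃ c : ℝ, 0 < c ∧ ∀ u x : Circle,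
    (∀ k, ¬ (u ∈ F.arc k ∧ x ∈ F.arc k)) → c ≤ dist u x := by
  have hn : 12 ≤ sides g := by simp only [sides]; omega
  obtain ⟨δ, hδ, h⟩ := lebesgue_number_lemma_of_metric (s := (Set.univ : Set Circle))
    (c := fun k : ℤ => Circle.exp '' Set.Ioo (F.p k) (F.q (k + 1))) isCompact_univ
    (fun k => isOpen_arcIoo (F.q_lt_p_add hg (by omega)))
    (by
      intro x _
      obtain ⟨θ, rfl⟩ := cov_exists_exp x
      obtain ⟨k, h1, h2⟩ := F.exists_p_le θ
      rw [Set.mem_iUnion]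
      rcases h1.eq_or_lt with h1 | h1
      · refine ⟨k - 1, θ, ⟨?_, ?_⟩, rfl⟩
        · rw [← h1]
          exact F.p_mono (by omega)
        · rw [← h1, sub_add_cancel]
          exact F.p_lt_q k
      · exact ⟨k, θ, ⟨h1, h2.trans (F.p_lt_q _)⟩, rfl⟩)
  refine ⟨δ, hδ, fun u x hux => ?_⟩
  by_contra hlt
  rw [not_le] at hlt
  obtain ⟨k, hk⟩ := h u (Set.mem_univ _)
  have hmem : ∀ y ∈ Circle.exp '' Set.Ioo (F.p k) (F.q (k + 1)), y ∈ F.arc k := by
    rintro _ ⟨θ, ⟨h1, h2⟩, rfl⟩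
    exact F.mem_arc_of h1.le h2
  refine hux k ⟨hmem _ (hk (Metric.mem_ball_self hδ)), hmem _ (hk ?_)⟩
  rw [Metric.mem_ball, dist_comm]
  exact hlt

/-- the points lying in `arc j` only contain a nonempty open set: `(Q_j, P_{j+1})` -/
theorem exists_open_G (hg : 2 ≤ g) (j : ZMod (sides g)) : ∃ U : Set Circle, IsOpen U ∧
    U.Nonempty ∧ ∀ x ∈ U, x ∈ F.arc j ∧ ∀ k, x ∈ F.arc k → k = j := by
  have hn : 12 ≤ sides g := by simp only [sides]; omega
  obtain ⟨i, rfl⟩ := cov_exists_int_eq j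
  refine ⟨Circle.exp '' Set.Ioo (F.q i) (F.p (i + 1)), isOpen_arcIoo ?_, ?_, ?_⟩
  · have h1 : F.p (i + 1) < F.p (i + sides g) := F.p_mono (by omega)
    rw [F.p_add] at h1
    linarith [F.p_lt_q i]
  · exact (Set.nonempty_Ioo.2 (F.q_lt_p i)).image _
  · rintro _ ⟨θ, ⟨h1, h2⟩, rfl⟩
    refine ⟨F.mem_arc_of ((F.p_lt_q i).le.trans h1.le) (h2.trans (F.p_lt_q _)), ?_⟩
    intro k hk
    obtain ⟨b, rfl, hb1, hb2⟩ := F.exists_of_mem_arc hk
    have h3 : b < i + 1 := F.p_mono.lt_iff_lt.1 (hb1.trans_lt h2)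
    have h4 : i < b + 1 := F.q_mono.lt_iff_lt.1 (h1.trans hb2)
    have : b = i := by omega
    rw [this]

end CanonicalPolygon

end

end Pool.H71.BS
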