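import Mathlib

/-!
# Canonical polygons and generalized Bowen–Series boundary maps (MP_4c61e7_an): definitions
-/

open scoped ComplexConjugate
open MeasureTheory

namespace Pool.H71.BS

noncomputable section

/-- The unit circle `Circle = {z : ℂ | ‖z‖ = 1}` carries its Borel σ-algebra. -/
instance instMeasurableSpaceCircle : MeasurableSpace Circle := borel Circle

instance instBorelSpaceCircle : BorelSpace Circle := ⟨rfl⟩

/-- Lebesgue measure (arc length, total mass `2π`) on the unit circle: the image of Lebesgue
measure on `(-π, π]` under `θ ↦ e^{iθ}`. -/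
def arcLength : Measure Circle :=
  (volume.restrict (Set.Ioc (-Real.pi) Real.pi)).map Circle.exp

/-- The orientation-preserving isometries of the unit disk `𝔻`: the Möbius maps
`z ↦ (α z + β) / (conj β z + conj α)` with `|α|² - |β|² = 1`. -/
@[ext] structure DiscIso where
  α : ℂ
  β : ℂ
  det : Complex.normSq α - Complex.normSq β = 1

/-- The Möbius map itself (on the closed unit disk). -/
def DiscIso.act (A : DiscIso) (z : ℂ) : ℂ := (A.α * z + A.β) / (conj A.β * z + conj A.α)

/-- The isometry `z ↦ (z - a) / (1 - conj a z)` of `𝔻` which moves the point `a` to the origin. -/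
def toOrigin (a z : ℂ) : ℂ := (z - a) / (1 - conj a * z)

/-- The end point on the unit circle of the hyperbolic ray which starts at the point `a` of the
disk and runs through the point `b` of the disk.  (Move `a` to the origin; there the ray becomes
the radius through `w = toOrigin a b`, which ends at `w / |w|`; then move back.) -/
def rayEnd (a b : ℂ) : ℂ :=
  (toOrigin a b / ‖toOrigin a b‖ + a) / (1 + conj a * (toOrigin a b / ‖toOrigin a b‖))

/-- The hyperbolic angle at `v` between the geodesic segments from `v` to `a` and from `v`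
to `b` (angles at the origin are Euclidean and isometries preserve angles). -/
def hypAngle (v a b : ℂ) : ℝ := InnerProductGeometry.angle (toOrigin v a) (toOrigin v b)

/-- The number `n = 8g - 4` of sides. -/
abbrev sides (g : ℕ) : ℕ := 8 * g - 4

/-- The side pairing rule: `σ(k) = 4g - k` for odd `k` and `σ(k) = 2 - k` for even `k`
(mod `8g - 4`). -/
def sig (g : ℕ) (k : ZMod (sides g)) : ZMod (sides g) :=
  if Odd k.val then ((4 * g : ℕ) : ZMod (sides g)) - k else 2 - k

/-- A canonical polygon of genus `g`, with its side pairings `T k` and the boundary points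
`P k = e^{i p k}`, `Q k = e^{i q k}`.

* `V k` are the vertices; side `k` joins `V k` and `V (k+1)`.
* `T k` is the orientation preserving isometry which maps side `k` onto side `σ(k)`
  (`V k ↦ V (σ k + 1)`, `V (k+1) ↦ V (σ k)`); in particular the two sides have equal length.
* the (interior) angles at `V k` and `V (σ k + 1)` sum to `π`.
* the oriented geodesic extending side `k` runs from `P k` (the end of the ray from `V (k+1)`
  through `V k`) to `Q (k+1)` (the end of the ray from `V k` through `V (k+1)`).
* the boundary points occur counterclockwise in the order `P 1, Q 1, P 2, Q 2, …, P n, Q n`;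
  this is expressed by choosing arguments `p k`, `q k` with
  `p k < q k < p (k+1)` for all integers `k`, and `p (k+n) = p k + 2π`, `q (k+n) = q k + 2π`. -/
structure CanonicalPolygon (g : ℕ) where
  V : ZMod (sides g) → ℂ
  norm_V : ∀ k, ‖V k‖ < 1
  V_ne : ∀ k, V k ≠ V (k + 1)
  T : ZMod (sides g) → DiscIso
  T_V : ∀ k, (T k).act (V k) = V (sig g k + 1)
  T_V' : ∀ k, (T k).act (V (k + 1)) = V (sig g k)
  angle_sum : ∀ k, hypAngle (V k) (V (k - 1)) (V (k + 1)) +
    hypAngle (V (sig g k + 1)) (V (sig g k)) (V (sig g k + 2)) = Real.pi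
  p : ℤ → ℝ
  q : ℤ → ℝ
  exp_p : ∀ k : ℤ, (Circle.exp (p k) : ℂ) = rayEnd (V ((k : ZMod (sides g)) + 1)) (V k)
  exp_q : ∀ k : ℤ, (Circle.exp (q k) : ℂ) = rayEnd (V ((k : ZMod (sides g)) - 1)) (V k)
  p_lt_q : ∀ k, p k < q k
  q_lt_p : ∀ k, q k < p (k + 1)
  p_add : ∀ k, p (k + sides g) = p k + 2 * Real.pi
  q_add : ∀ k, q (k + sides g) = q k + 2 * Real.pi

namespace CanonicalPolygon

variable {g : ℕ} (F : CanonicalPolygon g)

/-- A multi-parameter: points `A k = e^{i a k}` in the closed arcs `[P k, Q k]`. -/
def IsMultiParameter (a : ℤ → ℝ) : Prop :=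
  (∀ k, F.p k ≤ a k ∧ a k ≤ F.q k) ∧ ∀ k, a (k + sides g) = a k + 2 * Real.pi

/-- The boundary map `f_A`: `f(x) = T_k(x)` for `x ∈ [A_k, A_{k+1})`. -/
def IsBoundaryMap (a : ℤ → ℝ) (f : Circle → Circle) : Prop :=
  ∀ (k : ℤ) (θ : ℝ), a k ≤ θ → θ < a (k + 1) →
    (f (Circle.exp θ) : ℂ) = (F.T (k : ZMod (sides g))).act (Circle.exp θ)

end CanonicalPolygon

end

end Pool.H71.BS
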