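import Pool.Agent.H71.BS.MCore

/-!
# DENS: a forward invariant set of positive measure contains some `G j` up to a null set

Proof.  Doubling (`IsUnifLocDoublingMeasure lam`) follows from `ball_lower`, `ball_upper`; so
lam-a.e. point of `E0` is a density point; let `x` be one
(`IsUnifLocDoublingMeasure.ae_tendsto_measure_inter_div`).  Choose `j0` with `Far j0 x` and
`a ∈ G j0` (`G_nonempty`), so `Perp x a` (`perp_of_far`).  For `N` let `w = w_N = itin κ N x`,
`u = run w a`, `x_N = run w x`; `Perp u x_N` by `perp_run`.  Choose `j = j_N` with `Far j u` and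
`x_N ∉ arc j` (`exists_far`).  Let `K_N = run w ⁻¹' (G j)`.
(1) for `y ∈ K_N`: `Perp u (run w y)` (`perp_of_far`), so `Valid w y` and `Perp a y` (`backward`),
  and `f^N y = run w y ∈ G j` (`confluence'`).
(2) the `K_N` are pairwise disjoint: if `N < M` and `y ∈ K_N ∩ K_M` then `w_M` is valid for `y`,
  and `w_M = w_N ++ κ (x_N) :: …`, so `run w_N y ∈ arc (κ x_N)`, but `run w_N y ∈ G j_N`, so
  `κ x_N = j_N` and `x_N ∈ arc j_N`, contradiction.
(3) with `Λ = 1 / rhoW w a`, `c1 = c0²/D0²`: for `y ∈ K_N ∪ {x}`, `c1 Λ ≤ rhoW w y ≤ Λ / c1`.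
  So `lam (G j) ≤ (Λ/c1) lam K_N`, and by (2) `lam K_N → 0`, hence `Λ = Λ_N → ∞`
  (`lam (G j) ≥ g0 > 0` for all `j`).
(4) `dist x y ≤ D0/(c1 Λ) =: r_N` for `y ∈ K_N` (from `dist_run`), `r_N → 0`.
(5) `G j \ E0 ⊆ run w '' (K_N \ E0)` (as `f^N (E0) ⊆ E0` and (1)), so
  `lam (G j \ E0) ≤ (Λ/c1) lam (closedBall x r_N \ E0)
    = (Λ/c1) lam (closedBall x r_N) (1 - density) ≤ (CA D0/c1²) (1 - density) → 0`.
As there are finitely many `j`, some `j` occurs infinitely often and `lam (G j \ E0) = 0`.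
-/

open MeasureTheory
open scoped ENNReal NNReal

namespace Pool.H71.BS
namespace MCore

variable {n : ℕ} {X : Type*} [MetricSpace X] [MeasurableSpace X] [BorelSpace X]
  {lam : Measure X} (M : MCore n X lam)

omit [BorelSpace X] in
include M in
theorem dens_doubling : IsUnifLocDoublingMeasure lam := by
  have hcA : (M.cA : ℝ≥0∞) ≠ 0 := by exact_mod_cast M.cA_pos.ne'
  refine ⟨⟨2 * M.CA / M.cA, ?_⟩⟩
  filter_upwards [Ioc_mem_nhdsGT M.D0_pos] with ε hε x
  have h1 := M.ball_upper x (2 * ε) (by linarith [hε.1])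
  have h2 := M.ball_lower x ε hε.1 hε.2
  calc lam (Metric.closedBall x (2 * ε)) ≤ (M.CA : ℝ≥0∞) * ENNReal.ofReal (2 * ε) := h1
    _ = ((2 * M.CA / M.cA : ℝ≥0) : ℝ≥0∞) * ((M.cA : ℝ≥0∞) * ENNReal.ofReal ε) := by
        rw [ENNReal.ofReal_mul (by norm_num), ENNReal.coe_div M.cA_pos.ne', ENNReal.coe_mul,
          ← mul_assoc, ← mul_assoc, ENNReal.div_mul_cancel hcA ENNReal.coe_ne_top]
        simp only [ENNReal.ofReal_ofNat, ENNReal.coe_ofNat]
        ring
    _ ≤ _ := by gcongr

omit [BorelSpace X] in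
theorem dens_itin_add (κ : X → ZMod n) (N k : ℕ) (x : X) :
    M.itin κ (N + k) x = M.itin κ N x ++ M.itin κ k (M.run (M.itin κ N x) x) := by
  induction N generalizing x with
  | zero => simp [Core.itin]
  | succ N ih =>
    rw [show N + 1 + k = (N + k) + 1 by ring]
    simp only [Core.itin, List.cons_append, Core.run_cons, List.cons.injEq, true_and]
    exact ih _

theorem dens [SecondCountableTopology X] {κ : X → ZMod n}
    (hm : ∀ j, MeasurableSet {x | κ x = j}) (hκ : ∀ x, x ∈ M.arc (κ x)) {E : Set X}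
    (hE : MeasurableSet E) (hpos : lam E ≠ 0) (hf : ∀ y ∈ E, M.fmap κ y ∈ E) :
    ∃ j, lam (M.G j \ E) = 0 := by
  have : NeZero n := ⟨by have := M.hn; omega⟩
  have : IsUnifLocDoublingMeasure lam := M.dens_doubling
  have : IsFiniteMeasure lam := ⟨lt_top_iff_ne_top.2 M.fin⟩
  -- a density point
  have : (ae (lam.restrict E)).NeBot := by
    rw [ae_neBot]
    intro h0
    apply hpos
    have := congrArg (fun μ => μ Set.univ) h0
    simpa using this
  obtain ⟨x, hx⟩ := (IsUnifLocDoublingMeasure.ae_tendsto_measure_inter_div lam E 1).exists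
  obtain ⟨j0, hj0, -⟩ := M.exists_far x x
  obtain ⟨a, ha⟩ := M.G_nonempty j0
  have hax : M.Perp a x := (M.perp_of_far ha hj0).symm
  set w : ℕ → List (ZMod n) := fun N => M.itin κ N x with hw
  have hwlen : ∀ N, (w N).length = N := fun N => M.itin_length κ N x
  have hval : ∀ N, M.Valid (w N) x := fun N => M.valid_itin hκ N x
  choose j hj1 hj2 using fun N => M.exists_far (M.run (w N) a) (M.run (w N) x)
  set K : ℕ → Set X := fun N => M.run (w N) ⁻¹' (M.G (j N)) with hK
  have hKm : ∀ N, MeasurableSet (K N) := fun N => M.measurable_run (w N) (M.measurableSet_G (j N))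
  have hKperp : ∀ N, ∀ y ∈ K N, M.Perp (M.run (w N) a) (M.run (w N) y) :=
    fun N y hy => M.perp_of_far hy (hj1 N)
  have hKback : ∀ N, ∀ y ∈ K N, M.Valid (w N) y ∧ M.Perp a y :=
    fun N y hy => M.backward (hval N) hax (hKperp N y hy)
  have hKf : ∀ N, ∀ y ∈ K N, (M.fmap κ)^[N] y = M.run (w N) y := by
    intro N y hy
    have h1 := M.confluence' hκ (hKback N y hy).1 (hKback N y hy).2 hy (hj1 N)
    rwa [hwlen] at h1
  -- disjointness
  have hdisj' : ∀ N M', N < M' → Disjoint (K N) (K M') := by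
    intro N M' hNM
    rw [Set.disjoint_left]
    intro y hy hy'
    obtain ⟨k, rfl⟩ : ∃ k, M' = N + (k + 1) := ⟨M' - N - 1, by omega⟩
    have h1 := (hKback _ y hy').1
    rw [hw] at h1
    simp only at h1
    rw [M.dens_itin_add κ N (k + 1) x, Core.valid_append] at h1
    have h2 := h1.2
    simp only [Core.itin, Core.valid_cons] at h2
    have h3 : κ (M.run (M.itin κ N x) x) = j N := hy.2 _ h2.1
    have h4 := hκ (M.run (M.itin κ N x) x)
    rw [h3] at h4
    exact hj2 N h4
  have hdisj : Pairwise (Function.onFun Disjoint K) := by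
    intro N M' hne
    rcases lt_or_gt_of_ne hne with h | h
    · exact hdisj' N M' h
    · exact (hdisj' M' N h).symm
  have hlim : Filter.Tendsto (fun N => lam (K N)) Filter.atTop (nhds 0) := by
    apply ENNReal.tendsto_atTop_zero_of_tsum_ne_top
    rw [← measure_iUnion hdisj hKm]
    exact measure_ne_top _ _
  -- distortion
  set c1 : ℝ := M.c0 ^ 2 / M.D0 ^ 2 with hc1
  have hc1pos : 0 < c1 := div_pos (pow_pos M.c0_pos 2) (pow_pos M.D0_pos 2)
  set r : ℕ → ℝ := fun N => M.rhoW (w N) a with hr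
  have hrpos : ∀ N, 0 < r N := fun N => M.rhoW_pos _ _
  have hup : ∀ N, ∀ y ∈ K N, M.rhoW (w N) y ≤ 1 / (c1 * r N) := by
    intro N y hy
    have h1 := M.distort_upper (w := w N) (hKback N y hy).2
    have h2 : M.D0 ^ 2 / M.c0 ^ 2 = 1 / c1 := by rw [hc1, one_div_div]
    rw [h2] at h1
    rw [le_div_iff₀ (mul_pos hc1pos (hrpos N))]
    rw [le_div_iff₀ hc1pos] at h1
    calc M.rhoW (w N) y * (c1 * r N) = r N * M.rhoW (w N) y * c1 := by ring
      _ ≤ 1 := h1
  have hlo : ∀ N, ∀ y ∈ K N, c1 / r N ≤ M.rhoW (w N) y := by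
    intro N y hy
    have h1 := M.distort_lower (hKperp N y hy)
    rw [div_le_iff₀ (hrpos N), mul_comm]
    exact h1
  have hlox : ∀ N, c1 / r N ≤ M.rhoW (w N) x := by
    intro N
    have h1 := M.distort_lower (M.perp_run hax (hval N))
    rw [div_le_iff₀ (hrpos N), mul_comm]
    exact h1
  have himg : ∀ N, ∀ s : Set X, M.G (j N) \ s ⊆ M.run (w N) '' (K N \ (M.run (w N) ⁻¹' s)) := by
    intro N s z hz
    refine ⟨M.run (M.inv (w N)) z, ⟨?_, ?_⟩, M.run_inv' (w N) z⟩
    · show M.run (w N) (M.run (M.inv (w N)) z) ∈ M.G (j N)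
      rw [M.run_inv']
      exact hz.1
    · show ¬ (M.run (w N) (M.run (M.inv (w N)) z) ∈ s)
      rw [M.run_inv']
      exact hz.2
  -- `r N → 0`
  obtain ⟨jm, hjm⟩ := Finite.exists_min (fun i => lam (M.G i))
  have hG0 : ∀ N, lam (M.G jm) ≤ ENNReal.ofReal (1 / (c1 * r N)) * lam (K N) := by
    intro N
    calc lam (M.G jm) ≤ lam (M.G (j N)) := hjm _
      _ ≤ lam (M.run (w N) '' (K N)) := by
          apply measure_mono
          intro z hz
          obtain ⟨y, hy, hyz⟩ := himg N ∅ (by simpa using hz)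
          exact ⟨y, hy.1, hyz⟩
      _ ≤ _ := M.lam_image_le (w N) (K N)
          (one_div_pos.2 (mul_pos hc1pos (hrpos N))).le (hup N)
  have hr0 : Filter.Tendsto r Filter.atTop (nhds 0) := by
    rw [Metric.tendsto_atTop]
    intro ε hε
    have h1 : Filter.Tendsto (fun N => ENNReal.ofReal (1 / (c1 * ε)) * lam (K N)) Filter.atTop
        (nhds 0) := by
      have := ENNReal.Tendsto.const_mul (a := ENNReal.ofReal (1 / (c1 * ε))) hlim
        (Or.inr ENNReal.ofReal_ne_top)
      rwa [mul_zero] at this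
    have h2 := (h1.eventually (gt_mem_nhds (pos_iff_ne_zero.2 (M.G_pos jm))))
    obtain ⟨N0, hN0⟩ := Filter.eventually_atTop.1 h2
    refine ⟨N0, fun N hN => ?_⟩
    rw [Real.dist_eq, sub_zero, abs_of_pos (hrpos N)]
    by_contra hcon
    push Not at hcon
    have h3 := hN0 N hN
    have h4 := hG0 N
    have h5 : ENNReal.ofReal (1 / (c1 * r N)) ≤ ENNReal.ofReal (1 / (c1 * ε)) := by
      apply ENNReal.ofReal_le_ofReal
      apply one_div_le_one_div_of_le (mul_pos hc1pos hε)
      exact mul_le_mul_of_nonneg_left hcon hc1pos.le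
    have h6 : lam (M.G jm) ≤ ENNReal.ofReal (1 / (c1 * ε)) * lam (K N) :=
      h4.trans (mul_le_mul_left h5 _)
    exact absurd h3 (not_lt.2 h6)
  -- balls
  set δ : ℕ → ℝ := fun N => M.D0 * r N / c1 with hδ
  have hδpos : ∀ N, 0 < δ N := fun N => div_pos (mul_pos M.D0_pos (hrpos N)) hc1pos
  have hδ0 : Filter.Tendsto δ Filter.atTop (nhdsWithin 0 (Set.Ioi 0)) := by
    rw [tendsto_nhdsWithin_iff]
    refine ⟨?_, Filter.Eventually.of_forall hδpos⟩
    have h1 := (hr0.const_mul M.D0).div_const c1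
    simpa using h1
  have hdist : ∀ N, ∀ y ∈ K N, y ∈ Metric.closedBall x (δ N) := by
    intro N y hy
    rw [Metric.mem_closedBall, dist_comm]
    have h1 := M.dist_run (w N) x y
    have h2 : dist (M.run (w N) x) (M.run (w N) y) ^ 2 ≤ M.D0 ^ 2 := by
      have := M.dist_le (M.run (w N) x) (M.run (w N) y)
      have h0 : 0 ≤ dist (M.run (w N) x) (M.run (w N) y) := dist_nonneg
      gcongr
    have h3 : (c1 / r N) ^ 2 * dist x y ^ 2 ≤ M.D0 ^ 2 := by
      calc (c1 / r N) ^ 2 * dist x y ^ 2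
          ≤ M.rhoW (w N) x * M.rhoW (w N) y * dist x y ^ 2 := by
            apply mul_le_mul_of_nonneg_right _ (sq_nonneg _)
            rw [sq]
            exact mul_le_mul (hlox N) (hlo N y hy) (div_pos hc1pos (hrpos N)).le
              (M.rhoW_pos _ _).le
        _ ≤ _ := by rw [← h1]; exact h2
    have h4 : (c1 / r N * dist x y) ^ 2 ≤ M.D0 ^ 2 := by rw [mul_pow]; exact h3
    have h5 : c1 / r N * dist x y ≤ M.D0 := (abs_le_of_sq_le_sq' h4 M.D0_pos.le).2
    rw [hδ]
    simp only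
    rw [le_div_iff₀ hc1pos]
    have hrN := hrpos N
    rw [div_mul_eq_mul_div, div_le_iff₀ hrN] at h5
    linarith
  have hdens : Filter.Tendsto (fun N => lam (E ∩ Metric.closedBall x (δ N)) /
      lam (Metric.closedBall x (δ N))) Filter.atTop (nhds 1) := by
    refine hx (fun _ => x) δ hδ0 (Filter.Eventually.of_forall fun N => ?_)
    rw [one_mul]
    exact Metric.mem_closedBall_self (hδpos N).le
  have hBpos : ∀ N, lam (Metric.closedBall x (δ N)) ≠ 0 := by
    intro N h0
    have h1 : lam (K N) = 0 := measure_mono_null (hdist N) h0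
    have h2 := hG0 N
    rw [h1, mul_zero] at h2
    exact M.G_pos jm (le_antisymm h2 bot_le)
  have hcompl : ∀ N, lam (Metric.closedBall x (δ N) \ E) =
      (1 - lam (E ∩ Metric.closedBall x (δ N)) / lam (Metric.closedBall x (δ N))) *
        lam (Metric.closedBall x (δ N)) := by
    intro N
    rw [ENNReal.sub_mul (fun _ _ => measure_ne_top _ _), one_mul,
      ENNReal.div_mul_cancel (hBpos N) (measure_ne_top _ _), Set.inter_comm]
    exact ENNReal.eq_sub_of_add_eq (measure_ne_top lam _) (measure_sdiff_add_inter _ hE)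
  have hmain : ∀ N, lam (M.G (j N) \ E) ≤
      (1 - lam (E ∩ Metric.closedBall x (δ N)) / lam (Metric.closedBall x (δ N))) *
        ((M.CA : ℝ≥0∞) * ENNReal.ofReal (M.D0 / c1 ^ 2)) := by
    intro N
    have hsub : M.G (j N) \ E ⊆ M.run (w N) '' (K N \ E) := by
      intro z hz
      obtain ⟨y, hy, hyz⟩ := himg N E hz
      refine ⟨y, ⟨hy.1, fun hyE => ?_⟩, hyz⟩
      have h1 : ∀ (m : ℕ) (y : X), y ∈ E → (M.fmap κ)^[m] y ∈ E := by
        intro m
        induction m with
        | zero => intro y hy; exact hy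
        | succ m ih => intro y hy; rw [Function.iterate_succ_apply]; exact ih _ (hf y hy)
      have h2 := h1 N y hyE
      rw [hKf N y hy.1] at h2
      exact hy.2 h2
    calc lam (M.G (j N) \ E) ≤ lam (M.run (w N) '' (K N \ E)) := measure_mono hsub
      _ ≤ ENNReal.ofReal (1 / (c1 * r N)) * lam (K N \ E) :=
          M.lam_image_le (w N) _ (one_div_pos.2 (mul_pos hc1pos (hrpos N))).le
            (fun y hy => hup N y hy.1)
      _ ≤ ENNReal.ofReal (1 / (c1 * r N)) * lam (Metric.closedBall x (δ N) \ E) := by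
          gcongr
          exact hdist N
      _ = (1 - lam (E ∩ Metric.closedBall x (δ N)) / lam (Metric.closedBall x (δ N))) *
          (ENNReal.ofReal (1 / (c1 * r N)) * lam (Metric.closedBall x (δ N))) := by
          rw [hcompl]; ring
      _ ≤ (1 - lam (E ∩ Metric.closedBall x (δ N)) / lam (Metric.closedBall x (δ N))) *
          (ENNReal.ofReal (1 / (c1 * r N)) * ((M.CA : ℝ≥0∞) * ENNReal.ofReal (δ N))) := by
          gcongr
          exact M.ball_upper x (δ N) (hδpos N)
      _ = _ := by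
          have h1 : ENNReal.ofReal (1 / (c1 * r N)) * ENNReal.ofReal (δ N) =
              ENNReal.ofReal (M.D0 / c1 ^ 2) := by
            rw [← ENNReal.ofReal_mul (one_div_pos.2 (mul_pos hc1pos (hrpos N))).le]
            congr 1
            rw [hδ]
            have hrN := (hrpos N).ne'
            have hc := hc1pos.ne'
            field_simp
          rw [← h1]; ring
  obtain ⟨jz, hjz⟩ := Finite.exists_min (fun i => lam (M.G i \ E))
  refine ⟨jz, ?_⟩
  have hfin : Filter.Tendsto (fun N =>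
      (1 - lam (E ∩ Metric.closedBall x (δ N)) / lam (Metric.closedBall x (δ N))) *
        ((M.CA : ℝ≥0∞) * ENNReal.ofReal (M.D0 / c1 ^ 2))) Filter.atTop (nhds 0) := by
    have h1 := ENNReal.Tendsto.sub (tendsto_const_nhds (x := (1 : ℝ≥0∞))) hdens
      (Or.inl ENNReal.one_ne_top)
    rw [tsub_self] at h1
    have h2 := ENNReal.Tendsto.mul_const (b := (M.CA : ℝ≥0∞) * ENNReal.ofReal (M.D0 / c1 ^ 2)) h1
      (Or.inr (ENNReal.mul_ne_top ENNReal.coe_ne_top ENNReal.ofReal_ne_top))
    rwa [zero_mul] at h2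
  have h3 : lam (M.G jz \ E) ≤ 0 :=
    ge_of_tendsto' hfin (fun N => (hjz (j N)).trans (hmain N))
  exact le_antisymm h3 bot_le

end MCore
end Pool.H71.BS
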