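import Pool.Agent.H71.BS.Mob

/-!
# ORI: orientation of triples, half open arcs, images of arcs
-/

open scoped ComplexConjugate
open MeasureTheory

namespace Pool.H71.BS

noncomputable section

/-- positive iff `x, y, z` are distinct and in counterclockwise order -/
def ori (x y z : Circle) : ℝ :=
  (((y : ℂ) - x) * (z - y) * (x - z) / (x * y * z)).im

private theorem ori_aux_sub (a b : ℝ) :
    Complex.exp (b * Complex.I) - Complex.exp (a * Complex.I) =
      2 * Complex.I * Complex.sin (((b - a) / 2 : ℝ) : ℂ) *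
        Complex.exp ((((a + b) / 2 : ℝ) : ℂ) * Complex.I) := by
  have h1 : Complex.exp (b * Complex.I) =
      Complex.exp ((((b - a) / 2 : ℝ) : ℂ) * Complex.I) *
        Complex.exp ((((a + b) / 2 : ℝ) : ℂ) * Complex.I) := by
    rw [← Complex.exp_add]
    congr 1
    push_cast
    ring
  have h2 : Complex.exp (a * Complex.I) =
      Complex.exp (-(((b - a) / 2 : ℝ) : ℂ) * Complex.I) *
        Complex.exp ((((a + b) / 2 : ℝ) : ℂ) * Complex.I) := by
    rw [← Complex.exp_add]
    congr 1
    push_cast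
    ring
  rw [h1, h2, Complex.sin]
  ring_nf
  rw [Complex.I_sq]
  ring

/-- `e^{ia} - e^{ib} = 2i sin((a-b)/2) e^{i(a+b)/2}` -/
theorem ori_exp (a b c : ℝ) : ori (Circle.exp a) (Circle.exp b) (Circle.exp c) =
    8 * Real.sin ((b - a) / 2) * Real.sin ((c - b) / 2) * Real.sin ((c - a) / 2) := by
  unfold ori
  rw [Circle.coe_exp, Circle.coe_exp, Circle.coe_exp, ori_aux_sub a b, ori_aux_sub b c,
    ori_aux_sub c a]
  have he : Complex.exp ((((a + b) / 2 : ℝ) : ℂ) * Complex.I) *
      Complex.exp ((((b + c) / 2 : ℝ) : ℂ) * Complex.I) *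
      Complex.exp ((((c + a) / 2 : ℝ) : ℂ) * Complex.I) =
      Complex.exp (a * Complex.I) * Complex.exp (b * Complex.I) * Complex.exp (c * Complex.I) := by
    rw [← Complex.exp_add, ← Complex.exp_add, ← Complex.exp_add, ← Complex.exp_add]
    congr 1
    push_cast
    ring
  have hne : Complex.exp (a * Complex.I) * Complex.exp (b * Complex.I) *
      Complex.exp (c * Complex.I) ≠ 0 :=
    mul_ne_zero (mul_ne_zero (Complex.exp_ne_zero _) (Complex.exp_ne_zero _))
      (Complex.exp_ne_zero _)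
  have hs : Complex.sin (((a - c) / 2 : ℝ) : ℂ) = -Complex.sin (((c - a) / 2 : ℝ) : ℂ) := by
    rw [← Complex.sin_neg]
    congr 1
    push_cast
    ring
  have hI : (Complex.I) ^ 3 = -Complex.I := by
    rw [pow_succ, Complex.I_sq]
    ring
  have hmain : 2 * Complex.I * Complex.sin (((b - a) / 2 : ℝ) : ℂ) *
        Complex.exp ((((a + b) / 2 : ℝ) : ℂ) * Complex.I) *
      (2 * Complex.I * Complex.sin (((c - b) / 2 : ℝ) : ℂ) *
        Complex.exp ((((b + c) / 2 : ℝ) : ℂ) * Complex.I)) *
      (2 * Complex.I * Complex.sin (((a - c) / 2 : ℝ) : ℂ) *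
        Complex.exp ((((c + a) / 2 : ℝ) : ℂ) * Complex.I)) /
      (Complex.exp (a * Complex.I) * Complex.exp (b * Complex.I) * Complex.exp (c * Complex.I)) =
      ((8 * Real.sin ((b - a) / 2) * Real.sin ((c - b) / 2) * Real.sin ((c - a) / 2) : ℝ) : ℂ) *
        Complex.I := by
    rw [div_eq_iff hne, hs]
    push_cast
    calc _ = -(8 * (Complex.I) ^ 3 * Complex.sin ((b - a) / 2) * Complex.sin ((c - b) / 2) *
          Complex.sin ((c - a) / 2)) * (Complex.exp ((((a + b) / 2 : ℝ) : ℂ) * Complex.I) *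
      Complex.exp ((((b + c) / 2 : ℝ) : ℂ) * Complex.I) *
      Complex.exp ((((c + a) / 2 : ℝ) : ℂ) * Complex.I)) := by
          push_cast
          ring
      _ = _ := by
          rw [he, hI]
          ring
  rw [hmain, Complex.im_ofReal_mul, Complex.I_im, mul_one]

/-- `A x = x * conj (D x) / D x` for `|x| = 1` -/
theorem ori_circ (A : DiscIso) (x y z : Circle) :
    ori (A.circ x) (A.circ y) (A.circ z) = A.rho x * A.rho y * A.rho z * ori x y z := by
  have hact : ∀ x : Circle, A.act x = x * conj (A.den x) / A.den x := by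
    intro x
    rw [A.act_eq]
    congr 1
    unfold DiscIso.den
    simp only [map_add, map_mul, Complex.conj_conj]
    have h1 : (x : ℂ) * conj (x : ℂ) = 1 := by
      rw [Complex.mul_conj, Complex.normSq_eq_norm_sq, Circle.norm_coe]
      simp
    calc A.α * (x : ℂ) + A.β = A.α * x + A.β * 1 := by ring
      _ = (x : ℂ) * (A.β * conj (x : ℂ) + A.α) := by
        rw [← h1]
        ring
  have hsub : ∀ x y : Circle, A.act x - A.act y = ((x : ℂ) - y) / (A.den x * A.den y) := fun x y =>
    A.act_sub_act (Circle.norm_coe x).le (Circle.norm_coe y).le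
  have hden : ∀ x : Circle, A.den x ≠ 0 := fun x => A.den_ne_zero (Circle.norm_coe x).le
  have hcden : ∀ x : Circle, conj (A.den x) ≠ 0 := fun x =>
    (map_ne_zero (starRingEnd ℂ)).2 (hden x)
  have hx : ∀ x : Circle, (x : ℂ) ≠ 0 := fun x => Circle.coe_ne_zero x
  have hrho : ∀ x : Circle, ((A.rho x : ℝ) : ℂ) = (A.den x * conj (A.den x))⁻¹ := by
    intro x
    unfold DiscIso.rho
    rw [Complex.mul_conj]
    push_cast
    rfl
  unfold ori
  rw [DiscIso.coe_circ, DiscIso.coe_circ, DiscIso.coe_circ, hsub, hsub, hsub, hact, hact, hact]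
  have key : ((y : ℂ) - x) / (A.den y * A.den x) * ((z - y) / (A.den z * A.den y)) *
      ((x - z) / (A.den x * A.den z)) /
      (x * conj (A.den x) / A.den x * (y * conj (A.den y) / A.den y) *
        (z * conj (A.den z) / A.den z)) =
      ((A.rho x * A.rho y * A.rho z : ℝ) : ℂ) *
        (((y : ℂ) - x) * (z - y) * (x - z) / (x * y * z)) := by
    push_cast
    rw [hrho, hrho, hrho]
    have := hden x
    have := hden y
    have := hden z
    have := hcden x
    have := hcden y
    have := hcden z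
    have := hx x
    have := hx y
    have := hx z
    field_simp
  rw [key, Complex.im_ofReal_mul]

theorem continuous_ori (x z : Circle) : Continuous fun y => ori x y z := by
  unfold ori
  refine Complex.continuous_im.comp (Continuous.div ?_ ?_ ?_)
  · fun_prop
  · fun_prop
  · intro y
    exact mul_ne_zero (mul_ne_zero (Circle.coe_ne_zero x) (Circle.coe_ne_zero y))
      (Circle.coe_ne_zero z)

/-- the half open arc -/
def arcIco (s t : ℝ) : Set Circle := Circle.exp '' Set.Ico s t

private theorem exp_inj_aux {s a b : ℝ} (ha : s ≤ a) (ha' : a < s + 2 * Real.pi) (hb : s ≤ b)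
    (hb' : b < s + 2 * Real.pi) (h : Circle.exp a = Circle.exp b) : a = b := by
  obtain ⟨m, hm⟩ := Circle.exp_eq_exp.1 h
  have hpi := Real.two_pi_pos
  have h1 : (m : ℝ) < 1 := by
    by_contra hcon
    push Not at hcon
    nlinarith
  have h2 : (-1 : ℝ) < m := by
    by_contra hcon
    push Not at hcon
    nlinarith
  have h3 : m = 0 := by
    have h4 : m < 1 := by exact_mod_cast h1
    have h5 : -1 < m := by exact_mod_cast h2
    omega
  rw [hm, h3]
  simp

private theorem exists_rep (s : ℝ) (x : Circle) :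
    ∃ θ, s ≤ θ ∧ θ < s + 2 * Real.pi ∧ Circle.exp θ = x := by
  obtain ⟨φ, rfl⟩ := Circle.exp_surjective x
  obtain ⟨h1, h2⟩ := toIcoMod_mem_Ico Real.two_pi_pos s φ
  refine ⟨toIcoMod Real.two_pi_pos s φ, h1, h2, ?_⟩
  rw [Circle.exp_eq_exp]
  refine ⟨-toIcoDiv Real.two_pi_pos s φ, ?_⟩
  have := toIcoMod_add_toIcoDiv_zsmul Real.two_pi_pos s φ
  rw [zsmul_eq_mul] at this
  push_cast
  linarith

theorem mem_arcIco {s t θ : ℝ} (hst : s < t) (ht : t < s + 2 * Real.pi) (h1 : s ≤ θ)
    (h2 : θ < s + 2 * Real.pi) : Circle.exp θ ∈ arcIco s t ↔ θ < t := by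
  have _ := hst
  constructor
  · rintro ⟨φ, ⟨hφ1, hφ2⟩, hφ⟩
    have := exp_inj_aux hφ1 (hφ2.trans ht) h1 h2 hφ
    rw [← this]
    exact hφ2
  · intro h
    exact ⟨θ, ⟨h1, h⟩, rfl⟩

private theorem ori_pos_iff {s t θ : ℝ} (hst : s < t) (ht : t < s + 2 * Real.pi) (h1 : s ≤ θ)
    (h2 : θ < s + 2 * Real.pi) :
    0 < ori (Circle.exp s) (Circle.exp θ) (Circle.exp t) ↔ s < θ ∧ θ < t := by
  rw [ori_exp]
  have hA : 0 < Real.sin ((t - s) / 2) :=
    Real.sin_pos_of_pos_of_lt_pi (by linarith) (by linarith)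
  constructor
  · intro h
    have hs1 : s < θ := by
      rcases h1.lt_or_eq with h3 | h3
      · exact h3
      · exfalso
        rw [← h3] at h
        simp at h
    refine ⟨hs1, ?_⟩
    by_contra hcon
    push Not at hcon
    have hB : 0 < Real.sin ((θ - s) / 2) :=
      Real.sin_pos_of_pos_of_lt_pi (by linarith) (by linarith)
    have hC : Real.sin ((t - θ) / 2) ≤ 0 :=
      Real.sin_nonpos_of_nonpos_of_neg_pi_le (by linarith) (by linarith)
    have : 8 * Real.sin ((θ - s) / 2) * Real.sin ((t - θ) / 2) * Real.sin ((t - s) / 2) ≤ 0 := by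
      apply mul_nonpos_of_nonpos_of_nonneg _ hA.le
      exact mul_nonpos_of_nonneg_of_nonpos (by positivity) hC
    linarith
  · rintro ⟨h3, h4⟩
    have hB : 0 < Real.sin ((θ - s) / 2) :=
      Real.sin_pos_of_pos_of_lt_pi (by linarith) (by linarith)
    have hC : 0 < Real.sin ((t - θ) / 2) :=
      Real.sin_pos_of_pos_of_lt_pi (by linarith) (by linarith)
    positivity

theorem mem_arcIco_iff {s t : ℝ} (hst : s < t) (ht : t < s + 2 * Real.pi) (x : Circle) :
    x ∈ arcIco s t ↔ x = Circle.exp s ∨ 0 < ori (Circle.exp s) x (Circle.exp t) := by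
  obtain ⟨θ, h1, h2, rfl⟩ := exists_rep s x
  rw [mem_arcIco hst ht h1 h2, ori_pos_iff hst ht h1 h2]
  constructor
  · intro h
    rcases h1.lt_or_eq with h3 | h3
    · exact Or.inr ⟨h3, h⟩
    · left
      rw [h3]
  · rintro (h | h)
    · have := exp_inj_aux h1 h2 le_rfl (by linarith [Real.two_pi_pos]) h
      rw [this]
      exact hst
    · exact h.2

theorem arcIco_compl {s t : ℝ} (hst : s < t) (ht : t < s + 2 * Real.pi) (x : Circle) :
    x ∈ arcIco t (s + 2 * Real.pi) ↔ x ∉ arcIco s t := by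
  obtain ⟨θ, h1, h2, rfl⟩ := exists_rep s x
  rw [mem_arcIco hst ht h1 h2]
  constructor
  · rintro ⟨φ, ⟨hφ1, hφ2⟩, hφ⟩ hcon
    have := exp_inj_aux (hst.le.trans hφ1) hφ2 h1 h2 hφ
    linarith
  · intro h
    push Not at h
    exact ⟨θ, ⟨h, h2⟩, rfl⟩

theorem arcIco_shift (s t : ℝ) (m : ℤ) :
    arcIco (s + m * (2 * Real.pi)) (t + m * (2 * Real.pi)) = arcIco s t := by
  unfold arcIco
  ext x
  constructor
  · rintro ⟨φ, ⟨h1, h2⟩, rfl⟩
    refine ⟨φ - m * (2 * Real.pi), ⟨by linarith, by linarith⟩, ?_⟩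
    rw [Circle.exp_eq_exp]
    refine ⟨-m, ?_⟩
    push_cast
    ring
  · rintro ⟨φ, ⟨h1, h2⟩, rfl⟩
    refine ⟨φ + m * (2 * Real.pi), ⟨by linarith, by linarith⟩, ?_⟩
    rw [Circle.exp_eq_exp]
    exact ⟨m, rfl⟩

/-- the open arc is open -/
theorem isOpen_arcIoo {s t : ℝ} (ht : t < s + 2 * Real.pi) :
    IsOpen (Circle.exp '' Set.Ioo s t) := by
  rcases le_or_gt t s with hst | hst
  · rw [Set.Ioo_eq_empty (not_lt.2 hst), Set.image_empty]
    exact isOpen_empty
  · have : Circle.exp '' Set.Ioo s t = {x | 0 < ori (Circle.exp s) x (Circle.exp t)} := by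
      ext x
      obtain ⟨θ, h1, h2, rfl⟩ := exists_rep s x
      rw [Set.mem_ofPred_eq, ori_pos_iff hst ht h1 h2]
      constructor
      · rintro ⟨φ, ⟨hφ1, hφ2⟩, hφ⟩
        have := exp_inj_aux hφ1.le (hφ2.trans ht) h1 h2 hφ
        rw [← this]
        exact ⟨hφ1, hφ2⟩
      · intro h
        exact ⟨θ, h, rfl⟩
    rw [this]
    exact isOpen_lt continuous_const (continuous_ori _ _)

theorem measurableSet_arcIco {s t : ℝ} (ht : t < s + 2 * Real.pi) :
    MeasurableSet (arcIco s t) := by
  rcases le_or_gt t s with hst | hst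
  · unfold arcIco
    rw [Set.Ico_eq_empty (not_lt.2 hst), Set.image_empty]
    exact MeasurableSet.empty
  · have : arcIco s t = {Circle.exp s} ∪ {x | 0 < ori (Circle.exp s) x (Circle.exp t)} := by
      ext x
      rw [mem_arcIco_iff hst ht]
      rfl
    rw [this]
    exact (measurableSet_singleton _).union
      (isOpen_lt continuous_const (continuous_ori _ _)).measurableSet

/-- images of half open arcs -/
theorem circ_mem_arcIco (A : DiscIso) {s t s' t' : ℝ} (hst : s < t) (ht : t < s + 2 * Real.pi)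
    (hst' : s' < t') (ht' : t' < s' + 2 * Real.pi)
    (hs : A.circ (Circle.exp s) = Circle.exp s') (htt : A.circ (Circle.exp t) = Circle.exp t')
    (x : Circle) : A.circ x ∈ arcIco s' t' ↔ x ∈ arcIco s t := by
  rw [mem_arcIco_iff hst' ht', mem_arcIco_iff hst ht, ← hs, ← htt, ori_circ]
  have hinj : A.circ x = A.circ (Circle.exp s) ↔ x = Circle.exp s := by
    have := A.circEquiv.injective.eq_iff (a := x) (b := Circle.exp s)
    simpa using this
  have hpos : 0 < A.rho (Circle.exp s) * A.rho x * A.rho (Circle.exp t) :=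
    mul_pos (mul_pos (A.rho_pos _) (A.rho_pos _)) (A.rho_pos _)
  rw [hinj, mul_pos_iff_of_pos_left hpos]

end

end Pool.H71.BS
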