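import Pool.Agent.H71.BS.Ray
import Pool.Agent.H71.BS.Ori

/-!
# DIR: directions at a vertex

Let `m⁻`, `m⁺` be the unit directions from `V k` to `V (k-1)`, `V (k+1)`.  Then
`m⁻ = m⁺ e^{iθ}`, `θ = hypAngle (V k) (V (k-1)) (V (k+1))`.
Proof: `cos θ = Re (m⁻ conj m⁺)` is the definition of `InnerProductGeometry.angle`
(`InnerProductGeometry.cos_angle`, the angle does not change under positive scaling), and
`sin θ = |Im (m⁻ conj m⁺)|`, so one has to show `Im (m⁻ conj m⁺) ≥ 0` (even `> 0`).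
By `toOrigin_rayEnd_left/right`, with `φ = toOrigin (V k)` (`= (center (V k)).act`):
`φ (P (k-1)) = m⁻`, `φ (P k) = -m⁺`, `φ (Q k) = -m⁻`, `φ (Q (k+1)) = m⁺`.
`p (k-1) < p k < q k < p (k-1) + 2π` gives `ori (P (k-1)) (P k) (Q k) > 0` (`ori_exp`), hence by
`ori_circ` `ori m⁻ (-m⁺) (-m⁻) > 0`; and `ori m (-m') (-m) = 4 Im (m / m')`... (compute:
for `m = 1`, `ori 1 w (-1) = Im ((w-1)(-1-w)(1-(-1))/(w·(-1))) = Im (2(w²-1)/w)
= 2 Im (w - conj w) = 4 Im w`, with `w = -m⁺/m⁻`, so `-Im (m⁺/m⁻) > 0`, `Im (m⁻/m⁺) > 0`).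
-/

open scoped ComplexConjugate
open MeasureTheory

namespace Pool.H71.BS

noncomputable section

/-- the unit direction from `a` to `b` -/
def dirTo (a b : ℂ) : ℂ := toOrigin a b / ‖toOrigin a b‖

theorem norm_dirTo {a b : ℂ} (ha : ‖a‖ < 1) (hb : ‖b‖ ≤ 1) (hab : a ≠ b) : ‖dirTo a b‖ = 1 := by
  have h := toOrigin_ne_zero ha hb hab
  unfold dirTo
  rw [norm_div, Complex.norm_real, norm_norm, div_self (norm_ne_zero_iff.2 h)]

/-- `m / w` is the conjugate of `w / m` for unimodular numbers -/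
theorem dir_im_inv {z : ℂ} (hz : ‖z‖ = 1) : (z⁻¹).im = - z.im := by
  rw [Complex.inv_im, Complex.normSq_eq_norm_sq, hz]
  norm_num

/-- `ori m w (-m) = 4 Im (w / m)` for unimodular numbers -/
theorem ori_antipode (m w : Circle) : ori m w (-m) = 4 * ((w : ℂ) / m).im := by
  have hm : (m : ℂ) ≠ 0 := Circle.coe_ne_zero m
  have hw : (w : ℂ) ≠ 0 := Circle.coe_ne_zero w
  have hneg : ((-m : Circle) : ℂ) = -(m : ℂ) := rfl
  unfold ori
  rw [hneg]
  have h1 : ((w : ℂ) - m) * (-(m : ℂ) - w) * (m - -(m : ℂ)) / (m * w * (-(m : ℂ))) =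
      2 * ((w : ℂ) / m - ((w : ℂ) / m)⁻¹) := by
    field_simp
    ring
  rw [h1]
  have h2 : ‖(w : ℂ) / m‖ = 1 := by
    rw [norm_div, Circle.norm_coe, Circle.norm_coe, div_one]
  have h3 := dir_im_inv h2
  rw [Complex.mul_im, Complex.sub_im, h3]
  simp
  ring

/-- two unimodular numbers and their angle -/
theorem eq_mul_exp_of_im_nonneg {u v : ℂ} (hu : ‖u‖ = 1) (hv : ‖v‖ = 1)
    (h : 0 ≤ (u / v).im) :
    u = v * Complex.exp (InnerProductGeometry.angle u v * Complex.I) := by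
  have hu0 : u ≠ 0 := by rintro rfl; simp at hu
  have hv0 : v ≠ 0 := by rintro rfl; simp at hv
  rw [Complex.angle_eq_abs_arg hu0 hv0, abs_of_nonneg (Complex.arg_nonneg_iff.2 h)]
  have h1 : ‖u / v‖ = 1 := by rw [norm_div, hu, hv, div_one]
  have h2 := Complex.norm_mul_exp_arg_mul_I (u / v)
  rw [h1] at h2
  rw [Complex.ofReal_one, one_mul] at h2
  rw [h2]
  field_simp

namespace CanonicalPolygon

variable {g : ℕ} (F : CanonicalPolygon g)

/-- the boundary points -/
def P (k : ℤ) : Circle := Circle.exp (F.p k)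

def Q (k : ℤ) : Circle := Circle.exp (F.q k)

/-- the interior angle at `V k` -/
def theta (k : ZMod (sides g)) : ℝ := hypAngle (F.V k) (F.V (k - 1)) (F.V (k + 1))

theorem im_dir_pos (hg : 2 ≤ g) (k : ZMod (sides g)) :
    0 < (dirTo (F.V k) (F.V (k - 1)) / dirTo (F.V k) (F.V (k + 1))).im := by
  obtain ⟨K, rfl⟩ := ZMod.intCast_surjective k
  have hV := F.norm_V K
  have hVm := F.norm_V ((K : ZMod (sides g)) - 1)
  have hVp := F.norm_V ((K : ZMod (sides g)) + 1)
  have hne1 : F.V ((K : ZMod (sides g)) - 1) ≠ F.V K := by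
    have := F.V_ne ((K : ZMod (sides g)) - 1)
    rwa [sub_add_cancel] at this
  have hne2 : F.V K ≠ F.V ((K : ZMod (sides g)) + 1) := F.V_ne K
  -- the three boundary points
  set A := DiscIso.center (F.V K) hV with hA
  have hP1 : (A.circ (F.P (K - 1)) : ℂ) = dirTo (F.V K) (F.V (K - 1)) := by
    rw [DiscIso.coe_circ, hA, DiscIso.center_act _ _ (Circle.norm_coe _).le]
    have h1 := F.exp_p (K - 1)
    rw [show (((K - 1 : ℤ) : ZMod (sides g)) + 1) = K by push_cast; ring,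
      show ((K - 1 : ℤ) : ZMod (sides g)) = (K : ZMod (sides g)) - 1 by push_cast; ring] at h1
    unfold P
    rw [h1, toOrigin_rayEnd_left hV hVm hne1.symm]
    rfl
  have hP2 : (A.circ (F.P K) : ℂ) = - dirTo (F.V K) (F.V (K + 1)) := by
    rw [DiscIso.coe_circ, hA, DiscIso.center_act _ _ (Circle.norm_coe _).le]
    have h1 := F.exp_p K
    unfold P
    rw [h1, toOrigin_rayEnd_right hVp hV hne2.symm]
    rfl
  have hQ1 : (A.circ (F.Q K) : ℂ) = - dirTo (F.V K) (F.V (K - 1)) := by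
    rw [DiscIso.coe_circ, hA, DiscIso.center_act _ _ (Circle.norm_coe _).le]
    have h1 := F.exp_q K
    unfold Q
    rw [h1, toOrigin_rayEnd_right hVm hV hne1]
    rfl
  have hQ2 : A.circ (F.Q K) = - A.circ (F.P (K - 1)) := by
    apply Circle.ext
    rw [hQ1, ← hP1]
    rfl
  -- the order of the boundary points
  have hmono : StrictMono F.p := by
    apply strictMono_int_of_lt_succ
    intro j
    exact lt_trans (F.p_lt_q j) (F.q_lt_p j)
  have hn : (2 : ℤ) ≤ (sides g : ℤ) := by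
    have : 2 ≤ sides g := by unfold sides; omega
    exact_mod_cast this
  have h12 : F.p (K - 1) < F.p K := hmono (by omega)
  have h23 : F.p K < F.q K := F.p_lt_q K
  have h31 : F.q K < F.p (K - 1) + 2 * Real.pi := by
    rw [← F.p_add]
    exact lt_of_lt_of_le (F.q_lt_p K) (hmono.monotone (by omega))
  have hori : 0 < ori (F.P (K - 1)) (F.P K) (F.Q K) := by
    unfold P Q
    rw [ori_exp]
    have s1 : 0 < Real.sin ((F.p K - F.p (K - 1)) / 2) :=
      Real.sin_pos_of_pos_of_lt_pi (by linarith) (by linarith)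
    have s2 : 0 < Real.sin ((F.q K - F.p K) / 2) :=
      Real.sin_pos_of_pos_of_lt_pi (by linarith) (by linarith)
    have s3 : 0 < Real.sin ((F.q K - F.p (K - 1)) / 2) :=
      Real.sin_pos_of_pos_of_lt_pi (by linarith) (by linarith)
    positivity
  have hori2 : 0 < ori (A.circ (F.P (K - 1))) (A.circ (F.P K)) (A.circ (F.Q K)) := by
    rw [ori_circ]
    have r1 := A.rho_pos (F.P (K - 1))
    have r2 := A.rho_pos (F.P K)
    have r3 := A.rho_pos (F.Q K)
    positivity
  rw [hQ2, ori_antipode, hP1, hP2] at hori2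
  have hu : ‖dirTo (F.V K) (F.V (K - 1))‖ = 1 := norm_dirTo hV hVm.le hne1.symm
  have hv : ‖dirTo (F.V K) (F.V (K + 1))‖ = 1 := norm_dirTo hV hVp.le hne2
  have h1 : ‖dirTo (F.V K) (F.V (K + 1)) / dirTo (F.V K) (F.V (K - 1))‖ = 1 := by
    rw [norm_div, hu, hv, div_one]
  have h2 := dir_im_inv h1
  rw [inv_div] at h2
  rw [h2]
  rw [neg_div, Complex.neg_im] at hori2
  linarith

theorem dir (hg : 2 ≤ g) (k : ZMod (sides g)) :
    dirTo (F.V k) (F.V (k - 1)) =
      dirTo (F.V k) (F.V (k + 1)) * Complex.exp (F.theta k * Complex.I) := by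
  have hne1 : F.V (k - 1) ≠ F.V k := by
    have := F.V_ne (k - 1)
    rwa [sub_add_cancel] at this
  have hne2 : F.V k ≠ F.V (k + 1) := F.V_ne k
  have h := eq_mul_exp_of_im_nonneg (norm_dirTo (F.norm_V k) (F.norm_V (k - 1)).le hne1.symm)
    (norm_dirTo (F.norm_V k) (F.norm_V (k + 1)).le hne2) (F.im_dir_pos hg k).le
  have hang : InnerProductGeometry.angle (dirTo (F.V k) (F.V (k - 1)))
      (dirTo (F.V k) (F.V (k + 1))) = F.theta k := by
    have t1 := toOrigin_ne_zero (F.norm_V k) (F.norm_V (k - 1)).le hne1.symm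
    have t2 := toOrigin_ne_zero (F.norm_V k) (F.norm_V (k + 1)).le hne2
    have e : ∀ z : ℂ, z / ‖z‖ = (‖z‖⁻¹ : ℝ) • z := by
      intro z
      rw [Complex.real_smul, Complex.ofReal_inv, div_eq_inv_mul]
    unfold dirTo theta hypAngle
    rw [e, e, InnerProductGeometry.angle_smul_left_of_pos _ _ (inv_pos.2 (norm_pos_iff.2 t1)),
      InnerProductGeometry.angle_smul_right_of_pos _ _ (inv_pos.2 (norm_pos_iff.2 t2))]
  rw [hang] at h
  exact h

end CanonicalPolygon

end

end Pool.H71.BS
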