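import Pool.Agent.H71.BS.MCore

/-!
# SPREAD: a forward invariant set containing some `G j` (a.e.) has full measure

Proof.  Claim A: if `lam (G i \ E) = 0` then `lam (T i '' G i \ E) = 0`: for `y ∈ G i`, `κ y = i`,
so `T i y = fmap κ y`, hence `T i '' (G i ∩ E) ⊆ E` and `T i '' G i \ E ⊆ T i '' (G i \ E)`, which
is null by `lam_image_le` (word `[i]`, `K = R`).
Claim B: `G_image` : if `Far (σ i) z` then `z ∈ T i '' G i`.
Step 1: for `i ∉ {σ j - 1, σ j, σ j + 1}` we have `G i ⊆ T j '' G j` (for `z ∈ G i`,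
`Far (σ j) z` since `z` lies in `arc i` only), so `lam (G i \ E) = 0` by Claim A.
Step 2: for every `z` there is `i ∉ {σ j - 1, σ j, σ j + 1}` with `Far (σ i) z`
(`arcs_subset`, `far_of`, `exists_avoid` applied to the set
`{σ(b-1), σ b, σ(b+1), σ(b+2), σ j - 1, σ j, σ j + 1}`), so `z ∈ T i '' G i`.
Hence `Eᶜ ⊆ ⋃_{i ok} (T i '' G i \ E)` is null.
-/

open MeasureTheory
open scoped ENNReal NNReal

namespace Pool.H71.BS
namespace MCore

variable {n : ℕ} {X : Type*} [MetricSpace X] [MeasurableSpace X] [BorelSpace X]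
  {lam : Measure X} (M : MCore n X lam)

theorem spread_claimA {κ : X → ZMod n} (hκ : ∀ x, x ∈ M.arc (κ x)) {E : Set X}
    (hf : ∀ y ∈ E, M.fmap κ y ∈ E) {i : ZMod n} (hi : lam (M.G i \ E) = 0) :
    lam (M.T i '' M.G i \ E) = 0 := by
  obtain ⟨R, hR⟩ := M.rho_le
  have h1 : M.T i '' M.G i \ E ⊆ M.run [i] '' (M.G i \ E) := by
    rintro z ⟨⟨y, hy, rfl⟩, hz⟩
    refine ⟨y, ⟨hy, fun hyE => hz ?_⟩, rfl⟩
    have h2 : κ y = i := hy.2 _ (hκ y)
    have h3 := hf y hyE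
    rw [Core.fmap, h2] at h3
    exact h3
  refine measure_mono_null h1 ?_
  have h4 := M.lam_image_le [i] (M.G i \ E) (K := max R 0) (le_max_right _ _) (fun x _ => by
    rw [rhoW_cons, rhoW_nil, mul_one]
    exact (hR i x).trans (le_max_left _ _))
  rw [hi, mul_zero] at h4
  exact le_antisymm h4 bot_le

theorem spread {κ : X → ZMod n} (hκ : ∀ x, x ∈ M.arc (κ x)) {E : Set X}
    (hf : ∀ y ∈ E, M.fmap κ y ∈ E) {j : ZMod n} (hj : lam (M.G j \ E) = 0) : lam Eᶜ = 0 := by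
  have : NeZero n := ⟨by have := M.hn; omega⟩
  have hstep1 : ∀ i : ZMod n, i ≠ M.σ j - 1 → i ≠ M.σ j → i ≠ M.σ j + 1 →
      lam (M.G i \ E) = 0 := by
    intro i h1 h2 h3
    refine measure_mono_null ?_ (M.spread_claimA hκ hf hj)
    refine Set.sdiff_subset_sdiff_left ?_
    intro z hz
    refine ⟨(M.T j).symm z, M.G_image ?_, by simp⟩
    intro b hb
    have hbi : b = i := hz.2 b hb
    subst hbi
    refine ⟨fun h => h2 h.symm, fun h => h1 ?_, fun h => h3 ?_⟩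
    · rw [h]; ring
    · rw [h]; ring
  have hcov : Eᶜ ⊆ ⋃ i : {i : ZMod n // i ≠ M.σ j - 1 ∧ i ≠ M.σ j ∧ i ≠ M.σ j + 1},
      (M.T i.1 '' M.G i.1 \ E) := by
    intro z hz
    obtain ⟨b, hb⟩ := M.arcs_subset z
    obtain ⟨i, hi⟩ := M.exists_avoid {M.σ (b - 1), M.σ b, M.σ (b + 1), M.σ (b + 2),
      M.σ j - 1, M.σ j, M.σ j + 1} (by
        refine (Finset.card_insert_le _ _).trans ?_
        have := Finset.card_le_six (a := M.σ b) (b := M.σ (b + 1)) (c := M.σ (b + 2))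
          (d := M.σ j - 1) (e := M.σ j) (f := M.σ j + 1)
        omega)
    simp only [Finset.mem_insert, Finset.mem_singleton, not_or] at hi
    obtain ⟨h1, h2, h3, h4, h5, h6, h7⟩ := hi
    refine Set.mem_iUnion.2 ⟨⟨i, h5, h6, h7⟩, ⟨(M.T i).symm z, M.G_image ?_, by simp⟩, hz⟩
    refine M.far_of hb ?_ ?_ ?_ ?_
    · intro h; exact h1 (by rw [← h, M.σσ])
    · intro h; exact h2 (by rw [← h, M.σσ])
    · intro h; exact h3 (by rw [← h, M.σσ])
    · intro h; exact h4 (by rw [← h, M.σσ])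
  refine measure_mono_null hcov (measure_iUnion_null fun i => ?_)
  exact M.spread_claimA hκ hf (hstep1 i.1 i.2.1 i.2.2.1 i.2.2.2)

end MCore
end Pool.H71.BS
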