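import Pool.Agent.H71.BS.Bound
import Pool.Agent.H71.BS.Acip
import Pool.Agent.H71.BS.Dens
import Pool.Agent.H71.BS.Spread

/-!
# ERG: the abstract main theorem

Proof.  Let `f = fmap κ`, `C` from `bound`.
Lemma D: `E` measurable, `lam E ≠ 0`, `lam (E \ f⁻¹ E) = 0` ⇒ `lam Eᶜ = 0`: with
`B = E \ f⁻¹ E`, `E0 = E \ ⋃_N f^[N] ⁻¹' B` we have `lam (E \ E0) = 0` (by `bound`) and
`f (E0) ⊆ E0`; apply `dens` and `spread` to `E0`.
`exists_acip` gives `μ` invariant, probability, `μ ≪ lam`.  With `h = μ.rnDeriv lam` and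
`E = {h ≠ 0}`: `μ Eᶜ = 0`, so `μ (f⁻¹ Eᶜ) = 0`, so `lam (E \ f⁻¹ E) = 0` (since `h ≠ 0` on it),
`lam E ≠ 0`; Lemma D gives `lam Eᶜ = 0`, so `lam ≪ μ`.
Ergodicity: if `f⁻¹ s = s` (measurable) then `lam s = 0` or `lam sᶜ = 0` by Lemma D; use `μ ≪ lam`.
(`Ergodic f μ` = `MeasurePreserving` + `PreErgodic`: `s =ᵐ ∅ or univ`, see
`PreErgodic.aeconst_set`.)
-/

open MeasureTheory
open scoped ENNReal NNReal

namespace Pool.H71.BS
namespace MCore

variable {n : ℕ} {X : Type*} [MetricSpace X] [MeasurableSpace X] [BorelSpace X]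
  {lam : Measure X} (M : MCore n X lam)

theorem erg_lemmaD [SecondCountableTopology X] {κ : X → ZMod n}
    (hm : ∀ j, MeasurableSet {x | κ x = j}) (hκ : ∀ x, x ∈ M.arc (κ x)) {E : Set X}
    (hE : MeasurableSet E) (hpos : lam E ≠ 0) (hinv : lam (E \ M.fmap κ ⁻¹' E) = 0) :
    lam Eᶜ = 0 := by
  obtain ⟨C, -, hC⟩ := M.bound
  have hfm : Measurable (M.fmap κ) := M.measurable_fmap hm
  set B := E \ M.fmap κ ⁻¹' E with hB
  have hBm : MeasurableSet B := hE.diff (hfm hE)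
  set U := ⋃ N : ℕ, (M.fmap κ)^[N] ⁻¹' B with hU
  have hUm : MeasurableSet U := MeasurableSet.iUnion fun N => (hfm.iterate N) hBm
  have hU0 : lam U = 0 := by
    refine measure_iUnion_null fun N => ?_
    have h1 := hC κ hm hκ N B hBm
    rw [hinv, mul_zero] at h1
    exact le_antisymm h1 bot_le
  have hE0m : MeasurableSet (E \ U) := hE.diff hUm
  have hE0 : lam (E \ U) ≠ 0 := by
    intro h
    apply hpos
    refine measure_mono_null (t := (E \ U) ∪ U) ?_ (measure_union_null h hU0)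
    intro x hx
    by_cases hxU : x ∈ U
    · exact Or.inr hxU
    · exact Or.inl ⟨hx, hxU⟩
  have hf : ∀ y ∈ E \ U, M.fmap κ y ∈ E \ U := by
    rintro y ⟨hyE, hyU⟩
    rw [hU, Set.mem_iUnion, not_exists] at hyU
    refine ⟨?_, ?_⟩
    · by_contra h
      exact hyU 0 ⟨hyE, h⟩
    · rw [hU, Set.mem_iUnion, not_exists]
      intro N hN
      refine hyU (N + 1) ?_
      rw [Set.mem_preimage, Function.iterate_succ_apply]
      exact hN
  obtain ⟨j, hj⟩ := M.dens hm hκ hE0m hE0 hf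
  have h1 := M.spread hκ hf hj
  refine measure_mono_null ?_ h1
  intro x hx h
  exact hx h.1

theorem ergodic_main [SecondCountableTopology X] {κ : X → ZMod n}
    (hm : ∀ j, MeasurableSet {x | κ x = j}) (hκ : ∀ x, x ∈ M.arc (κ x)) :
    ∃ μ : Measure X, IsProbabilityMeasure μ ∧ μ ≪ lam ∧ lam ≪ μ ∧ Ergodic (M.fmap κ) μ := by
  have hfin : IsFiniteMeasure lam := ⟨lt_top_iff_ne_top.2 M.fin⟩
  have h0 : lam ≠ 0 := by
    intro h
    apply M.G_pos 0
    have h1 : ∀ s : Set X, lam s = 0 := fun s => by rw [h]; simp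
    exact h1 _
  obtain ⟨C, hCt, hC⟩ := M.bound
  have hfm : Measurable (M.fmap κ) := M.measurable_fmap hm
  obtain ⟨μ, hμ, hac, hmp⟩ := exists_acip lam h0 (M.fmap κ) hfm C hCt (hC κ hm hκ)
  have hwd : lam.withDensity (μ.rnDeriv lam) = μ := Measure.withDensity_rnDeriv_eq μ lam hac
  have hhm : Measurable (μ.rnDeriv lam) := Measure.measurable_rnDeriv μ lam
  set h := μ.rnDeriv lam with hh
  set E : Set X := {x | h x ≠ 0} with hE
  have hEm : MeasurableSet E := (hhm (measurableSet_singleton 0)).compl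
  have hzero : ∀ s : Set X, μ s = 0 ↔ lam (E ∩ s) = 0 := by
    intro s
    conv_lhs => rw [← hwd]
    exact withDensity_apply_eq_zero hhm
  have hEc : μ Eᶜ = 0 := by
    rw [hzero]
    simp
  have hpos : lam E ≠ 0 := by
    intro h1
    have h2 : μ E = 0 := hac h1
    have h3 : μ Set.univ = 0 := by
      rw [← Set.union_compl_self E]
      exact measure_union_null h2 hEc
    rw [measure_univ] at h3
    exact one_ne_zero h3
  have hinv : lam (E \ M.fmap κ ⁻¹' E) = 0 := by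
    have h1 : μ (M.fmap κ ⁻¹' Eᶜ) = 0 := by
      rw [hmp.measure_preimage hEm.compl.nullMeasurableSet, hEc]
    rw [hzero] at h1
    exact h1
  have hlamE := M.erg_lemmaD hm hκ hEm hpos hinv
  refine ⟨μ, hμ, hac, ?_, ⟨hmp, ⟨?_⟩⟩⟩
  · intro s hs
    rw [hzero] at hs
    refine measure_mono_null (t := (E ∩ s) ∪ Eᶜ) ?_ (measure_union_null hs hlamE)
    intro x hx
    by_cases hxE : x ∈ E
    · exact Or.inl ⟨hxE, hx⟩
    · exact Or.inr hxE
  · intro s hs hinvs
    rw [Filter.eventuallyConst_set']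
    by_cases hls : lam s = 0
    · left
      exact ae_eq_empty.2 (hac hls)
    · right
      rw [ae_eq_univ]
      refine hac (M.erg_lemmaD hm hκ hs hls ?_)
      rw [hinvs]
      simp

end MCore
end Pool.H71.BS
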