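import Pool.Agent.H71.BS.Defs

/-!
# HAUS: the one dimensional Hausdorff measure on the circle is comparable to arc length

`‖e^{iθ} - e^{iφ}‖ ≤ |θ - φ|`, and `|θ - φ| ≤ (π/2) ‖e^{iθ} - e^{iφ}‖` if `|θ - φ| ≤ π`
(Jordan: `2|sin(t/2)| ≥ (2/π)|t|` for `|t| ≤ π`, `Real.mul_le_sin`).
* `μH[1] E ≤ arcLength E`: `E = exp '' (exp⁻¹ E ∩ (-π, π])`, `exp` is 1-Lipschitz
  (`LipschitzOnWith.hausdorffMeasure_image_le`, `MeasureTheory.hausdorffMeasure_real`).
* `arcLength E ≤ π * μH[1] E`: cut `(-π, π] = (-π, 0] ∪ (0, π]`; on the image of each piece `arg`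
  is `π/2`-Lipschitz.
* balls: `closedBall x r ⊇ exp '' [θ - r, θ + r]`, `closedBall x r ⊆ exp '' [θ - πr/2, θ + πr/2]`.
-/

open MeasureTheory Measure
open scoped ENNReal NNReal

namespace Pool.H71.BS

theorem haus_dist (a b : ℝ) : dist (Circle.exp a) (Circle.exp b) = 2 * |Real.sin ((a - b) / 2)| := by
  have h1 : dist (Circle.exp a) (Circle.exp b)
      = ‖(Circle.exp a : ℂ) - (Circle.exp b : ℂ)‖ := by
    exact dist_eq_norm (Circle.exp a : ℂ) (Circle.exp b : ℂ)
  rw [h1, Circle.coe_exp, Circle.coe_exp]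
  have h2 : Complex.exp (a * Complex.I) - Complex.exp (b * Complex.I)
      = Complex.exp (b * Complex.I) * (Complex.exp (Complex.I * ((a - b : ℝ) : ℂ)) - 1) := by
    rw [mul_sub, mul_one, ← Complex.exp_add]
    congr 2
    push_cast
    ring
  rw [h2, norm_mul, Complex.norm_exp_ofReal_mul_I, one_mul,
    Complex.norm_exp_I_mul_ofReal_sub_one, norm_mul, Real.norm_eq_abs, Real.norm_eq_abs]
  norm_num

theorem haus_dist_le (a b : ℝ) : dist (Circle.exp a) (Circle.exp b) ≤ dist a b := by
  rw [haus_dist, Real.dist_eq]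
  have h := Real.abs_sin_le_abs (x := (a - b) / 2)
  rw [abs_div, abs_two] at h
  linarith

theorem haus_le_dist (a b : ℝ) (h : |a - b| ≤ Real.pi) :
    dist a b ≤ Real.pi / 2 * dist (Circle.exp a) (Circle.exp b) := by
  rw [haus_dist, Real.dist_eq]
  have hpi := Real.pi_pos
  have h1 : 2 / Real.pi * (|a - b| / 2) ≤ Real.sin (|a - b| / 2) :=
    Real.mul_le_sin (by positivity) (by linarith)
  have h2 : Real.sin (|a - b| / 2) ≤ |Real.sin ((a - b) / 2)| := by
    rcases le_total 0 (a - b) with h0 | h0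
    · rw [abs_of_nonneg h0]
      exact le_abs_self _
    · rw [abs_of_nonpos h0]
      have : Real.sin (-(a - b) / 2) = - Real.sin ((a - b) / 2) := by
        rw [← Real.sin_neg]
        congr 1
        ring
      rw [this]
      exact neg_le_abs _
  have h3 : 2 / Real.pi * (|a - b| / 2) ≤ |Real.sin ((a - b) / 2)| := h1.trans h2
  have h4 : Real.pi / 2 * (2 * (2 / Real.pi * (|a - b| / 2))) = |a - b| := by
    field_simp
  calc |a - b| = Real.pi / 2 * (2 * (2 / Real.pi * (|a - b| / 2))) := h4.symm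
    _ ≤ Real.pi / 2 * (2 * |Real.sin ((a - b) / 2)|) := by
        apply mul_le_mul_of_nonneg_left _ (by positivity)
        linarith

theorem haus_exp_meas : Measurable (Circle.exp : ℝ → Circle) :=
  Circle.exp.continuous.measurable

theorem haus_arc_apply {E : Set Circle} (hE : MeasurableSet E) :
    arcLength E = volume ((fun t : ℝ => Circle.exp t) ⁻¹' E ∩ Set.Ioc (-Real.pi) Real.pi) := by
  unfold arcLength
  rw [Measure.map_apply haus_exp_meas hE,
    Measure.restrict_apply (haus_exp_meas hE)]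

theorem haus_image_le (S : Set ℝ) :
    (μH[1] : Measure Circle) ((fun t : ℝ => Circle.exp t) '' S) ≤ volume S := by
  have h1 : LipschitzOnWith 1 (fun t : ℝ => Circle.exp t) S := by
    apply LipschitzOnWith.of_dist_le_mul
    intro x _ y _
    rw [NNReal.coe_one, one_mul]
    exact haus_dist_le x y
  have h2 := h1.hausdorffMeasure_image_le (d := 1) zero_le_one
  rw [hausdorffMeasure_real] at h2
  simpa using h2

theorem haus_le_image (S : Set ℝ) (hS : S ⊆ Set.Ioc (-Real.pi) Real.pi)
    (hd : ∀ x ∈ S, ∀ y ∈ S, |x - y| ≤ Real.pi) :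
    volume S ≤ ENNReal.ofReal (Real.pi / 2) *
      (μH[1] : Measure Circle) ((fun t : ℝ => Circle.exp t) '' S) := by
  have hpi := Real.pi_pos
  have h1 : LipschitzOnWith (Real.toNNReal (Real.pi / 2))
      (fun z : Circle => Complex.arg (z : ℂ)) ((fun t : ℝ => Circle.exp t) '' S) := by
    apply LipschitzOnWith.of_dist_le_mul
    rintro _ ⟨x, hx, rfl⟩ _ ⟨y, hy, rfl⟩
    have hx1 := hS hx
    have hy1 := hS hy
    simp only
    rw [Circle.arg_exp hx1.1 hx1.2, Circle.arg_exp hy1.1 hy1.2,
      Real.coe_toNNReal _ (by positivity)]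
    exact haus_le_dist x y (hd x hx y hy)
  have h2 := h1.hausdorffMeasure_image_le (d := 1) zero_le_one
  have h3 : (fun z : Circle => Complex.arg (z : ℂ)) '' ((fun t : ℝ => Circle.exp t) '' S) = S := by
    ext t
    constructor
    · rintro ⟨_, ⟨x, hx, rfl⟩, rfl⟩
      simp only
      rw [Circle.arg_exp (hS hx).1 (hS hx).2]
      exact hx
    · intro ht
      exact ⟨_, ⟨t, ht, rfl⟩, Circle.arg_exp (hS ht).1 (hS ht).2⟩
  rw [h3, hausdorffMeasure_real] at h2
  simpa [ENNReal.ofReal] using h2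

theorem hausdorff_le_arcLength {E : Set Circle} (hE : MeasurableSet E) :
    (μH[1] : Measure Circle) E ≤ arcLength E := by
  rw [haus_arc_apply hE]
  refine le_trans (measure_mono ?_) (haus_image_le _)
  intro z hz
  refine ⟨Complex.arg (z : ℂ), ⟨?_, Complex.neg_pi_lt_arg _, Complex.arg_le_pi _⟩, Circle.exp_arg z⟩
  show Circle.exp (Complex.arg (z : ℂ)) ∈ E
  rw [Circle.exp_arg]
  exact hz

theorem arcLength_le_hausdorff {E : Set Circle} (hE : MeasurableSet E) :
    arcLength E ≤ ENNReal.ofReal Real.pi * (μH[1] : Measure Circle) E := by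
  have hpi := Real.pi_pos
  rw [haus_arc_apply hE]
  set P : Set ℝ := (fun t : ℝ => Circle.exp t) ⁻¹' E with hP
  have h1 : P ∩ Set.Ioc (-Real.pi) Real.pi
      ⊆ (P ∩ Set.Ioc (-Real.pi) 0) ∪ (P ∩ Set.Ioc 0 Real.pi) := by
    rintro t ⟨ht, ht1, ht2⟩
    rcases le_or_gt t 0 with h | h
    · exact Or.inl ⟨ht, ht1, h⟩
    · exact Or.inr ⟨ht, h, ht2⟩
  have hsub : ∀ Q : Set ℝ, (fun t : ℝ => Circle.exp t) '' (P ∩ Q) ⊆ E := by
    rintro Q _ ⟨t, ht, rfl⟩
    exact ht.1
  have h2 : volume (P ∩ Set.Ioc (-Real.pi) 0)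
      ≤ ENNReal.ofReal (Real.pi / 2) * (μH[1] : Measure Circle) E := by
    refine (haus_le_image _ ?_ ?_).trans (mul_le_mul_right (measure_mono (hsub _)) _)
    · rintro t ⟨_, ht1, ht2⟩
      exact ⟨ht1, by linarith⟩
    · rintro x ⟨_, hx1, hx2⟩ y ⟨_, hy1, hy2⟩
      rw [abs_le]
      constructor <;> linarith
  have h3 : volume (P ∩ Set.Ioc 0 Real.pi)
      ≤ ENNReal.ofReal (Real.pi / 2) * (μH[1] : Measure Circle) E := by
    refine (haus_le_image _ ?_ ?_).trans (mul_le_mul_right (measure_mono (hsub _)) _)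
    · rintro t ⟨_, ht1, ht2⟩
      exact ⟨by linarith, ht2⟩
    · rintro x ⟨_, hx1, hx2⟩ y ⟨_, hy1, hy2⟩
      rw [abs_le]
      constructor <;> linarith
  calc volume (P ∩ Set.Ioc (-Real.pi) Real.pi)
      ≤ volume ((P ∩ Set.Ioc (-Real.pi) 0) ∪ (P ∩ Set.Ioc 0 Real.pi)) := measure_mono h1
    _ ≤ volume (P ∩ Set.Ioc (-Real.pi) 0) + volume (P ∩ Set.Ioc 0 Real.pi) :=
        measure_union_le _ _
    _ ≤ ENNReal.ofReal (Real.pi / 2) * (μH[1] : Measure Circle) E
        + ENNReal.ofReal (Real.pi / 2) * (μH[1] : Measure Circle) E := add_le_add h2 h3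
    _ = ENNReal.ofReal Real.pi * (μH[1] : Measure Circle) E := by
        rw [← add_mul, ← ENNReal.ofReal_add (by positivity) (by positivity)]
        congr 2
        ring

theorem hausdorff_ball_lower : ∃ c : ℝ≥0, 0 < c ∧ ∀ (x : Circle) (r : ℝ), 0 < r → r ≤ 2 →
    (c : ℝ≥0∞) * ENNReal.ofReal r ≤ (μH[1] : Measure Circle) (Metric.closedBall x r) := by
  have hpi := Real.pi_pos
  have hpi3 := Real.pi_gt_three
  refine ⟨Real.toNNReal (1 / Real.pi), by simp [hpi], ?_⟩
  intro x r hr hr2
  have hB : MeasurableSet (Metric.closedBall x r) := Metric.isClosed_closedBall.measurableSet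
  have h1 := arcLength_le_hausdorff hB
  have h2 : ENNReal.ofReal r ≤ arcLength (Metric.closedBall x r) := by
    rw [haus_arc_apply hB]
    have hx1 := Complex.neg_pi_lt_arg (x : ℂ)
    have hx2 := Complex.arg_le_pi (x : ℂ)
    have key : ∀ t : ℝ, |t - Complex.arg (x : ℂ)| ≤ r →
        Circle.exp t ∈ Metric.closedBall x r := by
      intro t ht
      rw [Metric.mem_closedBall]
      calc dist (Circle.exp t) x = dist (Circle.exp t) (Circle.exp (Complex.arg (x : ℂ))) := by
            rw [Circle.exp_arg]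
        _ ≤ dist t (Complex.arg (x : ℂ)) := haus_dist_le _ _
        _ ≤ r := by rw [Real.dist_eq]; exact ht
    rcases le_or_gt (Complex.arg (x : ℂ)) 0 with h | h
    · calc ENNReal.ofReal r
          = volume (Set.Icc (Complex.arg (x : ℂ)) (Complex.arg (x : ℂ) + r)) := by
            rw [Real.volume_Icc]
            congr 1
            ring
        _ ≤ _ := by
            apply measure_mono
            rintro t ⟨ht1, ht2⟩
            refine ⟨key t ?_, by linarith, by linarith⟩
            rw [abs_le]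
            constructor <;> linarith
    · calc ENNReal.ofReal r
          = volume (Set.Icc (Complex.arg (x : ℂ) - r) (Complex.arg (x : ℂ))) := by
            rw [Real.volume_Icc]
            congr 1
            ring
        _ ≤ _ := by
            apply measure_mono
            rintro t ⟨ht1, ht2⟩
            refine ⟨key t ?_, by linarith, by linarith⟩
            rw [abs_le]
            constructor <;> linarith
  calc ((Real.toNNReal (1 / Real.pi) : ℝ≥0) : ℝ≥0∞) * ENNReal.ofReal r
      ≤ ENNReal.ofReal (1 / Real.pi) *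
          (ENNReal.ofReal Real.pi * (μH[1] : Measure Circle) (Metric.closedBall x r)) :=
        mul_le_mul_right (h2.trans h1) _
    _ = (μH[1] : Measure Circle) (Metric.closedBall x r) := by
        rw [← mul_assoc, ← ENNReal.ofReal_mul (by positivity), one_div,
          inv_mul_cancel₀ hpi.ne', ENNReal.ofReal_one, one_mul]

theorem hausdorff_ball_upper : ∃ C : ℝ≥0, ∀ (x : Circle) (r : ℝ), 0 < r →
    (μH[1] : Measure Circle) (Metric.closedBall x r) ≤ (C : ℝ≥0∞) * ENNReal.ofReal r := by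
  have hpi := Real.pi_pos
  refine ⟨Real.toNNReal Real.pi, ?_⟩
  intro x r hr
  have hsub : Metric.closedBall x r ⊆ (fun t : ℝ => Circle.exp t) ''
      (Set.Icc (Complex.arg (x : ℂ) - Real.pi / 2 * r) (Complex.arg (x : ℂ) + Real.pi / 2 * r)) := by
    intro y hy
    rw [Metric.mem_closedBall] at hy
    set s : ℝ := Complex.arg ((y / x : Circle) : ℂ) with hs
    have hexp : Circle.exp (Complex.arg (x : ℂ) + s) = y := by
      rw [Circle.exp_add, Circle.exp_arg, hs, Circle.exp_arg]
      exact mul_div_cancel x y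
    have hs1 : |s| ≤ Real.pi := Complex.abs_arg_le_pi _
    have h1 := haus_le_dist (Complex.arg (x : ℂ) + s) (Complex.arg (x : ℂ))
      (by rw [add_sub_cancel_left]; exact hs1)
    rw [hexp, Circle.exp_arg, Real.dist_eq, add_sub_cancel_left] at h1
    have h2 : |s| ≤ Real.pi / 2 * r :=
      h1.trans (mul_le_mul_of_nonneg_left hy (by positivity))
    rw [abs_le] at h2
    exact ⟨Complex.arg (x : ℂ) + s, ⟨by linarith, by linarith⟩, hexp⟩
  calc (μH[1] : Measure Circle) (Metric.closedBall x r) ≤ _ := measure_mono hsub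
    _ ≤ volume (Set.Icc (Complex.arg (x : ℂ) - Real.pi / 2 * r)
          (Complex.arg (x : ℂ) + Real.pi / 2 * r)) := haus_image_le _
    _ = ENNReal.ofReal (Real.pi * r) := by
        rw [Real.volume_Icc]
        congr 1
        ring
    _ = ((Real.toNNReal Real.pi : ℝ≥0) : ℝ≥0∞) * ENNReal.ofReal r := by
        rw [ENNReal.ofReal_mul hpi.le]
        rfl

theorem hausdorff_univ_ne_top : (μH[1] : Measure Circle) Set.univ ≠ ∞ := by
  have h := hausdorff_le_arcLength MeasurableSet.univ
  rw [haus_arc_apply MeasurableSet.univ] at h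
  refine ne_top_of_le_ne_top ?_ h
  rw [Set.preimage_univ, Set.univ_inter, Real.volume_Ioc]
  exact ENNReal.ofReal_ne_top

end Pool.H71.BS
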