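import Pool.Agent.H71.BS.Cover

/-!
# KAPPA: the boundary map of a multi-parameter as a selection rule
-/

open scoped ComplexConjugate
open MeasureTheory

namespace Pool.H71.BS

noncomputable section

namespace CanonicalPolygon

variable {g : ℕ} (F : CanonicalPolygon g)

theorem a_lt {a : ℤ → ℝ} (ha : F.IsMultiParameter a) (k : ℤ) : a k < a (k + 1) :=
  (ha.1 k).2.trans_lt ((F.q_lt_p k).trans_le (ha.1 (k + 1)).1)

theorem a_mono {a : ℤ → ℝ} (ha : F.IsMultiParameter a) : StrictMono a :=
  strictMono_int_of_lt_succ (F.a_lt ha)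

theorem a_add_mul {a : ℤ → ℝ} (ha : F.IsMultiParameter a) (k m : ℤ) :
    a (k + m * sides g) = a k + m * (2 * Real.pi) := by
  induction m using Int.induction_on with
  | zero => simp
  | succ i ih =>
    have : k + ((i : ℤ) + 1) * (sides g : ℤ) = (k + (i : ℤ) * sides g) + sides g := by ring
    rw [this, ha.2, ih]; push_cast; ring
  | pred i ih =>
    have h := ha.2 (k + (-(i : ℤ) - 1) * (sides g : ℤ))
    have : k + (-(i : ℤ) - 1) * (sides g : ℤ) + sides g = k + (-(i : ℤ)) * (sides g : ℤ) := by ring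
    rw [this, ih] at h
    push_cast at h ⊢
    linarith

/-- every point of the circle lies on one of the arcs `[A_k, A_{k+1})` -/
theorem exists_index {a : ℤ → ℝ} (ha : F.IsMultiParameter a) (x : Circle) :
    ∃ (k : ℤ) (θ : ℝ), a k ≤ θ ∧ θ < a (k + 1) ∧ x = Circle.exp θ := by
  have hpi : (0 : ℝ) < 2 * Real.pi := by positivity
  obtain ⟨θ0, rfl⟩ := Circle.exp_surjective x
  obtain ⟨m, hm, -⟩ := existsUnique_sub_zsmul_mem_Ico hpi θ0 (a 0)
  set θ := θ0 - m • (2 * Real.pi) with hθ
  have hex : Circle.exp θ0 = Circle.exp θ := by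
    rw [Circle.exp_eq_exp]
    exact ⟨m, by rw [hθ]; simp⟩
  have hn : a (0 + sides g) = a 0 + 2 * Real.pi := ha.2 0
  have key : ∀ N : ℕ, θ < a N → ∃ k : ℤ, a k ≤ θ ∧ θ < a (k + 1) := by
    intro N
    induction N with
    | zero => intro h; exact absurd hm.1 (not_le.2 (by simpa using h))
    | succ N ih =>
      intro h
      by_cases h' : θ < a N
      · exact ih h'
      · exact ⟨N, not_lt.1 h', by push_cast at h; exact h⟩
  obtain ⟨k, hk1, hk2⟩ := key (sides g) (by rw [zero_add] at hn; rw [hn]; exact hm.2)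
  exact ⟨k, θ, hk1, hk2, hex⟩

theorem index_unique {a : ℤ → ℝ} (ha : F.IsMultiParameter a) {k j : ℤ} {θ θ' : ℝ}
    (h1 : a k ≤ θ) (h2 : θ < a (k + 1)) (h3 : a j ≤ θ') (h4 : θ' < a (j + 1))
    (h : Circle.exp θ = Circle.exp θ') : (k : ZMod (sides g)) = j := by
  obtain ⟨m, hm⟩ := Circle.exp_eq_exp.1 h
  have e1 := F.a_add_mul ha j m
  have e2 := F.a_add_mul ha (j + 1) m
  have hmono := F.a_mono ha
  have c1 : k < j + 1 + m * sides g := by
    rw [← hmono.lt_iff_lt, e2]; linarith
  have c2 : j + m * sides g < k + 1 := by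
    rw [← hmono.lt_iff_lt, e1]; linarith
  have : k = j + m * sides g := by omega
  rw [this]; push_cast; simp

theorem exists_kappa (hg : 2 ≤ g) {a : ℤ → ℝ} (ha : F.IsMultiParameter a) :
    ∃ κ : Circle → ZMod (sides g), (∀ j, MeasurableSet {x | κ x = j}) ∧
      (∀ x, x ∈ F.arc (κ x)) ∧
      ∀ f : Circle → Circle, F.IsBoundaryMap a f ↔ ∀ x, f x = (F.T (κ x)).circ x := by
  choose k θ h1 h2 h3 using F.exists_index ha
  have hκ : ∀ (j : ℤ) (t : ℝ), a j ≤ t → t < a (j + 1) →
      ((k (Circle.exp t) : ℤ) : ZMod (sides g)) = j := by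
    intro j t ht1 ht2
    exact F.index_unique ha (h1 _) (h2 _) ht1 ht2 (h3 _).symm
  refine ⟨fun x => (k x : ZMod (sides g)), ?_, ?_, ?_⟩
  · intro j
    obtain ⟨j, rfl⟩ := ZMod.intCast_surjective j
    have : {x | ((k x : ℤ) : ZMod (sides g)) = j} = arcIco (a j) (a (j + 1)) := by
      ext x
      constructor
      · intro hx
        have hx : ((k x : ℤ) : ZMod (sides g)) = j := hx
        rw [ZMod.intCast_eq_intCast_iff_dvd_sub] at hx
        obtain ⟨m, hm⟩ := hx
        have e1 := F.a_add_mul ha j (-m)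
        have e2 := F.a_add_mul ha (j + 1) (-m)
        have c1 : k x = j + (-m) * sides g := by linear_combination -hm
        refine ⟨θ x + m * (2 * Real.pi), ⟨?_, ?_⟩, ?_⟩
        · have := h1 x
          rw [c1, e1] at this
          push_cast at this
          linarith
        · have := h2 x
          rw [c1] at this
          have e3 : j + -m * (sides g : ℤ) + 1 = j + 1 + -m * sides g := by ring
          rw [e3, e2] at this
          push_cast at this
          linarith
        · rw [h3 x, Circle.exp_eq_exp]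
          refine ⟨m, ?_⟩
          rw [← h3 x]
      · rintro ⟨t, ⟨ht1, ht2⟩, rfl⟩
        exact hκ j t ht1 ht2
    rw [this]
    refine measurableSet_arcIco ?_
    have : a (j + sides g) = a j + 2 * Real.pi := ha.2 j
    rw [← this]
    apply F.a_mono ha
    have : 1 < sides g := by unfold sides; omega
    omega
  · intro x
    refine ⟨k x, rfl, θ x, ⟨(ha.1 _).1.trans (h1 x), (h2 x).trans_le (ha.1 _).2⟩, (h3 x).symm⟩
  · intro f
    constructor
    · intro hf x
      apply Circle.ext
      have := hf (k x) (θ x) (h1 x) (h2 x)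
      rw [← h3 x] at this
      exact this
    · intro hf j t ht1 ht2
      rw [hf (Circle.exp t)]
      show (F.T ((k (Circle.exp t) : ℤ) : ZMod (sides g))).act _ = _
      rw [hκ j t ht1 ht2]

end CanonicalPolygon

end

end Pool.H71.BS
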