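import Pool.Agent.H71.BS.Rules
import Pool.Agent.H71.BS.Kappa
import Pool.Agent.H71.BS.Haus
import Pool.Agent.H71.BS.Erg

/-!
# FINAL: assembly
-/

open scoped ComplexConjugate
open MeasureTheory Measure
open scoped ENNReal NNReal

namespace Pool.H71.BS

noncomputable section

namespace CanonicalPolygon

variable {g : ℕ} (F : CanonicalPolygon g)

/-- the combinatorial core of a canonical polygon -/
def toCore (hg : 2 ≤ g) : Core (sides g) Circle where
  hn := by unfold sides; omega
  σ := sig g
  arc := F.arc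
  T k := (F.T k).circEquiv
  σσ := sig_sig hg
  T_symm k := by
    ext1 x
    rw [Equiv.eq_symm_apply]
    have := F.rule_inv hg (sig g k) x
    rw [sig_sig hg] at this
    exact this
  r0 := F.rule_zero hg
  rp := F.rule_plus hg
  rm := F.rule_minus hg
  vert := F.rule_vert hg
  cov := F.cov hg
  adj := F.adj hg
  two := F.two hg

theorem dist_le_two (x y : Circle) : dist x y ≤ 2 := by
  have h : dist x y = ‖(x : ℂ) - y‖ := dist_eq_norm (x : ℂ) (y : ℂ)
  rw [h]
  calc ‖(x : ℂ) - y‖ ≤ ‖(x : ℂ)‖ + ‖(y : ℂ)‖ := norm_sub_le _ _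
    _ = 2 := by rw [Circle.norm_coe, Circle.norm_coe]; norm_num

theorem exists_rho_le (hg : 2 ≤ g) : ∃ R, ∀ (k : ZMod (sides g)) (x : Circle),
    (F.T k).rho x ≤ R := by
  have : NeZero (sides g) := ⟨by unfold sides; omega⟩
  choose R hR using fun k => (F.T k).rho_le
  refine ⟨∑ k, |R k|, fun k x => ((hR k x).trans (le_abs_self _)).trans ?_⟩
  exact Finset.single_le_sum (f := fun k => |R k|) (fun i _ => abs_nonneg _) (Finset.mem_univ k)

/-- the metric-measure core -/
def toMCore (hg : 2 ≤ g) : MCore (sides g) Circle μH[1] where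
  toCore := F.toCore hg
  rho k x := (F.T k).rho x
  rho_pos k x := (F.T k).rho_pos x
  rho_le := F.exists_rho_le hg
  dist_T k x y := (F.T k).dist_circ x y
  meas_arc := F.measurableSet_arc hg
  D0 := 2
  D0_pos := by norm_num
  dist_le := dist_le_two
  c0 := (F.lebesgue hg).choose
  c0_pos := (F.lebesgue hg).choose_spec.1
  sep u x h := (F.lebesgue hg).choose_spec.2 u x h
  lip f K s h := by
    have := h.hausdorffMeasure_image_le (d := 1) zero_le_one
    simpa using this
  cA := hausdorff_ball_lower.choose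
  cA_pos := hausdorff_ball_lower.choose_spec.1
  CA := hausdorff_ball_upper.choose
  ball_lower x r h1 h2 := hausdorff_ball_lower.choose_spec.2 x r h1 h2
  ball_upper x r h1 := hausdorff_ball_upper.choose_spec x r h1
  G_pos j := by
    obtain ⟨U, hU, ⟨x, hx⟩, hUG⟩ := F.exists_open_G hg j
    obtain ⟨ε, hε, hball⟩ := Metric.nhds_basis_closedBall.mem_iff.1 (hU.mem_nhds hx)
    obtain ⟨c, hc, hlow⟩ := hausdorff_ball_lower
    have h1 := hlow x (min ε 2) (by positivity) (min_le_right _ _)
    have h2 : Metric.closedBall x (min ε 2) ⊆ (F.toCore hg).G j := by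
      intro y hy
      exact hUG y (hball (Metric.closedBall_subset_closedBall (min_le_left _ _) hy))
    intro h0
    have h3 := h1.trans (measure_mono h2)
    rw [h0] at h3
    have : (0 : ℝ≥0∞) < (c : ℝ≥0∞) * ENNReal.ofReal (min ε 2) := by
      apply ENNReal.mul_pos
      · exact_mod_cast hc.ne'
      · rw [Ne, ENNReal.ofReal_eq_zero, not_le]; positivity
    exact absurd h3 (not_le.2 this)
  fin := hausdorff_univ_ne_top

end CanonicalPolygon

theorem hausdorff_ac : (μH[1] : Measure Circle) ≪ arcLength := by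
  refine AbsolutelyContinuous.mk fun s hs h => ?_
  exact le_antisymm ((hausdorff_le_arcLength hs).trans h.le) zero_le

theorem ac_hausdorff : arcLength ≪ (μH[1] : Measure Circle) := by
  refine AbsolutelyContinuous.mk fun s hs h => ?_
  have := arcLength_le_hausdorff hs
  rw [h, mul_zero] at this
  exact le_antisymm this zero_le

/-- Main theorem. -/
theorem main (g : ℕ) (hg : 2 ≤ g) (F : CanonicalPolygon g) (a : ℤ → ℝ)
    (ha : F.IsMultiParameter a) :
    ∃ f : Circle → Circle, F.IsBoundaryMap a f ∧ (∀ f', F.IsBoundaryMap a f' → f' = f) ∧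
      ∃ μ : Measure Circle, IsProbabilityMeasure μ ∧ μ ≪ arcLength ∧ arcLength ≪ μ ∧
        Ergodic f μ ∧ ∀ ν : Measure Circle, IsProbabilityMeasure ν → ν ≪ arcLength →
          MeasurePreserving f ν ν → ν = μ := by
  obtain ⟨κ, h1, h2, h3⟩ := F.exists_kappa hg ha
  obtain ⟨μ, hμ, hμ1, hμ2, hμ3⟩ := (F.toMCore hg).ergodic_main (κ := κ) h1 h2
  refine ⟨fun x => (F.T (κ x)).circ x, (h3 _).2 fun _ => rfl, fun f' hf' => ?_, μ, hμ,
    hμ1.trans hausdorff_ac, ac_hausdorff.trans hμ2, hμ3, fun ν hν hν1 hν2 => ?_⟩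
  · ext1 x; exact (h3 f').1 hf' x
  · have : ν ≪ μ := hν1.trans (ac_hausdorff.trans hμ2)
    exact hμ3.eq_of_absolutelyContinuous hν2 this

end

end Pool.H71.BS
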