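import Pool.Agent.H71.BS.Core

/-!
# The metric-measure version of the combinatorial core; words
-/

open MeasureTheory
open scoped ENNReal NNReal

namespace Pool.H71.BS

structure MCore (n : ℕ) (X : Type*) [MetricSpace X] [MeasurableSpace X] (lam : Measure X)
    extends Core n X where
  /-- the conformal factors -/
  rho : ZMod n → X → ℝ
  rho_pos : ∀ k x, 0 < rho k x
  rho_le : ∃ R, ∀ k x, rho k x ≤ R
  dist_T : ∀ k x y, dist (T k x) (T k y) ^ 2 = rho k x * rho k y * dist x y ^ 2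
  meas_arc : ∀ k, MeasurableSet (arc k)
  D0 : ℝ
  D0_pos : 0 < D0
  dist_le : ∀ x y : X, dist x y ≤ D0
  c0 : ℝ
  c0_pos : 0 < c0
  sep : ∀ u x, toCore.Perp u x → c0 ≤ dist u x
  lip : ∀ (f : X → X) (K : ℝ≥0) (s : Set X), LipschitzOnWith K f s → lam (f '' s) ≤ K * lam s
  cA : ℝ≥0
  cA_pos : 0 < cA
  CA : ℝ≥0
  ball_lower : ∀ (x : X) (r : ℝ), 0 < r → r ≤ D0 →
    (cA : ℝ≥0∞) * ENNReal.ofReal r ≤ lam (Metric.closedBall x r)
  ball_upper : ∀ (x : X) (r : ℝ), 0 < r →
    lam (Metric.closedBall x r) ≤ (CA : ℝ≥0∞) * ENNReal.ofReal r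
  G_pos : ∀ j, lam (toCore.G j) ≠ 0
  fin : lam Set.univ ≠ ∞

namespace MCore

variable {n : ℕ} {X : Type*} [MetricSpace X] [MeasurableSpace X] {lam : Measure X}
  (M : MCore n X lam)

/-- the conformal factor of a word -/
def rhoW : List (ZMod n) → X → ℝ
  | [], _ => 1
  | k :: w, x => M.rho k x * rhoW w (M.T k x)

@[simp] theorem rhoW_nil (x : X) : M.rhoW [] x = 1 := rfl
@[simp] theorem rhoW_cons (k : ZMod n) (w : List (ZMod n)) (x : X) :
    M.rhoW (k :: w) x = M.rho k x * M.rhoW w (M.T k x) := rfl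

theorem rhoW_pos (w : List (ZMod n)) (x : X) : 0 < M.rhoW w x := by
  induction w generalizing x with
  | nil => simp
  | cons k w ih => exact mul_pos (M.rho_pos k x) (ih _)

theorem dist_run (w : List (ZMod n)) (x y : X) :
    dist (M.run w x) (M.run w y) ^ 2 = M.rhoW w x * M.rhoW w y * dist x y ^ 2 := by
  induction w generalizing x y with
  | nil => simp
  | cons k w ih =>
    rw [Core.run_cons, Core.run_cons, ih, M.dist_T, rhoW_cons, rhoW_cons]; ring

theorem continuous_T (k : ZMod n) : Continuous (M.T k) := by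
  obtain ⟨R, hR⟩ := M.rho_le
  have hR0 : ∀ x : X, 0 ≤ R := fun x => (M.rho_pos k x).le.trans (hR k x)
  by_cases hX : Nonempty X
  · obtain ⟨x0⟩ := hX
    have : LipschitzWith (Real.toNNReal R) (M.T k) := by
      refine LipschitzWith.of_dist_le_mul fun x y => ?_
      rw [Real.coe_toNNReal _ (hR0 x0)]
      refine abs_le_of_sq_le_sq' ?_ (mul_nonneg (hR0 x0) dist_nonneg) |>.2
      rw [M.dist_T, mul_pow]
      refine mul_le_mul_of_nonneg_right ?_ (sq_nonneg _)
      rw [sq]
      exact mul_le_mul (hR k x) (hR k y) (M.rho_pos k y).le (hR0 x0)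
    exact this.continuous
  · rw [not_nonempty_iff] at hX
    exact continuous_of_const fun x => hX.elim x

theorem continuous_run (w : List (ZMod n)) : Continuous (M.run w) := by
  induction w with
  | nil => exact continuous_id
  | cons k w ih => exact ih.comp (M.continuous_T k)

theorem measurable_T [BorelSpace X] (k : ZMod n) : Measurable (M.T k) :=
  (M.continuous_T k).measurable

theorem measurable_run [BorelSpace X] (w : List (ZMod n)) : Measurable (M.run w) :=
  (M.continuous_run w).measurable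

theorem image_run_eq (w : List (ZMod n)) (s : Set X) :
    M.run w '' s = M.run (M.inv w) ⁻¹' s := by
  ext y
  constructor
  · rintro ⟨x, hx, rfl⟩
    simpa [Core.run_inv] using hx
  · intro hy
    exact ⟨_, hy, M.run_inv' w y⟩

theorem measurableSet_image_run [BorelSpace X] (w : List (ZMod n)) {s : Set X}
    (hs : MeasurableSet s) : MeasurableSet (M.run w '' s) := by
  rw [image_run_eq]
  exact M.measurable_run _ hs

/-- upper bound for the measure of an image -/
theorem lam_image_le (w : List (ZMod n)) (s : Set X) {K : ℝ} (hK : 0 ≤ K)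
    (h : ∀ x ∈ s, M.rhoW w x ≤ K) : lam (M.run w '' s) ≤ ENNReal.ofReal K * lam s := by
  have : LipschitzOnWith (Real.toNNReal K) (M.run w) s := by
    refine LipschitzOnWith.of_dist_le_mul fun x hx y hy => ?_
    rw [Real.coe_toNNReal _ hK]
    refine abs_le_of_sq_le_sq' ?_ (mul_nonneg hK dist_nonneg) |>.2
    rw [M.dist_run, mul_pow]
    refine mul_le_mul_of_nonneg_right ?_ (sq_nonneg _)
    rw [sq]
    exact mul_le_mul (h x hx) (h y hy) (M.rhoW_pos w y).le hK
  exact M.lip _ _ _ this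

/-- lower bound for the measure of an image -/
theorem le_lam_image (w : List (ZMod n)) (s : Set X) {c : ℝ} (hc : 0 < c)
    (h : ∀ x ∈ s, c ≤ M.rhoW w x) : ENNReal.ofReal c * lam s ≤ lam (M.run w '' s) := by
  have h1 : LipschitzOnWith (Real.toNNReal c⁻¹) (M.run (M.inv w)) (M.run w '' s) := by
    refine LipschitzOnWith.of_dist_le_mul ?_
    rintro _ ⟨x, hx, rfl⟩ _ ⟨y, hy, rfl⟩
    rw [Core.run_inv, Core.run_inv, Real.coe_toNNReal _ (inv_pos.2 hc).le]
    rw [← div_eq_inv_mul, le_div_iff₀ hc]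
    refine abs_le_of_sq_le_sq' ?_ dist_nonneg |>.2
    rw [M.dist_run, mul_pow, mul_comm]
    refine mul_le_mul_of_nonneg_right ?_ (sq_nonneg _)
    rw [sq]
    exact mul_le_mul (h x hx) (h y hy) hc.le (M.rhoW_pos w x).le
  have h2 := M.lip _ _ _ h1
  have h3 : M.run (M.inv w) '' (M.run w '' s) = s := by
    ext y
    constructor
    · rintro ⟨_, ⟨x, hx, rfl⟩, rfl⟩
      rwa [Core.run_inv]
    · intro hy
      exact ⟨_, ⟨y, hy, rfl⟩, M.run_inv w y⟩
  rw [h3] at h2
  calc ENNReal.ofReal c * lam s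
      ≤ ENNReal.ofReal c * ((Real.toNNReal c⁻¹ : ℝ≥0) * lam (M.run w '' s)) := by gcongr
    _ = lam (M.run w '' s) := by
      rw [← mul_assoc]
      have : ENNReal.ofReal c * ((Real.toNNReal c⁻¹ : ℝ≥0) : ℝ≥0∞) = 1 := by
        change ENNReal.ofReal c * ENNReal.ofReal c⁻¹ = 1
        rw [← ENNReal.ofReal_mul hc.le, mul_inv_cancel₀ hc.ne', ENNReal.ofReal_one]
      rw [this, one_mul]

/-- distortion -/
theorem distort_lower {w : List (ZMod n)} {a x : X}
    (h' : M.Perp (M.run w a) (M.run w x)) :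
    M.c0 ^ 2 / M.D0 ^ 2 ≤ M.rhoW w a * M.rhoW w x := by
  have h1 := M.sep _ _ h'
  have h2 := M.dist_run w a x
  have h3 : dist a x ^ 2 ≤ M.D0 ^ 2 := by
    have := M.dist_le a x
    have h0 : 0 ≤ dist a x := dist_nonneg
    gcongr
  have h4 : M.c0 ^ 2 ≤ dist (M.run w a) (M.run w x) ^ 2 := by
    have := M.c0_pos
    gcongr
  rw [div_le_iff₀ (pow_pos M.D0_pos 2)]
  have h5 : 0 < M.rhoW w a * M.rhoW w x := mul_pos (M.rhoW_pos _ _) (M.rhoW_pos _ _)
  nlinarith

theorem distort_upper {w : List (ZMod n)} {a x : X} (h : M.Perp a x) :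
    M.rhoW w a * M.rhoW w x ≤ M.D0 ^ 2 / M.c0 ^ 2 := by
  have h1 := M.sep _ _ h
  have h2 := M.dist_run w a x
  have h3 : dist (M.run w a) (M.run w x) ^ 2 ≤ M.D0 ^ 2 := by
    have := M.dist_le (M.run w a) (M.run w x)
    have h0 : 0 ≤ dist (M.run w a) (M.run w x) := dist_nonneg
    gcongr
  have h4 : M.c0 ^ 2 ≤ dist a x ^ 2 := by
    have := M.c0_pos
    gcongr
  rw [le_div_iff₀ (pow_pos M.c0_pos 2)]
  have h5 : 0 < M.rhoW w a * M.rhoW w x := mul_pos (M.rhoW_pos _ _) (M.rhoW_pos _ _)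
  nlinarith

theorem measurableSet_far (j : ZMod n) : MeasurableSet {x | M.Far j x} := by
  haveI : NeZero n := ⟨by have := M.hn; omega⟩
  have : {x | M.Far j x} = ⋂ b : ZMod n, {x | x ∈ M.arc b → (j ≠ b ∧ j ≠ b + 1 ∧ j ≠ b - 1)} := by
    ext x; simp [Core.Far]
  rw [this]
  refine MeasurableSet.iInter fun b => ?_
  by_cases hb : j ≠ b ∧ j ≠ b + 1 ∧ j ≠ b - 1
  · simp [hb]
  · have : {x | x ∈ M.arc b → (j ≠ b ∧ j ≠ b + 1 ∧ j ≠ b - 1)} = (M.arc b)ᶜ := by
      ext x; simp only [Set.mem_setOf_eq, Set.mem_compl_iff]; tauto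
    rw [this]
    exact (M.meas_arc b).compl

theorem measurableSet_G (j : ZMod n) : MeasurableSet (M.G j) := by
  haveI : NeZero n := ⟨by have := M.hn; omega⟩
  have : M.G j = M.arc j ∩ ⋂ k : ZMod n, {x | x ∈ M.arc k → k = j} := by
    ext x; simp [Core.G]
  rw [this]
  refine (M.meas_arc j).inter (MeasurableSet.iInter fun k => ?_)
  by_cases hb : k = j
  · simp [hb]
  · have : {x | x ∈ M.arc k → k = j} = (M.arc k)ᶜ := by
      ext x; simp only [Set.mem_setOf_eq, Set.mem_compl_iff]; tauto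
    rw [this]
    exact (M.meas_arc k).compl

theorem G_nonempty (j : ZMod n) : (M.G j).Nonempty := by
  by_contra h
  rw [Set.not_nonempty_iff_eq_empty] at h
  exact M.G_pos j (by rw [h]; simp)

/-- the cylinder sets are measurable -/
theorem measurableSet_cyl [BorelSpace X] {κ : X → ZMod n} (hm : ∀ j, MeasurableSet {x | κ x = j})
    (w : List (ZMod n)) : MeasurableSet {x | M.itin κ w.length x = w} := by
  induction w with
  | nil => simp [Core.itin]
  | cons k w ih =>
    have : {x | M.itin κ (k :: w).length x = k :: w} =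
        {x | κ x = k} ∩ M.T k ⁻¹' {x | M.itin κ w.length x = w} := by
      ext x
      simp only [List.length_cons, Core.itin, List.cons.injEq, Set.mem_setOf_eq, Set.mem_inter_iff,
        Set.mem_preimage]
      constructor
      · rintro ⟨h1, h2⟩; subst h1; exact ⟨rfl, h2⟩
      · rintro ⟨h1, h2⟩; subst h1; exact ⟨rfl, h2⟩
    rw [this]
    exact (hm k).inter (M.measurable_T k ih)

theorem measurable_fmap [BorelSpace X] {κ : X → ZMod n} (hm : ∀ j, MeasurableSet {x | κ x = j}) :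
    Measurable (M.fmap κ) := by
  haveI : NeZero n := ⟨by have := M.hn; omega⟩
  intro s hs
  have : M.fmap κ ⁻¹' s = ⋃ k : ZMod n, ({x | κ x = k} ∩ M.T k ⁻¹' s) := by
    ext x
    simp only [Set.mem_preimage, Core.fmap, Set.mem_iUnion, Set.mem_inter_iff, Set.mem_setOf_eq]
    constructor
    · intro h; exact ⟨κ x, rfl, h⟩
    · rintro ⟨k, h1, h2⟩; subst h1; exact h2
  rw [this]
  exact MeasurableSet.iUnion fun k => (hm k).inter (M.measurable_T k hs)

end MCore
end Pool.H71.BS
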