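import Pool.Agent.H71.BS.Defs

/-!
# MOB: algebra of the disc isometries
-/

open scoped ComplexConjugate
open MeasureTheory

namespace Pool.H71.BS

noncomputable section

namespace DiscIso

/-- the denominator -/
def den (A : DiscIso) (z : ℂ) : ℂ := conj A.β * z + conj A.α

theorem act_eq (A : DiscIso) (z : ℂ) : A.act z = (A.α * z + A.β) / A.den z := rfl

/-- the inverse isometry -/
def inv (A : DiscIso) : DiscIso where
  α := conj A.α
  β := -A.β
  det := by simpa [Complex.normSq_conj, Complex.normSq_neg] using A.det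

theorem MOB_det (A : DiscIso) : A.α * conj A.α - A.β * conj A.β = 1 := by
  rw [Complex.mul_conj, Complex.mul_conj, ← Complex.ofReal_sub, A.det, Complex.ofReal_one]

theorem MOB_of {α β : ℂ} (h : α * conj α - β * conj β = 1) :
    Complex.normSq α - Complex.normSq β = 1 := by
  rw [Complex.mul_conj, Complex.mul_conj, ← Complex.ofReal_sub, ← Complex.ofReal_one] at h
  exact Complex.ofReal_injective h

/-- composition -/
def comp (A B : DiscIso) : DiscIso where
  α := A.α * B.α + A.β * conj B.β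
  β := A.α * B.β + A.β * conj B.α
  det := by
    refine MOB_of ?_
    have hA := A.MOB_det
    have hB := B.MOB_det
    simp only [map_add, map_mul, Complex.conj_conj]
    linear_combination (B.α * conj B.α - B.β * conj B.β) * hA + hB

/-- the isometry `toOrigin a` -/
def center (a : ℂ) (ha : ‖a‖ < 1) : DiscIso where
  α := ((Real.sqrt (1 - ‖a‖ ^ 2))⁻¹ : ℝ)
  β := -(((Real.sqrt (1 - ‖a‖ ^ 2))⁻¹ : ℝ) : ℂ) * a
  det := by
    have h1 : 0 < 1 - ‖a‖ ^ 2 := by nlinarith [norm_nonneg a]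
    rw [Complex.normSq_mul, Complex.normSq_neg, Complex.normSq_ofReal,
      Complex.normSq_eq_norm_sq a, ← mul_inv, Real.mul_self_sqrt h1.le]
    field_simp

theorem norm_beta_lt (A : DiscIso) : ‖A.β‖ < ‖A.α‖ := by
  have h := A.det
  rw [Complex.normSq_eq_norm_sq, Complex.normSq_eq_norm_sq] at h
  exact lt_of_pow_lt_pow_left₀ 2 (norm_nonneg _) (by linarith)

theorem MOB_den_norm (A : DiscIso) {z : ℂ} (hz : ‖z‖ ≤ 1) :
    ‖A.α‖ - ‖A.β‖ ≤ ‖A.den z‖ := by
  have h1 : ‖conj A.α‖ - ‖conj A.β * z‖ ≤ ‖conj A.α + conj A.β * z‖ := by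
    have := norm_sub_norm_le (conj A.α) (-(conj A.β * z))
    rw [norm_neg, sub_neg_eq_add] at this
    exact this
  rw [norm_mul, Complex.norm_conj, Complex.norm_conj] at h1
  have h2 : ‖A.β‖ * ‖z‖ ≤ ‖A.β‖ := mul_le_of_le_one_right (norm_nonneg _) hz
  have h3 : A.den z = conj A.α + conj A.β * z := by
    unfold den
    ring
  rw [h3]
  linarith

theorem den_ne_zero (A : DiscIso) {z : ℂ} (hz : ‖z‖ ≤ 1) : A.den z ≠ 0 := by
  intro h
  have h1 := A.MOB_den_norm hz
  rw [h, norm_zero] at h1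
  linarith [A.norm_beta_lt]

theorem comp_act (A B : DiscIso) {z : ℂ} (hz : ‖z‖ ≤ 1) :
    (A.comp B).act z = A.act (B.act z) := by
  have hd : conj B.β * z + conj B.α ≠ 0 := B.den_ne_zero hz
  unfold act comp
  simp only [map_add, map_mul, Complex.conj_conj]
  have e1 : A.α * ((B.α * z + B.β) / (conj B.β * z + conj B.α)) + A.β =
      (A.α * (B.α * z + B.β) + A.β * (conj B.β * z + conj B.α)) /
        (conj B.β * z + conj B.α) := by
    rw [eq_div_iff hd, add_mul, mul_assoc, div_mul_cancel₀ _ hd]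
  have e2 : conj A.β * ((B.α * z + B.β) / (conj B.β * z + conj B.α)) + conj A.α =
      (conj A.β * (B.α * z + B.β) + conj A.α * (conj B.β * z + conj B.α)) /
        (conj B.β * z + conj B.α) := by
    rw [eq_div_iff hd, add_mul, mul_assoc, div_mul_cancel₀ _ hd]
  rw [e1, e2, div_div_div_cancel_right₀ hd]
  congr 1 <;> ring

theorem center_act (a : ℂ) (ha : ‖a‖ < 1) {z : ℂ} (hz : ‖z‖ ≤ 1) :
    (center a ha).act z = toOrigin a z := by
  have h1 : 0 < 1 - ‖a‖ ^ 2 := by nlinarith [norm_nonneg a]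
  have h2 : (((Real.sqrt (1 - ‖a‖ ^ 2))⁻¹ : ℝ) : ℂ) ≠ 0 :=
    Complex.ofReal_ne_zero.mpr (inv_ne_zero (Real.sqrt_pos.mpr h1).ne')
  unfold act center toOrigin
  simp only [map_mul, map_neg, Complex.conj_ofReal]
  have e1 : (((Real.sqrt (1 - ‖a‖ ^ 2))⁻¹ : ℝ) : ℂ) * z +
      -(((Real.sqrt (1 - ‖a‖ ^ 2))⁻¹ : ℝ) : ℂ) * a =
      (((Real.sqrt (1 - ‖a‖ ^ 2))⁻¹ : ℝ) : ℂ) * (z - a) := by ring
  have e2 : -(((Real.sqrt (1 - ‖a‖ ^ 2))⁻¹ : ℝ) : ℂ) * conj a * z +
      (((Real.sqrt (1 - ‖a‖ ^ 2))⁻¹ : ℝ) : ℂ) =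
      (((Real.sqrt (1 - ‖a‖ ^ 2))⁻¹ : ℝ) : ℂ) * (1 - conj a * z) := by ring
  rw [e1, e2, mul_div_mul_left _ _ h2]

theorem act_sub_act (A : DiscIso) {z w : ℂ} (hz : ‖z‖ ≤ 1) (hw : ‖w‖ ≤ 1) :
    A.act z - A.act w = (z - w) / (A.den z * A.den w) := by
  rw [act_eq, act_eq, div_sub_div _ _ (A.den_ne_zero hz) (A.den_ne_zero hw)]
  congr 1
  have h := A.MOB_det
  unfold den
  linear_combination (z - w) * h

theorem one_sub_act (A : DiscIso) {a z : ℂ} (ha : ‖a‖ ≤ 1) (hz : ‖z‖ ≤ 1) :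
    1 - conj (A.act a) * A.act z = (1 - conj a * z) / (conj (A.den a) * A.den z) := by
  have h1 : conj (A.den a) ≠ 0 := (map_ne_zero _).mpr (A.den_ne_zero ha)
  have h2 := A.den_ne_zero hz
  rw [act_eq, act_eq, map_div₀, div_mul_div_comm, eq_div_iff (mul_ne_zero h1 h2), sub_mul,
    div_mul_cancel₀ _ (mul_ne_zero h1 h2)]
  have h := A.MOB_det
  unfold den
  simp only [map_add, map_mul, Complex.conj_conj]
  linear_combination (1 - conj a * z) * h

theorem MOB_normSq (A : DiscIso) {z : ℂ} (hz : ‖z‖ ≤ 1) :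
    1 - ‖A.act z‖ ^ 2 = (1 - ‖z‖ ^ 2) / ‖A.den z‖ ^ 2 := by
  have h := A.one_sub_act hz hz
  have e : ∀ w : ℂ, conj w * w = ((‖w‖ ^ 2 : ℝ) : ℂ) := by
    intro w
    rw [mul_comm, Complex.mul_conj, Complex.normSq_eq_norm_sq]
  rw [e, e, e, ← Complex.ofReal_one, ← Complex.ofReal_sub, ← Complex.ofReal_sub,
    ← Complex.ofReal_div] at h
  exact Complex.ofReal_injective h

theorem norm_act_lt (A : DiscIso) {z : ℂ} (hz : ‖z‖ < 1) : ‖A.act z‖ < 1 := by
  have h := A.MOB_normSq hz.le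
  have h1 : 0 < ‖A.den z‖ ^ 2 := pow_pos (norm_pos_iff.mpr (A.den_ne_zero hz.le)) 2
  have h2 : 0 < 1 - ‖z‖ ^ 2 := by nlinarith [norm_nonneg z]
  have h3 : 0 < 1 - ‖A.act z‖ ^ 2 := by rw [h]; exact div_pos h2 h1
  nlinarith [norm_nonneg (A.act z)]

theorem norm_act_eq (A : DiscIso) {z : ℂ} (hz : ‖z‖ = 1) : ‖A.act z‖ = 1 := by
  have h := A.MOB_normSq hz.le
  rw [hz, one_pow, sub_self, zero_div, sub_eq_zero] at h
  have h1 := norm_nonneg (A.act z)
  nlinarith

theorem norm_act_le (A : DiscIso) {z : ℂ} (hz : ‖z‖ ≤ 1) : ‖A.act z‖ ≤ 1 := by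
  rcases hz.lt_or_eq with h | h
  · exact (A.norm_act_lt h).le
  · exact (A.norm_act_eq h).le

theorem inv_act_act (A : DiscIso) {z : ℂ} (hz : ‖z‖ ≤ 1) : A.inv.act (A.act z) = z := by
  have hd : conj A.β * z + conj A.α ≠ 0 := A.den_ne_zero hz
  have h := A.MOB_det
  unfold act inv
  simp only [map_neg, Complex.conj_conj]
  have e1 : conj A.α * ((A.α * z + A.β) / (conj A.β * z + conj A.α)) + -A.β =
      z / (conj A.β * z + conj A.α) := by
    rw [eq_div_iff hd, add_mul, mul_assoc, div_mul_cancel₀ _ hd]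
    linear_combination z * h
  have e2 : -conj A.β * ((A.α * z + A.β) / (conj A.β * z + conj A.α)) + A.α =
      1 / (conj A.β * z + conj A.α) := by
    rw [eq_div_iff hd, add_mul, mul_assoc, div_mul_cancel₀ _ hd]
    linear_combination h
  rw [e1, e2, div_div_div_cancel_right₀ hd, div_one]

theorem inv_inv' (A : DiscIso) : A.inv.inv = A := by
  ext <;> simp [inv]

theorem act_inv_act (A : DiscIso) {z : ℂ} (hz : ‖z‖ ≤ 1) : A.act (A.inv.act z) = z := by
  have h := A.inv.inv_act_act hz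
  rwa [inv_inv'] at h

theorem act_injective (A : DiscIso) {z w : ℂ} (hz : ‖z‖ ≤ 1) (hw : ‖w‖ ≤ 1)
    (h : A.act z = A.act w) : z = w := by
  rw [← A.inv_act_act hz, h, A.inv_act_act hw]

/-- an isometry which fixes a point of the open disc and another point of the closed disc is the
identity: `β = 0` (product of the two roots of `β̄z² + (ᾱ-α)z - β` has modulus 1) and `α` real. -/
theorem act_eq_self_of_fix (A : DiscIso) {a b : ℂ} (ha : ‖a‖ < 1) (hb : ‖b‖ ≤ 1) (hab : a ≠ b)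
    (h1 : A.act a = a) (h2 : A.act b = b) (z : ℂ) : A.act z = z := by
  rw [act_eq, div_eq_iff (A.den_ne_zero ha.le)] at h1
  rw [act_eq, div_eq_iff (A.den_ne_zero hb)] at h2
  unfold den at h1 h2
  have h3 : (a - b) * (conj A.β * (a + b) + (conj A.α - A.α)) = 0 := by
    linear_combination h2 - h1
  have h4 : conj A.β * (a + b) + (conj A.α - A.α) = 0 :=
    (mul_eq_zero.mp h3).resolve_left (sub_ne_zero.mpr hab)
  have h5 : A.β = -(conj A.β * (a * b)) := by
    linear_combination h1 + a * h4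
  have h6 : ‖A.β‖ = ‖A.β‖ * (‖a‖ * ‖b‖) := by
    conv_lhs => rw [h5]
    rw [norm_neg, norm_mul, Complex.norm_conj, norm_mul]
  have h7 : ‖a‖ * ‖b‖ < 1 := by nlinarith [norm_nonneg a, norm_nonneg b]
  have h8 : ‖A.β‖ = 0 := by
    have : ‖A.β‖ * (1 - ‖a‖ * ‖b‖) = 0 := by linarith
    rcases mul_eq_zero.mp this with h | h
    · exact h
    · linarith
  have h9 : A.β = 0 := norm_eq_zero.mp h8
  have h10 : conj A.α = A.α := by
    rw [h9, map_zero, zero_mul, zero_add, sub_eq_zero] at h4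
    exact h4
  have h11 : A.α ≠ 0 := by
    intro h
    have := A.det
    rw [h, h9] at this
    simp at this
  unfold act
  rw [h9, h10, map_zero, zero_mul, zero_add, add_zero, mul_div_cancel_left₀ _ h11]

/-- two isometries which agree at a point of the open disc and at another point of the closed
disc agree (apply the previous lemma to `B.inv.comp A`) -/
theorem act_eq_act_of (A B : DiscIso) {a b : ℂ} (ha : ‖a‖ < 1) (hb : ‖b‖ ≤ 1) (hab : a ≠ b)
    (h1 : A.act a = B.act a) (h2 : A.act b = B.act b) {z : ℂ} (hz : ‖z‖ ≤ 1) :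
    A.act z = B.act z := by
  have e1 : (B.inv.comp A).act a = a := by
    rw [comp_act _ _ ha.le, h1, B.inv_act_act ha.le]
  have e2 : (B.inv.comp A).act b = b := by
    rw [comp_act _ _ hb, h2, B.inv_act_act hb]
  have e3 := (B.inv.comp A).act_eq_self_of_fix ha hb hab e1 e2 z
  rw [comp_act _ _ hz] at e3
  rw [← B.act_inv_act (A.norm_act_le hz), e3]

/-- the action on the circle -/
def circ (A : DiscIso) (x : Circle) : Circle :=
  ⟨A.act x, by
    have := A.norm_act_eq (Circle.norm_coe x)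
    simpa [Submonoid.unitSphere] using this⟩

@[simp] theorem coe_circ (A : DiscIso) (x : Circle) : (A.circ x : ℂ) = A.act x := rfl

/-- the action on the circle as an equivalence -/
def circEquiv (A : DiscIso) : Circle ≃ Circle where
  toFun := A.circ
  invFun := A.inv.circ
  left_inv x := Circle.ext (A.inv_act_act (Circle.norm_coe x).le)
  right_inv x := Circle.ext (A.act_inv_act (Circle.norm_coe x).le)

@[simp] theorem circEquiv_apply (A : DiscIso) (x : Circle) : A.circEquiv x = A.circ x := rfl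

/-- the conformal factor on the circle -/
def rho (A : DiscIso) (x : Circle) : ℝ := (Complex.normSq (A.den x))⁻¹

theorem rho_pos (A : DiscIso) (x : Circle) : 0 < A.rho x :=
  inv_pos.mpr (Complex.normSq_pos.mpr (A.den_ne_zero (Circle.norm_coe x).le))

theorem rho_le (A : DiscIso) : ∃ R, ∀ x, A.rho x ≤ R := by
  refine ⟨((‖A.α‖ - ‖A.β‖) ^ 2)⁻¹, fun x => ?_⟩
  have h1 := A.norm_beta_lt
  have h2 := A.MOB_den_norm (Circle.norm_coe x).le
  unfold rho
  rw [Complex.normSq_eq_norm_sq]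
  have h3 : 0 < ‖A.α‖ - ‖A.β‖ := by linarith
  exact inv_anti₀ (pow_pos h3 2) (pow_le_pow_left₀ h3.le h2 2)

theorem dist_circ (A : DiscIso) (x y : Circle) :
    dist (A.circ x) (A.circ y) ^ 2 = A.rho x * A.rho y * dist x y ^ 2 := by
  have hx := (Circle.norm_coe x).le
  have hy := (Circle.norm_coe y).le
  have e1 : dist (A.circ x) (A.circ y) = ‖(x : ℂ) - y‖ / (‖A.den x‖ * ‖A.den y‖) := by
    change dist (A.act x) (A.act y) = _
    rw [dist_eq_norm, A.act_sub_act hx hy, norm_div, norm_mul]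
  have e2 : dist x y = ‖(x : ℂ) - y‖ := by
    change dist (x : ℂ) (y : ℂ) = _
    rw [dist_eq_norm]
  rw [e1, e2]
  unfold rho
  rw [Complex.normSq_eq_norm_sq, Complex.normSq_eq_norm_sq, div_pow, mul_pow, div_eq_mul_inv,
    mul_inv]
  ring

end DiscIso

end

end Pool.H71.BS
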