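import Pool.Agent.H71.BS.Mob

/-!
# RAY: equivariance of `toOrigin` and `rayEnd`

`toOrigin (A a) (A z) = u * toOrigin a z`, `u = conj (D a) / D a`, `D = A.den`
(`act_sub_act`, `one_sub_act`).  `rayEnd a b` is the point `ξ` with
`toOrigin a ξ = toOrigin a b / ‖toOrigin a b‖`.
-/

open scoped ComplexConjugate
open MeasureTheory

namespace Pool.H71.BS

noncomputable section

/-- the unimodular factor -/
def unim (A : DiscIso) (a : ℂ) : ℂ := conj (A.den a) / A.den a

theorem norm_unim (A : DiscIso) {a : ℂ} (ha : ‖a‖ ≤ 1) : ‖unim A a‖ = 1 := by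
  have h := A.den_ne_zero ha
  unfold unim
  rw [norm_div, RCLike.norm_conj, div_self (norm_ne_zero_iff.2 h)]

theorem ray_one_sub_ne {a z : ℂ} (ha : ‖a‖ < 1) (hz : ‖z‖ ≤ 1) : 1 - conj a * z ≠ 0 := by
  intro h
  have h1 : conj a * z = 1 := (sub_eq_zero.1 h).symm
  have h2 : ‖a‖ * ‖z‖ = 1 := by
    rw [← RCLike.norm_conj a, ← norm_mul, h1, norm_one]
  have h3 : ‖a‖ * ‖z‖ ≤ ‖a‖ * 1 := mul_le_mul_of_nonneg_left hz (norm_nonneg a)
  linarith

theorem toOrigin_act (A : DiscIso) {a z : ℂ} (ha : ‖a‖ < 1) (hz : ‖z‖ ≤ 1) :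
    toOrigin (A.act a) (A.act z) = unim A a * toOrigin a z := by
  have h1 := A.den_ne_zero ha.le
  have h2 := A.den_ne_zero hz
  have h3 : conj (A.den a) ≠ 0 := by
    intro h
    exact h1 (by rw [← Complex.conj_conj (A.den a), h, map_zero])
  have h4 := ray_one_sub_ne ha hz
  unfold toOrigin unim
  rw [A.act_sub_act hz ha.le, A.one_sub_act ha.le hz]
  field_simp

theorem toOrigin_ne_zero {a b : ℂ} (ha : ‖a‖ < 1) (hb : ‖b‖ ≤ 1) (hab : a ≠ b) :
    toOrigin a b ≠ 0 := by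
  unfold toOrigin
  exact div_ne_zero (sub_ne_zero.2 hab.symm) (ray_one_sub_ne ha hb)

theorem toOrigin_injective {a z w : ℂ} (ha : ‖a‖ < 1) (hz : ‖z‖ ≤ 1) (hw : ‖w‖ ≤ 1)
    (h : toOrigin a z = toOrigin a w) : z = w := by
  rw [← DiscIso.center_act a ha hz, ← DiscIso.center_act a ha hw] at h
  exact (DiscIso.center a ha).act_injective hz hw h

theorem ray_norm_unit {w : ℂ} (hw : w ≠ 0) : ‖w / ‖w‖‖ = 1 := by
  rw [norm_div, Complex.norm_real, norm_norm, div_self (norm_ne_zero_iff.2 hw)]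

theorem ray_unit_mul {u w : ℂ} (hu : ‖u‖ = 1) :
    u * w / ((‖u * w‖ : ℝ) : ℂ) = u * (w / ((‖w‖ : ℝ) : ℂ)) := by
  rw [norm_mul, hu, one_mul, mul_div_assoc]

/-- `rayEnd` through the inverse of `center` -/
theorem ray_eq {a : ℂ} (ha : ‖a‖ < 1) (b : ℂ) :
    rayEnd a b = (DiscIso.center a ha).inv.act (toOrigin a b / ‖toOrigin a b‖) := by
  have h0 : 0 < 1 - ‖a‖ ^ 2 := by
    have := norm_nonneg a
    nlinarith
  have hs : ((Real.sqrt (1 - ‖a‖ ^ 2))⁻¹ : ℝ) ≠ 0 := inv_ne_zero (Real.sqrt_pos.2 h0).ne'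
  have hs' : (((Real.sqrt (1 - ‖a‖ ^ 2))⁻¹ : ℝ) : ℂ) ≠ 0 := by
    exact_mod_cast hs
  unfold rayEnd DiscIso.act DiscIso.inv DiscIso.center
  simp only [map_neg, map_mul, Complex.conj_ofReal, neg_mul, neg_neg, mul_neg]
  set s : ℂ := (((Real.sqrt (1 - ‖a‖ ^ 2))⁻¹ : ℝ) : ℂ) with hsdef
  set u : ℂ := toOrigin a b / ‖toOrigin a b‖ with hu
  rw [show s * u + s * a = s * (u + a) by ring,
    show s * conj a * u + s = s * (1 + conj a * u) by ring, mul_div_mul_left _ _ hs']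

theorem norm_rayEnd {a b : ℂ} (ha : ‖a‖ < 1) (hb : ‖b‖ < 1) (hab : a ≠ b) :
    ‖rayEnd a b‖ = 1 := by
  rw [ray_eq ha]
  exact DiscIso.norm_act_eq _ (ray_norm_unit (toOrigin_ne_zero ha hb.le hab))

/-- `rayEnd a b` is the point in direction `toOrigin a b` from `a` -/
theorem toOrigin_rayEnd_left {a b : ℂ} (ha : ‖a‖ < 1) (hb : ‖b‖ < 1) (hab : a ≠ b) :
    toOrigin a (rayEnd a b) = toOrigin a b / ‖toOrigin a b‖ := by
  have h1 := norm_rayEnd ha hb hab
  rw [← DiscIso.center_act a ha h1.le, ray_eq ha]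
  exact DiscIso.act_inv_act _ (ray_norm_unit (toOrigin_ne_zero ha hb.le hab)).le

/-- seen from `b`, the ray from `a` through `b` ends in the direction opposite to `a` -/
theorem toOrigin_rayEnd_right {a b : ℂ} (ha : ‖a‖ < 1) (hb : ‖b‖ < 1) (hab : a ≠ b) :
    toOrigin b (rayEnd a b) = -(toOrigin b a / ‖toOrigin b a‖) := by
  have hw := toOrigin_ne_zero ha hb.le hab
  have h1 := norm_rayEnd ha hb hab
  have e1 := toOrigin_act (DiscIso.center a ha) hb h1.le
  have e2 := toOrigin_act (DiscIso.center a ha) hb ha.le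
  rw [DiscIso.center_act a ha hb.le, DiscIso.center_act a ha h1.le,
    toOrigin_rayEnd_left ha hb hab] at e1
  rw [DiscIso.center_act a ha hb.le, DiscIso.center_act a ha ha.le] at e2
  have e3 : toOrigin a a = 0 := by simp [toOrigin]
  rw [e3] at e2
  have hu := norm_unim (DiscIso.center a ha) hb.le
  set U := unim (DiscIso.center a ha) b with hU
  have hU0 : U ≠ 0 := by
    intro h; rw [h, norm_zero] at hu; exact zero_ne_one hu
  set w := toOrigin a b with hwdef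
  have hwlt : ‖w‖ < 1 := by
    rw [hwdef, ← DiscIso.center_act a ha hb.le]
    exact DiscIso.norm_act_lt _ hb
  have hw0 : (‖w‖ : ℂ) ≠ 0 := by exact_mod_cast norm_ne_zero_iff.2 hw
  have hcw : conj w * w = (‖w‖ : ℂ) ^ 2 := by
    rw [mul_comm, Complex.mul_conj, Complex.normSq_eq_norm_sq]
    push_cast
    rfl
  have hr1 : (1 : ℂ) - ‖w‖ ≠ 0 := by
    have : (1 : ℝ) - ‖w‖ ≠ 0 := by linarith
    exact_mod_cast this
  have e4 : toOrigin w (w / ‖w‖) = w / ‖w‖ := by
    unfold toOrigin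
    have h5 : 1 - conj w * (w / ‖w‖) = 1 - ‖w‖ := by
      rw [← mul_div_assoc, hcw]
      field_simp
    rw [h5]
    field_simp
  have e5 : toOrigin w 0 = - w := by
    unfold toOrigin
    simp
  rw [e4] at e1
  rw [e5] at e2
  have e6 : ‖toOrigin b a‖ = ‖w‖ := by
    have := congrArg norm e2
    rw [norm_neg, norm_mul, hu, one_mul] at this
    exact this.symm
  have e7 : U * toOrigin b (rayEnd a b) = U * (-(toOrigin b a / ‖toOrigin b a‖)) := by
    rw [← e1, e6, mul_neg, ← mul_div_assoc, ← e2, neg_div, neg_neg]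
  exact mul_left_cancel₀ hU0 e7

/-- equivariance of the unit direction -/
theorem unit_toOrigin_act (A : DiscIso) {a z : ℂ} (ha : ‖a‖ < 1) (hz : ‖z‖ ≤ 1) :
    toOrigin (A.act a) (A.act z) / ‖toOrigin (A.act a) (A.act z)‖ =
      unim A a * (toOrigin a z / ‖toOrigin a z‖) := by
  rw [toOrigin_act A ha hz]
  exact ray_unit_mul (norm_unim A ha.le)

/-- equivariance of `rayEnd` -/
theorem act_rayEnd (A : DiscIso) {a b : ℂ} (ha : ‖a‖ < 1) (hb : ‖b‖ < 1) (hab : a ≠ b) :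
    A.act (rayEnd a b) = rayEnd (A.act a) (A.act b) := by
  have hA := A.norm_act_lt ha
  have hB := A.norm_act_lt hb
  have hAB : A.act a ≠ A.act b := fun h => hab (A.act_injective ha.le hb.le h)
  have h1 := norm_rayEnd ha hb hab
  refine toOrigin_injective hA (A.norm_act_eq h1).le (norm_rayEnd hA hB hAB).le ?_
  rw [toOrigin_act A ha h1.le, toOrigin_rayEnd_left ha hb hab, toOrigin_rayEnd_left hA hB hAB,
    unit_toOrigin_act A ha hb.le]

end

end Pool.H71.BS
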