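import Pool.Agent.H71.BS.Dir
import Pool.Agent.H71.BS.Comb

/-!
# REL: the images of the boundary points

Write `σ = sig g k`, `j` an integer with `(j : ZMod n) = σ`.
* `T_k P_k = Q_{σ+1}`, `T_k Q_{k+1} = P_σ`: `act_rayEnd`, `T_V`, `T_V'`.
* `T_k P_{k-1} = P_{σ+1}`, `T_k Q_k = Q_{σ+2}`: both sides are determined by their images under
  `toOrigin V_{σ+1}` (`toOrigin_injective`).  With `u = unim T_k V_k`
  (`toOrigin_act`, `unit_toOrigin_act`):
  `toOrigin V_{σ+1} (T_k P_{k-1}) = u * dirTo V_k V_{k-1}`, and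
  `dirTo V_{σ+1} V_σ = dirTo (T_k V_k) (T_k V_{k+1}) = u * dirTo V_k V_{k+1}`;
  by `dir` at `k` and at `σ+1`, and `theta k + theta (σ+1) = π` (`angle_sum`):
  `dirTo V_{σ+1} V_{σ+2} = dirTo V_{σ+1} V_σ * e^{-iθ_{σ+1}} = -u * dirTo V_k V_{k-1}`,
  and `toOrigin V_{σ+1} P_{σ+1} = -dirTo V_{σ+1} V_{σ+2}`, `toOrigin V_{σ+1} Q_{σ+2} =
  dirTo V_{σ+1} V_{σ+2}`, `toOrigin V_k Q_k = -dirTo V_k V_{k-1}`.
* `T_k P_{k+1} = P_{σ-1}`, `T_k Q_{k+2} = Q_σ`: the same at `V_{k+1} ↦ V_σ`, with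
  `theta σ + theta (k+1) = π` (`angle_sum` at `σ`, `sig_sig`).
-/

open scoped ComplexConjugate
open MeasureTheory

namespace Pool.H71.BS

noncomputable section

namespace CanonicalPolygon

variable {g : ℕ} (F : CanonicalPolygon g)

theorem REL_coe_P (k : ℤ) : ((F.P k : Circle) : ℂ) =
    rayEnd (F.V ((k : ZMod (sides g)) + 1)) (F.V k) := F.exp_p k

theorem REL_coe_Q (k : ℤ) : ((F.Q k : Circle) : ℂ) =
    rayEnd (F.V ((k : ZMod (sides g)) - 1)) (F.V k) := F.exp_q k

theorem REL_ne (k : ZMod (sides g)) : F.V (k - 1) ≠ F.V k := by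
  have h := F.V_ne (k - 1)
  rwa [sub_add_cancel] at h

theorem T_P (k j : ℤ) (hj : (j : ZMod (sides g)) = sig g k) :
    (F.T k).circ (F.P k) = F.Q (j + 1) := by
  apply Circle.ext
  rw [DiscIso.coe_circ, REL_coe_P, REL_coe_Q,
    act_rayEnd (F.T k) (F.norm_V _) (F.norm_V _) (F.V_ne k).symm, F.T_V, F.T_V', ← hj]
  push_cast
  rw [add_sub_cancel_right]

theorem T_Q1 (k j : ℤ) (hj : (j : ZMod (sides g)) = sig g k) :
    (F.T k).circ (F.Q (k + 1)) = F.P j := by
  apply Circle.ext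
  rw [DiscIso.coe_circ, REL_coe_P, REL_coe_Q]
  push_cast
  rw [add_sub_cancel_right,
    act_rayEnd (F.T k) (F.norm_V _) (F.norm_V _) (F.V_ne k), F.T_V, F.T_V', ← hj]

/-- directions at the vertex `V (σ+1)` -/
theorem REL_dir1 (hg : 2 ≤ g) (k : ZMod (sides g)) :
    dirTo (F.V (sig g k + 1)) (F.V (sig g k + 2)) =
      -(unim (F.T k) (F.V k) * dirTo (F.V k) (F.V (k - 1))) := by
  have h1 := F.dir hg k
  have h2 := F.dir hg (sig g k + 1)
  have h3 : dirTo (F.V (sig g k + 1)) (F.V (sig g k)) =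
      unim (F.T k) (F.V k) * dirTo (F.V k) (F.V (k + 1)) := by
    have := unit_toOrigin_act (F.T k) (F.norm_V k) (F.norm_V (k + 1)).le
    rw [F.T_V, F.T_V'] at this
    exact this
  have h4 : F.theta (sig g k + 1) = Real.pi - F.theta k := by
    have := F.angle_sum k
    unfold theta
    rw [add_sub_cancel_right, show sig g k + 1 + 1 = sig g k + 2 by ring]
    linarith
  rw [add_sub_cancel_right, show sig g k + 1 + 1 = sig g k + 2 by ring, h4, h3] at h2
  rw [h1]
  have h5 : Complex.exp (((Real.pi - F.theta k : ℝ) : ℂ) * Complex.I) *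
      Complex.exp (F.theta k * Complex.I) = -1 := by
    rw [← Complex.exp_add]
    push_cast
    rw [show ((Real.pi : ℂ) - F.theta k) * Complex.I + F.theta k * Complex.I =
      Real.pi * Complex.I by ring, Complex.exp_pi_mul_I]
  have h6 : unim (F.T k) (F.V k) * (dirTo (F.V k) (F.V (k + 1)) *
      Complex.exp (F.theta k * Complex.I)) =
      dirTo (F.V (sig g k + 1)) (F.V (sig g k + 2)) *
        (Complex.exp (((Real.pi - F.theta k : ℝ) : ℂ) * Complex.I) *
          Complex.exp (F.theta k * Complex.I)) := by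
    rw [← mul_assoc, h2]
    ring
  rw [h6, h5]
  ring

/-- directions at the vertex `V σ` -/
theorem REL_dir2 (hg : 2 ≤ g) (k : ZMod (sides g)) :
    dirTo (F.V (sig g k)) (F.V (sig g k - 1)) =
      -(unim (F.T k) (F.V (k + 1)) * dirTo (F.V (k + 1)) (F.V (k + 2))) := by
  have h1 := F.dir hg (k + 1)
  have h2 := F.dir hg (sig g k)
  have h3 : dirTo (F.V (sig g k)) (F.V (sig g k + 1)) =
      unim (F.T k) (F.V (k + 1)) * dirTo (F.V (k + 1)) (F.V k) := by
    have := unit_toOrigin_act (F.T k) (F.norm_V (k + 1)) (F.norm_V k).le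
    rw [F.T_V, F.T_V'] at this
    exact this
  have h4 : F.theta (sig g k) = Real.pi - F.theta (k + 1) := by
    have := F.angle_sum (sig g k)
    rw [sig_sig hg] at this
    unfold theta
    rw [add_sub_cancel_right, show k + 1 + 1 = k + 2 by ring]
    linarith
  rw [add_sub_cancel_right, show k + 1 + 1 = k + 2 by ring] at h1
  rw [h2, h3, h1, h4]
  have h5 : Complex.exp (F.theta (k + 1) * Complex.I) *
      Complex.exp (((Real.pi - F.theta (k + 1) : ℝ) : ℂ) * Complex.I) = -1 := by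
    rw [← Complex.exp_add]
    push_cast
    rw [show (F.theta (k + 1) : ℂ) * Complex.I + ((Real.pi : ℂ) - F.theta (k + 1)) * Complex.I =
      Real.pi * Complex.I by ring, Complex.exp_pi_mul_I]
  calc unim (F.T k) (F.V (k + 1)) * (dirTo (F.V (k + 1)) (F.V (k + 2)) *
        Complex.exp (F.theta (k + 1) * Complex.I)) *
        Complex.exp (((Real.pi - F.theta (k + 1) : ℝ) : ℂ) * Complex.I)
      = unim (F.T k) (F.V (k + 1)) * dirTo (F.V (k + 1)) (F.V (k + 2)) *
        (Complex.exp (F.theta (k + 1) * Complex.I) *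
        Complex.exp (((Real.pi - F.theta (k + 1) : ℝ) : ℂ) * Complex.I)) := by ring
    _ = _ := by rw [h5]; ring

/-- a point of the circle is determined by its direction -/
theorem REL_ext {a : ℂ} (ha : ‖a‖ < 1) {x y : Circle} (h : toOrigin a x = toOrigin a y) :
    x = y := by
  apply Circle.ext
  exact toOrigin_injective ha (Circle.norm_coe x).le (Circle.norm_coe y).le h

theorem T_Pm (hg : 2 ≤ g) (k j : ℤ) (hj : (j : ZMod (sides g)) = sig g k) :
    (F.T k).circ (F.P (k - 1)) = F.P (j + 1) := by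
  apply REL_ext (F.norm_V (sig g k + 1))
  have h1 : toOrigin (F.V (sig g k + 1)) (F.P (j + 1)) =
      -dirTo (F.V (sig g k + 1)) (F.V (sig g k + 2)) := by
    rw [REL_coe_P]
    push_cast
    rw [hj, show sig g k + 1 + 1 = sig g k + 2 by ring]
    refine toOrigin_rayEnd_right (F.norm_V _) (F.norm_V _) ?_
    have := (F.V_ne (sig g k + 1)).symm
    rwa [show sig g k + 1 + 1 = sig g k + 2 by ring] at this
  have h2 : toOrigin (F.V k) (F.P (k - 1)) = dirTo (F.V k) (F.V (k - 1)) := by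
    rw [REL_coe_P]
    push_cast
    rw [sub_add_cancel]
    exact toOrigin_rayEnd_left (F.norm_V _) (F.norm_V _) (F.REL_ne k).symm
  have h3 := toOrigin_act (F.T k) (F.norm_V k) (Circle.norm_coe (F.P (k - 1))).le
  rw [F.T_V, h2] at h3
  rw [DiscIso.coe_circ, h3, h1, F.REL_dir1 hg k, neg_neg]

theorem T_Q (hg : 2 ≤ g) (k j : ℤ) (hj : (j : ZMod (sides g)) = sig g k) :
    (F.T k).circ (F.Q k) = F.Q (j + 2) := by
  apply REL_ext (F.norm_V (sig g k + 1))
  have h1 : toOrigin (F.V (sig g k + 1)) (F.Q (j + 2)) =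
      dirTo (F.V (sig g k + 1)) (F.V (sig g k + 2)) := by
    rw [REL_coe_Q]
    push_cast
    rw [hj, show sig g k + 2 - 1 = sig g k + 1 by ring]
    refine toOrigin_rayEnd_left (F.norm_V _) (F.norm_V _) ?_
    have := F.V_ne (sig g k + 1)
    rwa [show sig g k + 1 + 1 = sig g k + 2 by ring] at this
  have h2 : toOrigin (F.V k) (F.Q k) = -dirTo (F.V k) (F.V (k - 1)) := by
    rw [REL_coe_Q]
    exact toOrigin_rayEnd_right (F.norm_V _) (F.norm_V _) (F.REL_ne k)
  have h3 := toOrigin_act (F.T k) (F.norm_V k) (Circle.norm_coe (F.Q k)).le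
  rw [F.T_V, h2] at h3
  rw [DiscIso.coe_circ, h3, h1, F.REL_dir1 hg k, mul_neg]

theorem T_Pp (hg : 2 ≤ g) (k j : ℤ) (hj : (j : ZMod (sides g)) = sig g k) :
    (F.T k).circ (F.P (k + 1)) = F.P (j - 1) := by
  apply REL_ext (F.norm_V (sig g k))
  have h1 : toOrigin (F.V (sig g k)) (F.P (j - 1)) =
      dirTo (F.V (sig g k)) (F.V (sig g k - 1)) := by
    rw [REL_coe_P]
    push_cast
    rw [hj, sub_add_cancel]
    exact toOrigin_rayEnd_left (F.norm_V _) (F.norm_V _) (F.REL_ne _).symm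
  have h2 : toOrigin (F.V (k + 1)) (F.P (k + 1)) =
      -dirTo (F.V (k + 1)) (F.V (k + 2)) := by
    rw [REL_coe_P]
    push_cast
    rw [show (k : ZMod (sides g)) + 1 + 1 = k + 2 by ring]
    refine toOrigin_rayEnd_right (F.norm_V _) (F.norm_V _) ?_
    have := (F.V_ne ((k : ZMod (sides g)) + 1)).symm
    rwa [show (k : ZMod (sides g)) + 1 + 1 = k + 2 by ring] at this
  have h3 := toOrigin_act (F.T k) (F.norm_V (k + 1)) (Circle.norm_coe (F.P (k + 1))).le
  rw [F.T_V', h2] at h3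
  rw [DiscIso.coe_circ, h3, h1, F.REL_dir2 hg k, mul_neg]

theorem T_Q2 (hg : 2 ≤ g) (k j : ℤ) (hj : (j : ZMod (sides g)) = sig g k) :
    (F.T k).circ (F.Q (k + 2)) = F.Q j := by
  apply REL_ext (F.norm_V (sig g k))
  have h1 : toOrigin (F.V (sig g k)) (F.Q j) =
      -dirTo (F.V (sig g k)) (F.V (sig g k - 1)) := by
    rw [REL_coe_Q, hj]
    exact toOrigin_rayEnd_right (F.norm_V _) (F.norm_V _) (F.REL_ne _)
  have h2 : toOrigin (F.V (k + 1)) (F.Q (k + 2)) =
      dirTo (F.V (k + 1)) (F.V (k + 2)) := by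
    rw [REL_coe_Q]
    push_cast
    rw [show (k : ZMod (sides g)) + 2 - 1 = k + 1 by ring]
    refine toOrigin_rayEnd_left (F.norm_V _) (F.norm_V _) ?_
    have := F.V_ne ((k : ZMod (sides g)) + 1)
    rwa [show (k : ZMod (sides g)) + 1 + 1 = k + 2 by ring] at this
  have h3 := toOrigin_act (F.T k) (F.norm_V (k + 1)) (Circle.norm_coe (F.Q (k + 2))).le
  rw [F.T_V', h2] at h3
  rw [DiscIso.coe_circ, h3, h1, F.REL_dir2 hg k, neg_neg]

end CanonicalPolygon

end

end Pool.H71.BS
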