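import Pool.Agent.H71.BS.Rel
import Pool.Agent.H71.BS.Cover

/-!
# RULES: the action of the generators on the arcs

All from `circ_mem_arcIco` (with lifts), the six relations of `Rel.lean`, `arc_eq`,
`arcIco_compl`:
* r0: `T_k [P_k, Q_{k+1}) = [Q_{σ+1}, P_σ)`, the complement of `[P_σ, Q_{σ+1})`
  (`s = p k, t = q (k+1), s' = q (j+1), t' = p j + 2π`).
* rp: `T_k [P_{k-1}, Q_k) = [P_{σ+1}, Q_{σ+2})`.
* rm: `T_k [P_{k+1}, Q_{k+2}) = [P_{σ-1}, Q_σ)`.
* vert: both composites map `V_k` to the same vertex (`sig_vert`), and `P_{k-1}` to the same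
  boundary point: `T_k P_{k-1} = P_{σ+1}`, `T_{σ+1} P_{σ+1} = Q_{σ(σ+1)+1}`;
  `T_{k-1} P_{k-1} = Q_{σ(k-1)+1}`, `T_{σ(k-1)-1} Q_{σ(k-1)+1} = Q_{σ(σ(k-1)-1)}`
  (`T_Q2`); now `act_eq_act_of` for the composites (`comp_act`).
* inverse: `T_{σ k} T_k` fixes `V_k` and `V_{k+1}` (`act_eq_self_of_fix`).
-/

open scoped ComplexConjugate
open MeasureTheory

namespace Pool.H71.BS

noncomputable section

namespace CanonicalPolygon

variable {g : ℕ} (F : CanonicalPolygon g)

private theorem rules_lift (k : ZMod (sides g)) : ∃ k0 : ℤ, (k0 : ZMod (sides g)) = k :=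
  ZMod.intCast_surjective k

private theorem rules_sides (hg : 2 ≤ g) : (12 : ℤ) ≤ (sides g : ℕ) := by
  unfold sides
  omega

private theorem rules_lt {k m : ℤ} (h : k < m) : F.p k < F.q m :=
  (F.p_lt_q k).trans (F.q_mono h)

theorem rule_zero (hg : 2 ≤ g) (k : ZMod (sides g)) (x : Circle) :
    (F.T k).circ x ∈ F.arc (sig g k) ↔ x ∉ F.arc k := by
  obtain ⟨k0, rfl⟩ := rules_lift k
  obtain ⟨j, hj⟩ := rules_lift (sig g (k0 : ZMod (sides g)))
  have hs := rules_sides hg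
  rw [← hj, F.arc_eq hg, F.arc_eq hg]
  have h1 := circ_mem_arcIco (F.T (k0 : ZMod (sides g))) (s := F.p k0) (t := F.q (k0 + 1))
    (s' := F.q (j + 1)) (t' := F.p j + 2 * Real.pi) (F.rules_lt (by omega))
    (F.q_lt_p_add hg (by omega)) (F.q_lt_p_add hg (by omega))
    (by linarith [F.rules_lt (show j < j + 1 by omega)])
    (F.T_P k0 j hj) (by rw [Circle.exp_add_two_pi]; exact F.T_Q1 k0 j hj) x
  rw [arcIco_compl (F.rules_lt (by omega)) (F.q_lt_p_add hg (by omega))] at h1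
  rw [← h1, not_not]

theorem rule_plus (hg : 2 ≤ g) (k : ZMod (sides g)) (x : Circle) :
    (F.T k).circ x ∈ F.arc (sig g k + 1) ↔ x ∈ F.arc (k - 1) := by
  obtain ⟨k0, rfl⟩ := rules_lift k
  obtain ⟨j, hj⟩ := rules_lift (sig g (k0 : ZMod (sides g)))
  have hs := rules_sides hg
  have e1 : F.arc (sig g (k0 : ZMod (sides g)) + 1) = arcIco (F.p (j + 1)) (F.q (j + 2)) := by
    have := F.arc_eq hg (j + 1)
    push_cast at this
    rw [← hj, this]
    congr 2
    ring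
  have e2 : F.arc ((k0 : ZMod (sides g)) - 1) = arcIco (F.p (k0 - 1)) (F.q k0) := by
    have := F.arc_eq hg (k0 - 1)
    push_cast at this
    rw [this]
    congr 2
    ring
  rw [e1, e2]
  exact circ_mem_arcIco (F.T (k0 : ZMod (sides g))) (F.rules_lt (by omega))
    (F.q_lt_p_add hg (by omega)) (F.rules_lt (by omega))
    (F.q_lt_p_add hg (by omega)) (F.T_Pm hg k0 j hj) (F.T_Q hg k0 j hj) x

theorem rule_minus (hg : 2 ≤ g) (k : ZMod (sides g)) (x : Circle) :
    (F.T k).circ x ∈ F.arc (sig g k - 1) ↔ x ∈ F.arc (k + 1) := by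
  obtain ⟨k0, rfl⟩ := rules_lift k
  obtain ⟨j, hj⟩ := rules_lift (sig g (k0 : ZMod (sides g)))
  have hs := rules_sides hg
  have e1 : F.arc (sig g (k0 : ZMod (sides g)) - 1) = arcIco (F.p (j - 1)) (F.q j) := by
    have := F.arc_eq hg (j - 1)
    push_cast at this
    rw [← hj, this]
    congr 2
    ring
  have e2 : F.arc ((k0 : ZMod (sides g)) + 1) = arcIco (F.p (k0 + 1)) (F.q (k0 + 2)) := by
    have := F.arc_eq hg (k0 + 1)
    push_cast at this
    rw [this]
    congr 2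
    ring
  rw [e1, e2]
  exact circ_mem_arcIco (F.T (k0 : ZMod (sides g))) (F.rules_lt (by omega))
    (F.q_lt_p_add hg (by omega)) (F.rules_lt (by omega))
    (F.q_lt_p_add hg (by omega)) (F.T_Pp hg k0 j hj) (F.T_Q2 hg k0 j hj) x

theorem rule_vert (hg : 2 ≤ g) (k : ZMod (sides g)) (x : Circle) :
    (F.T (sig g k + 1)).circ ((F.T k).circ x) =
      (F.T (sig g (k - 1) - 1)).circ ((F.T (k - 1)).circ x) := by
  obtain ⟨k0, rfl⟩ := rules_lift k
  -- lifts: `j` of `σ k`, `m` of `σ (k-1)`, `r` of `σ (σ k + 1)`, `r + 1` of `σ (σ (k-1) - 1)`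
  obtain ⟨j, hj⟩ := rules_lift (sig g (k0 : ZMod (sides g)))
  obtain ⟨m, hm⟩ := rules_lift (sig g ((k0 : ZMod (sides g)) - 1))
  obtain ⟨r, hr⟩ := rules_lift (sig g (sig g (k0 : ZMod (sides g)) + 1))
  have hv := sig_vert hg (k0 : ZMod (sides g))
  have hj' : (((j + 1 : ℤ)) : ZMod (sides g)) = sig g (k0 : ZMod (sides g)) + 1 := by
    push_cast; rw [hj]
  have hm' : (((m - 1 : ℤ)) : ZMod (sides g)) = sig g ((k0 : ZMod (sides g)) - 1) - 1 := by
    push_cast; rw [hm]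
  have hk' : (((k0 - 1 : ℤ)) : ZMod (sides g)) = (k0 : ZMod (sides g)) - 1 := by push_cast; rfl
  -- the vertex
  have hVk : ‖F.V (k0 : ZMod (sides g))‖ ≤ 1 := (F.norm_V _).le
  have v1 : (F.T (sig g (k0 : ZMod (sides g)) + 1)).act ((F.T (k0 : ZMod (sides g))).act
      (F.V (k0 : ZMod (sides g)))) = F.V (sig g (sig g (k0 : ZMod (sides g)) + 1) + 1) := by
    rw [F.T_V, F.T_V]
  have v2 : (F.T (sig g ((k0 : ZMod (sides g)) - 1) - 1)).act
      ((F.T ((k0 : ZMod (sides g)) - 1)).act (F.V (k0 : ZMod (sides g)))) =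
      F.V (sig g (sig g ((k0 : ZMod (sides g)) - 1) - 1)) := by
    have h1 := F.T_V' ((k0 : ZMod (sides g)) - 1)
    rw [sub_add_cancel] at h1
    have h2 := F.T_V' (sig g ((k0 : ZMod (sides g)) - 1) - 1)
    rw [sub_add_cancel] at h2
    rw [h1, h2]
  -- the boundary point
  have b1 : (F.T (sig g (k0 : ZMod (sides g)) + 1)).circ ((F.T (k0 : ZMod (sides g))).circ
      (F.P (k0 - 1))) = F.Q (r + 1) := by
    rw [F.T_Pm hg k0 j hj, ← hj', F.T_P (j + 1) r]
    rw [hr, hj']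
  have b2 : (F.T (sig g ((k0 : ZMod (sides g)) - 1) - 1)).circ
      ((F.T ((k0 : ZMod (sides g)) - 1)).circ (F.P (k0 - 1))) = F.Q (r + 1) := by
    have h1 := F.T_P (k0 - 1) m (by rw [hm, hk'])
    rw [hk'] at h1
    have h2 := F.T_Q2 hg (m - 1) (r + 1) (by
      push_cast
      rw [hr, ← hv, hm])
    rw [hm'] at h2
    rw [h1, ← h2]
    congr 2
    ring
  apply Circle.ext
  have hx := (Circle.norm_coe x).le
  have hP := (Circle.norm_coe (F.P (k0 - 1))).le
  have hne : F.V (k0 : ZMod (sides g)) ≠ (F.P (k0 - 1) : ℂ) := by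
    intro h
    have h1 := F.norm_V (k0 : ZMod (sides g))
    rw [h, Circle.norm_coe] at h1
    exact lt_irrefl _ h1
  have key := DiscIso.act_eq_act_of
    ((F.T (sig g (k0 : ZMod (sides g)) + 1)).comp (F.T (k0 : ZMod (sides g))))
    ((F.T (sig g ((k0 : ZMod (sides g)) - 1) - 1)).comp (F.T ((k0 : ZMod (sides g)) - 1)))
    (F.norm_V (k0 : ZMod (sides g))) hP hne
    (by rw [DiscIso.comp_act _ _ hVk, DiscIso.comp_act _ _ hVk, v1, v2, hv])
    (by
      rw [DiscIso.comp_act _ _ hP, DiscIso.comp_act _ _ hP]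
      have e1 := congrArg (fun c : Circle => (c : ℂ)) b1
      have e2 := congrArg (fun c : Circle => (c : ℂ)) b2
      simp only [DiscIso.coe_circ] at e1 e2
      rw [e1, e2]) hx
  rw [DiscIso.comp_act _ _ hx, DiscIso.comp_act _ _ hx] at key
  simpa only [DiscIso.coe_circ] using key

theorem rule_inv (hg : 2 ≤ g) (k : ZMod (sides g)) (x : Circle) :
    (F.T (sig g k)).circ ((F.T k).circ x) = x := by
  apply Circle.ext
  have hx := (Circle.norm_coe x).le
  have h1 : ((F.T (sig g k)).comp (F.T k)).act (F.V k) = F.V k := by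
    rw [DiscIso.comp_act _ _ (F.norm_V k).le, F.T_V, F.T_V', sig_sig hg]
  have h2 : ((F.T (sig g k)).comp (F.T k)).act (F.V (k + 1)) = F.V (k + 1) := by
    rw [DiscIso.comp_act _ _ (F.norm_V (k + 1)).le, F.T_V', F.T_V, sig_sig hg]
  have key := DiscIso.act_eq_self_of_fix _ (F.norm_V k) (F.norm_V (k + 1)).le (F.V_ne k) h1 h2
    (x : ℂ)
  rw [DiscIso.comp_act _ _ hx] at key
  simpa only [DiscIso.coe_circ] using key

end CanonicalPolygon

end

end Pool.H71.BS
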